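import Pool.Agent.Lib.MP_efe3d7_co.H.Soft5
import Pool.Agent.Lib.MP_efe3d7_co.H.Soft4
import Pool.Agent.Lib.MP_efe3d7_co.R1

/-! Definitions for the cubic case and for fragments with large degrees. -/

set_option autoImplicit false

open Finset

namespace Pool.Agent.Lib.MP_efe3d7_co.H

variable {α : Type} [DecidableEq α]

/-- Features that no exceptional graph has. -/
def NX (V : Finset α) (τ : Sym2 α → Fin 3) : Prop :=
  8 ≤ V.card ∨ (∀ a ∈ V, ∀ b ∈ V, a ≠ b → τ s(a, b) ≠ 2) ∨ (∀ v ∈ V, dg V τ v = 3) ∨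
    (∃ a ∈ V, ∃ b ∈ nb V τ a, ∃ c ∈ nb V τ a, c ∈ nb V τ b ∧
      dg V τ a = 3 ∧ dg V τ b = 3 ∧ dg V τ c = 3) ∨
    (V.card = 7 ∧ ∃ v ∈ V, 5 ≤ dg V τ v) ∨
    (V.card = 7 ∧ ∃ p ∈ V, ∃ r ∈ nb V τ p, ∃ s ∈ nb V τ p, ∃ z ∈ nb V τ p,
      s ∈ nb V τ r ∧ z ∈ nb V τ r ∧ z ≠ s ∧
      ∀ a ∈ V, ∀ b ∈ V, a ≠ b → a ∉ ({p, r, s, z} : Finset α) → b ∉ ({p, r, s, z} : Finset α) →
        τ s(a, b) ≠ 1)

/-- A region in which all vertices are cubic and all edges are hard. -/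
structure Cub (V : Finset α) (τ : Sym2 α → Fin 3) (Q Dr : Finset α) (w : Prop) : Prop where
  sub : Q ⊆ V
  dsub : Dr ⊆ Q
  d3 : Dr.card = 3
  q0 : 3 ≤ (Q \ Dr).card
  cub : ∀ v ∈ Q, dg V τ v = 3
  hard : ∀ a ∈ Q, ∀ b ∈ Q, a ≠ b → τ s(a, b) ≠ 2
  tri : ∀ a ∈ Q, ∀ b ∈ nb V τ a, ∀ c ∈ nb V τ a, b ∈ Q → c ∈ Q → c ∉ nb V τ b
  c4 : ∀ a ∈ Q, ∀ b ∈ Q, a ≠ b → ∀ u ∈ nb V τ a, ∀ z ∈ nb V τ a, u ∈ Q → z ∈ Q → u ∈ nb V τ b →
    z ∈ nb V τ b → z = u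
  inn : ∀ v ∈ Q, v ∉ Dr → nb V τ v ⊆ Q
  dout : ∀ d ∈ Dr, (nb V τ d ∩ Q).card = 2
  dd : ∀ d ∈ Dr, ∀ d' ∈ Dr, d' ∉ nb V τ d
  a1 : ∀ B U : Finset α, B ⊆ Q → (w → (B ∩ Dr).card ≤ 1) → B.Nonempty → Cov V τ B U → 3 ≤ U.card
  a2 : ∀ B U : Finset α, B ⊆ Q → (w → (B ∩ Dr).card ≤ 1) → 2 ≤ B.card → Cov V τ B U →
    U.card ≤ 3 → Q \ Dr ⊆ B
  safe : ∀ (V' : Finset α) (τ' : Sym2 α → Fin 3), V' ⊆ V → (∀ a ∈ V, a ∉ V' → a ∈ Q ∧ a ∉ Dr) →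
    (∀ a ∈ V', ∀ b ∈ V', b ∉ Q → τ' s(a, b) = τ s(a, b)) →
    (∀ B S : Finset α, B ⊆ V' → B ⊆ Q → (w → (B ∩ Dr).card ≤ 1) → B.Nonempty → Cov V' τ' B S →
      3 ≤ S.card) → Con3 V' τ'
  big : ¬ w → 3 ≤ (V \ Q).card
  all : w → (∀ a ∈ V, ∀ b ∈ V, a ≠ b → τ s(a, b) ≠ 2) ∧ ∀ v ∈ V, dg V τ v = 3

/-- A good edge `u v` with the other neighbours `a, b` of `u` and `c, d` of `v`. -/
structure HE (V : Finset α) (τ : Sym2 α → Fin 3) (Q Dr : Finset α) (u v a b c d : α) : Prop where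
  uQ : u ∈ Q
  vQ : v ∈ Q
  uD : u ∉ Dr
  vD : v ∉ Dr
  nu : nb V τ u = {v, a, b}
  nv : nb V τ v = {u, c, d}
  bD : b ∉ Dr
  dD : d ∉ Dr

/-- A set between the four ends. -/
structure Sand (V : Finset α) (τ : Sym2 α → Fin 3) (Q : Finset α) (u v a b c d : α)
    (B : Finset α) : Prop where
  ne : B.Nonempty
  sub : B ⊆ Q
  out : ∀ z ∈ B, z ∉ ({u, v, a, b, c, d} : Finset α)
  cov : Cov V τ B {a, b, c, d}

/-- A new hard edge. -/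
def hd (τ : Sym2 α → Fin 3) (a b : α) : Sym2 α → Fin 3 := Function.update τ s(a, b) 1

/-- The vertices of large degree `C` with the three slots `U`. -/
structure Cr (V : Finset α) (τ : Sym2 α → Fin 3) (C U : Finset α) : Prop where
  sub : C ⊆ V
  subU : U ⊆ V
  dis : ∀ s ∈ U, s ∉ C
  u3 : U.card = 3
  c3 : 3 ≤ C.card
  cov : Cov V τ C U
  deg : ∀ v ∈ C, 5 ≤ dg V τ v
  k4 : ∀ B : Finset α, B ⊆ C → B.Nonempty → B ≠ C → 4 ≤ (bd V τ B).card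
  two : ∀ s ∈ U, 2 ≤ (nb V τ s ∩ C).card

/-- The set `B` is cut off by `u`, `v` and two more vertices. -/
structure Cand (V : Finset α) (τ : Sym2 α → Fin 3) (C : Finset α) (u v : α) (B : Finset α) :
    Prop where
  uC : u ∈ C
  vC : v ∈ C
  adj : v ∈ nb V τ u
  ne : B.Nonempty
  sub : B ⊆ (C.erase u).erase v
  two : (((bd V τ B).erase u).erase v).card ≤ 2

/-- The edge `u v` lies in no such cut. -/
def Free (V : Finset α) (τ : Sym2 α → Fin 3) (C : Finset α) (u v : α) : Prop :=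
  u ∈ C ∧ v ∈ C ∧ v ∈ nb V τ u ∧ ∀ B, ¬ Cand V τ C u v B

/-- The ends of the edge are the only neighbours in `C` of a slot. -/
def Spoil (V : Finset α) (τ : Sym2 α → Fin 3) (C : Finset α) (u v : α) : Prop :=
  ∃ s ∈ nb V τ u, s ∉ C ∧ nb V τ s ∩ C = {u, v}

/-- The closed neighbourhoods are nested and differ by at most one vertex. -/
def Nest (V : Finset α) (τ : Sym2 α → Fin 3) (u v : α) : Prop :=
  insert u (nb V τ u) ⊆ insert v (nb V τ v) ∧ dg V τ v ≤ dg V τ u + 1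

/-- All free edges are nested, with bounded degrees. -/
def AllN (V : Finset α) (τ : Sym2 α → Fin 3) (C : Finset α) : Prop :=
  ∀ u v, Free V τ C u v → (Nest V τ u v ∨ Nest V τ v u) ∧ 6 ≤ dg V τ u ∧ dg V τ u ≤ 12 ∧
    (dg V τ u ≠ dg V τ v → dg V τ u ≤ 9)

/-- A clique joined to two slots, the third slot `p` being joined to `D`. -/
def CluA (V : Finset α) (τ : Sym2 α → Fin 3) (C U : Finset α) : Prop :=
  ∃ p ∈ U, ∃ D : Finset α, D ⊆ C ∧ 2 ≤ D.card ∧ 4 ≤ C.card ∧ C.card ≤ 10 ∧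
    (D ≠ C → 5 ≤ C.card ∧ C.card ≤ 7) ∧ (∀ z ∈ D, nb V τ z = C.erase z ∪ U) ∧
    ∀ z ∈ C, z ∉ D → nb V τ z = C.erase z ∪ U.erase p

/-- A clique without one edge joined to all slots. -/
def CluB (V : Finset α) (τ : Sym2 α → Fin 3) (C U : Finset α) : Prop :=
  ∃ y ∈ C, ∃ p ∈ C, y ≠ p ∧ 5 ≤ C.card ∧ C.card ≤ 7 ∧ nb V τ y = (C.erase y).erase p ∪ U ∧
    nb V τ p = (C.erase y).erase p ∪ U ∧ ∀ z ∈ C, z ≠ y → z ≠ p → nb V τ z = C.erase z ∪ U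

/-- An edge whose contraction tolerates all deletions. -/
def Easy (V : Finset α) (τ : Sym2 α → Fin 3) (C : Finset α) (y p : α) : Prop :=
  y ∈ C ∧ p ∈ C ∧ p ∈ nb V τ y ∧ ¬ Spoil V τ C y p ∧ 6 ≤ C.card ∧
    ∃ A : Finset α, 3 ≤ A.card ∧ A ⊆ nb V τ y ∧ (∀ a ∈ A, a ≠ p ∧ a ∉ nb V τ p) ∧
      ∀ w ∈ nb V τ y, w ∈ nb V τ p → A ⊆ nb V τ w

/-- The types after contracting `u v` and changing the soft edges. -/
structure SfT (V : Finset α) (τ : Sym2 α → Fin 3) (u v : α) (τ' : Sym2 α → Fin 3) : Prop where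
  off : ∀ a b, a ≠ u → b ≠ u → τ' s(a, b) = τ s(a, b)
  on : ∀ w, w ∉ sft V τ u v → τ' s(u, w) = mg τ u v s(u, w)

/-- All edges at vertices of `C` are heavy, except those to cubic vertices of `Q`. -/
def Hv (V : Finset α) (τ : Sym2 α → Fin 3) (Q C : Finset α) : Prop :=
  ∀ u ∈ C, ∀ p ∈ nb V τ u, (p ∈ Q → dg V τ p ≠ 3) → τ s(u, p) = 2

variable [Fintype α]

/-- The signed partition function at `q = 1 + x` with heavy weight `-e`. -/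
noncomputable def F2 (x e : ℝ) (V : Finset α) (τ : Sym2 α → Fin 3) : ℝ :=
  ff x V fun s => wt e (τ s)

/-- All smaller graphs with one of the features are positive. -/
def SmX (x e : ℝ) (V : Finset α) (τ : Sym2 α → Fin 3) : Prop :=
  ∀ (V' : Finset α) (τ' : Sym2 α → Fin 3), Con3 V' τ' → ne V' τ' < ne V τ → NX V' τ' →
    0 < F2 x e V' τ'

end Pool.Agent.Lib.MP_efe3d7_co.H
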