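import Pool.Agent.Lib.MP_efe3d7_co.G.D

/-! Good edges in the cubic case. -/

set_option autoImplicit false

open Finset

namespace Pool.Agent.Lib.MP_efe3d7_co.H

variable {α : Type} [DecidableEq α] {V : Finset α} {τ : Sym2 α → Fin 3}
variable {Q Dr : Finset α} {w : Prop} {u v a b c d : α}

theorem HE.sym (g : HE V τ Q Dr u v a b c d) : HE V τ Q Dr v u c d a b :=
  ⟨g.vQ, g.uQ, g.vD, g.uD, g.nv, g.nu, g.dD, g.bD⟩

/-- The six vertices lie in `Q` and are different. -/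
theorem HE.six (h : Cub V τ Q Dr w) (g : HE V τ Q Dr u v a b c d) :
    (a ∈ Q ∧ b ∈ Q ∧ c ∈ Q ∧ d ∈ Q) ∧ (u ≠ v ∧ u ≠ a ∧ u ≠ b ∧ u ≠ c ∧ u ≠ d) ∧
      (v ≠ a ∧ v ≠ b ∧ v ≠ c ∧ v ≠ d) ∧ (a ≠ b ∧ a ≠ c ∧ a ≠ d ∧ b ≠ c ∧ b ≠ d ∧ c ≠ d) := by
  have m : ∀ {p x y z : α}, nb V τ p = {x, y, z} → x ∈ nb V τ p ∧ y ∈ nb V τ p ∧ z ∈ nb V τ p :=
    fun e => by simp [e]
  have n : ∀ {p x : α}, x ∈ nb V τ p → p ≠ x := fun k => (mem_nb.1 k).2.1.symm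
  obtain ⟨hv, ha, hb⟩ := m g.nu
  obtain ⟨-, hc, hd⟩ := m g.nv
  have iu := h.inn u g.uQ g.uD
  have iv := h.inn v g.vQ g.vD
  have c1 := card_triple_eq_three_iff.1 ((congrArg card g.nu).symm.trans (h.cub u g.uQ))
  have c2 := card_triple_eq_three_iff.1 ((congrArg card g.nv).symm.trans (h.cub v g.vQ))
  have t : ∀ {x y : α}, x ∈ nb V τ u → y ∈ nb V τ v → x ≠ y := fun hx hy e =>
    h.tri u g.uQ v hv _ hx g.vQ (iu hx) (e ▸ hy)
  exact ⟨⟨iu ha, iu hb, iv hc, iv hd⟩, ⟨n hv, n ha, n hb, c2.1, c2.2.1⟩,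
    ⟨c1.1, c1.2.1, n hc, n hd⟩, c1.2.2, t ha hc, t ha hd, t hb hc, t hb hd, c2.2.2⟩

/-- The four ends are not adjacent. -/
theorem HE.ind (h : Cub V τ Q Dr w) (g : HE V τ Q Dr u v a b c d) :
    τ s(a, b) = 0 ∧ τ s(a, c) = 0 ∧ τ s(a, d) = 0 ∧ τ s(b, c) = 0 ∧ τ s(b, d) = 0 ∧
      τ s(c, d) = 0 := by
  obtain ⟨⟨aQ, bQ, cQ, dQ⟩, ⟨-, -, -, uc, ud⟩, ⟨va, vb, -⟩, ab, ac, ad, bc, bd, cd⟩ := g.six h
  have t : ∀ {p x y : α}, p ∈ Q → x ∈ Q → y ∈ Q → x ∈ nb V τ p → y ∈ nb V τ p → x ≠ y →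
      τ s(x, y) = 0 := fun hp hx hy k1 k2 n => by_contra fun e =>
    h.tri _ hp _ k1 _ k2 hx hy (mem_nb.2 ⟨h.sub hy, n.symm, e⟩)
  have q : ∀ {x y : α}, x ∈ Q → y ∈ Q → x ∈ nb V τ u → y ∈ nb V τ v → x ≠ y → u ≠ y → v ≠ x →
      τ s(x, y) = 0 := fun hx hy k1 k2 n n1 n2 => by_contra fun e =>
    n2 (h.c4 u g.uQ _ hy n1 _ k1 v (by simp [g.nu]) hx g.vQ
      (nb_symm (h.sub hx) (mem_nb.2 ⟨h.sub hy, n.symm, e⟩)) (nb_symm (h.sub g.vQ) k2))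
  have ha : a ∈ nb V τ u := by simp [g.nu]
  have hb : b ∈ nb V τ u := by simp [g.nu]
  have hc : c ∈ nb V τ v := by simp [g.nv]
  have hd : d ∈ nb V τ v := by simp [g.nv]
  exact ⟨t g.uQ aQ bQ ha hb ab, q aQ cQ ha hc ac uc va, q aQ dQ ha hd ad ud va,
    q bQ cQ hb hc bc uc vb, q bQ dQ hb hd bd ud vb, t g.vQ cQ dQ hc hd cd⟩

theorem h1_two (h : Cub V τ Q Dr w) (hu : u ∈ Q) (huv : v ∈ nb V τ u)
    (h1 : (nb V τ u ∩ Dr).card ≤ 1) : ∃ a b, nb V τ u = {v, a, b} ∧ b ∉ Dr := by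
  obtain ⟨a, b, ab, e⟩ := card_eq_two.1
    (show ((nb V τ u).erase v).card = 2 by rw [card_erase_of_mem huv, ← dg, h.cub u hu])
  have e' : nb V τ u = {v, a, b} := by rw [← e, insert_erase huv]
  by_cases k : b ∈ Dr
  · exact ⟨b, a, by rw [e', pair_comm], fun k' => ab (card_le_one.1 h1 a (by simp [e', k']) b
      (by simp [e', k]))⟩
  · exact ⟨a, b, e', k⟩

/-- An edge whose ends have at most one door as a neighbour is good. -/
theorem Cub.he_of (h : Cub V τ Q Dr w) (hu : u ∈ Q) (hv : v ∈ Q) (uD : u ∉ Dr) (vD : v ∉ Dr)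
    (huv : v ∈ nb V τ u) (h1 : (nb V τ u ∩ Dr).card ≤ 1) (h2 : (nb V τ v ∩ Dr).card ≤ 1) :
    ∃ a b c d, HE V τ Q Dr u v a b c d := by
  obtain ⟨a, b, e1, k1⟩ := h1_two h hu huv h1
  obtain ⟨c, d, e2, k2⟩ := h1_two h hv (nb_symm (h.sub hu) huv) h2
  exact ⟨a, b, c, d, hu, hv, uD, vD, e1, e2, k1, k2⟩

theorem Cub.exists_he (h : Cub V τ Q Dr w) : ∃ u v a b c d, HE V τ Q Dr u v a b c d := by
  by_contra no
  have share : ∀ x y, 1 < (nb V τ x ∩ Dr).card → 1 < (nb V τ y ∩ Dr).card →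
      ∃ z ∈ Dr, z ∈ nb V τ x ∧ z ∈ nb V τ y := fun x y hx hy => by
    obtain ⟨z, hz⟩ := inter_nonempty_of_card_lt_card_add_card (s := Dr) (t := nb V τ x ∩ Dr)
      (u := nb V τ y ∩ Dr) inter_subset_right inter_subset_right (by have := h.d3; omega)
    simp only [mem_inter] at hz
    exact ⟨z, hz.1.2, hz.1.1, hz.2.1⟩
  by_cases all : ∀ y ∈ Q \ Dr, 1 < (nb V τ y ∩ Dr).card
  · have e : ∀ x ∈ Q \ Dr, nb V τ x = Dr := fun x hx => by
      have hx' := mem_sdiff.1 hx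
      refine eq_of_subset_of_card_le (fun y hy => by_contra fun k => ?_)
        (h.d3.trans (h.cub x hx'.1).symm).le
      have yQ := h.inn x hx'.1 hx'.2 hy
      obtain ⟨z, z1, z2, z3⟩ := share x y (all x hx) (all y (mem_sdiff.2 ⟨yQ, k⟩))
      exact h.tri x hx'.1 y hy z z2 yQ (h.dsub z1) z3
    obtain ⟨x, hx, y, hy, n⟩ := one_lt_card.1 (show 1 < (Q \ Dr).card by have := h.q0; omega)
    obtain ⟨p, hp, q, hq, n'⟩ := one_lt_card.1 (show 1 < Dr.card by have := h.d3; omega)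
    exact n' (h.c4 x (mem_sdiff.1 hx).1 y (mem_sdiff.1 hy).1 n q (e x hx ▸ hq) p (e x hx ▸ hp)
      (h.dsub hq) (h.dsub hp) (e y hy ▸ hq) (e y hy ▸ hp))
  · simp only [not_forall, not_lt, mem_sdiff] at all
    obtain ⟨y, ⟨yQ, yD⟩, hy⟩ := all
    have bad : ∀ x ∈ nb V τ y \ Dr, 1 < (nb V τ x ∩ Dr).card := fun x hx => not_le.1 fun k =>
      no ⟨y, x, h.he_of yQ (h.inn y yQ yD (mem_sdiff.1 hx).1) yD (mem_sdiff.1 hx).2
        (mem_sdiff.1 hx).1 hy k⟩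
    obtain ⟨x, hx, x', hx', n⟩ := one_lt_card.1 (show 1 < (nb V τ y \ Dr).card by
      have := card_sdiff_add_card_inter (nb V τ y) Dr
      have : (nb V τ y).card = 3 := h.cub y yQ
      omega)
    obtain ⟨z, z1, z2, z3⟩ := share x x' (bad x hx) (bad x' hx')
    have k := (mem_sdiff.1 hx).1
    have k' := (mem_sdiff.1 hx').1
    exact yD (h.c4 x (h.inn y yQ yD k) x' (h.inn y yQ yD k') n z z2 y (nb_symm (h.sub yQ) k)
      (h.dsub z1) yQ z3 (nb_symm (h.sub yQ) k') ▸ z1)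

theorem HE.nine (h : Cub V τ Q Dr w) (g : HE V τ Q Dr u v a b c d) : 9 ≤ Q.card := by
  obtain ⟨⟨aQ, bQ, cQ, dQ⟩, ⟨uv, ua, ub, uc, ud⟩, ⟨va, vb, vc, vd⟩, ab, ac, ad, bc, bd, cd⟩ :=
    g.six h
  obtain ⟨i1, i2, i3, i4, i5, -⟩ := g.ind h
  have au : u ∈ nb V τ a := nb_symm (h.sub g.uQ) (by simp [g.nu])
  have bu : u ∈ nb V τ b := nb_symm (h.sub g.uQ) (by simp [g.nu])
  have ib := h.inn b bQ g.bD
  obtain ⟨p, hp, pu⟩ := exists_mem_ne (show 1 < (nb V τ a ∩ Q).card by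
    by_cases k : a ∈ Dr
    · rw [h.dout a k]; omega
    · rw [inter_eq_left.2 (h.inn a aQ k), ← dg, h.cub a aQ]; omega) u
  rw [mem_inter] at hp
  have pb : p ∉ (nb V τ b).erase u := fun k =>
    pu (h.c4 a aQ b bQ ab u au p hp.1 g.uQ hp.2 bu (mem_of_mem_erase k))
  have nv : ∀ x ∈ Q, v ∈ nb V τ x → x = u ∨ x = c ∨ x = d := fun x hx k => by
    simpa [g.nv] using nb_symm (h.sub hx) k
  have dis : Disjoint ({u, v, a, b, c, d} : Finset α) (insert p ((nb V τ b).erase u)) := by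
    refine disjoint_right.2 fun z hz k => ?_
    simp only [mem_insert, mem_singleton, mem_erase] at hz k
    rcases hz with rfl | ⟨zu, hz⟩
    · have := nv a aQ
      have := mem_nb.1 hp.1
      grind
    · have := nv b bQ
      have := mem_nb.1 hz
      rw [Sym2.eq_swap] at i1
      grind
  have e := card_le_card (show ({u, v, a, b, c, d} : Finset α) ∪ insert p ((nb V τ b).erase u) ⊆ Q
    from union_subset (by simp [insert_subset_iff, g.uQ, g.vQ, aQ, bQ, cQ, dQ])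
      (insert_subset hp.2 ((erase_subset _ _).trans ib)))
  rw [card_union_of_disjoint dis, card_insert_of_notMem pb, card_erase_of_mem bu, ← dg,
    h.cub b bQ] at e
  simpa [uv, ua, ub, uc, ud, va, vb, vc, vd, ab, ac, ad, bc, bd, cd] using e

end Pool.Agent.Lib.MP_efe3d7_co.H
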