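import Pool.Agent.Lib.MP_efe3d7_co.G.H1

/-! The first two graphs of the identity. -/

set_option autoImplicit false

open Finset

namespace Pool.Agent.Lib.MP_efe3d7_co.H

variable {α : Type} [DecidableEq α] {V : Finset α} {τ : Sym2 α → Fin 3}
variable {Q Dr : Finset α} {w : Prop} {u v a b c d : α}

theorem h2_par (t : Fin 3) : par t 0 = t := by
  revert t; decide

theorem HE.g1 (h : Cub V τ Q Dr w) (g : HE V τ Q Dr u v a b c d) :
    Con3 (V.erase v) (mg τ u v) := by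
  have uV := h.sub g.uQ
  have vV := h.sub g.vQ
  refine h.safe _ _ (erase_subset _ _) (fun x hx k => ?_) (fun x hx y hy k => ?_)
    fun B S hB hQ hw hne hc => ?_
  · obtain rfl : x = v := by simpa [hx] using k
    exact ⟨g.vQ, g.vD⟩
  · by_cases e : x = u
    · have h0 : τ s(v, y) = 0 := by
        by_contra h0
        exact k (h.inn v g.vQ g.vD (mem_nb.2 ⟨(mem_erase.1 hy).2, (mem_erase.1 hy).1, h0⟩))
      rw [e, mg_self, h0, h2_par]
    · exact mg_of_ne τ v e fun e' => k (e' ▸ g.uQ)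
  by_contra k
  have hv : ∀ x ∈ B, x ≠ v := fun x hx => (mem_erase.1 (hB hx)).1
  have k1 : ∀ x ∈ B, x ≠ u → ∀ y ∈ nb V τ x, y ≠ v → y ∈ B ∨ y ∈ S := fun x hx e y hy e' =>
    hc x hx y ((mem_nb_mg e (hv x hx) uV vV).2 ⟨e', Or.inl hy⟩)
  by_cases hu : u ∈ B
  · refine k (h.a1 (insert v B) S (insert_subset g.vQ hQ)
      (fun e => by rw [insert_inter_of_notMem g.vD]; exact hw e) (insert_nonempty _ _)
      fun x hx y hy => ?_)
    by_cases e : y = v
    · exact Or.inl (e ▸ mem_insert_self _ _)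
    by_cases e' : y = u
    · exact Or.inl (mem_insert_of_mem (e' ▸ hu))
    refine Or.imp_left mem_insert_of_mem ?_
    rcases mem_insert.1 hx with rfl | hx
    · exact hc u hu y (mem_nb_mg_self.2 ⟨e', e, Or.inr hy⟩)
    by_cases e'' : x = u
    · exact hc u hu y (mem_nb_mg_self.2 ⟨e', e, Or.inl (e'' ▸ hy)⟩)
    · exact k1 x hx e'' y hy e
  have hu' : ∀ x ∈ B, x ≠ u := fun x hx e => hu (e ▸ hx)
  by_cases hs : u ∈ S
  · have hc' : Cov V τ B (insert v S) := fun x hx y hy => by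
      by_cases e : y = v
      · exact Or.inr (e ▸ mem_insert_self _ _)
      · exact (k1 x hx (hu' x hx) y hy e).imp_right mem_insert_of_mem
    have h3 : (insert v S).card ≤ 3 := (card_insert_le _ _).trans (by omega)
    by_cases h2 : 2 ≤ B.card
    · exact hu (h.a2 B _ hQ hw h2 hc' h3 (mem_sdiff.2 ⟨g.uQ, g.uD⟩))
    obtain ⟨y, rfl⟩ := card_eq_one.1 (le_antisymm (by omega) (card_pos.2 hne) : B.card = 1)
    have yQ := hQ (mem_singleton_self y)
    have e : nb V τ y = insert v S := eq_of_subset_of_card_le (fun z hz =>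
      (hc' y (mem_singleton_self y) z hz).resolve_left fun e =>
        not_mem_nb y (mem_singleton.1 e ▸ hz)) (h3.trans (h.cub y yQ).ge)
    exact h.tri y yQ u (e ▸ mem_insert_of_mem hs) v (e ▸ mem_insert_self _ _) g.uQ g.vQ
      (g.nu ▸ mem_insert_self _ _)
  · refine k (h.a1 B S hQ hw hne fun x hx y hy => ?_)
    by_cases e : y = v
    · exact ((hc x hx u ((mem_nb_mg (hu' x hx) (hv x hx) uV vV).2
        ⟨(g.six h).2.1.1, Or.inr ⟨rfl, e ▸ hy⟩⟩)).elim hu hs).elim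
    · exact k1 x hx (hu' x hx) y hy e

theorem h2_one (h : Cub V τ Q Dr w) (g : HE V τ Q Dr u v a b c d) {B S : Finset α} (hQ : B ⊆ Q)
    (hw : w → (B ∩ Dr).card ≤ 1) (hne : B.Nonempty) (hS : S.card ≤ 2) (hu : u ∉ B) (hv : v ∉ B)
    (k : ∀ x ∈ B, ∀ y ∈ nb V τ x, y ≠ u → y ≠ v → y ∈ B ∨ y ∈ S) (ha : a ∈ B ∨ a ∈ S)
    (hb : b ∈ B ∨ b ∈ S) : False := by
  have h1 := h.a2 (insert u B) (insert v S) (insert_subset g.uQ hQ)
    (fun e => by rw [insert_inter_of_notMem g.uD]; exact hw e)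
    (by rw [card_insert_of_notMem hu]; exact Nat.succ_le_succ (card_pos.2 hne))
    (fun x hx y hy => ?_) ((card_insert_le _ _).trans (by omega)) (mem_sdiff.2 ⟨g.vQ, g.vD⟩)
  · exact (mem_insert.1 h1).elim (g.six h).2.1.1.symm hv
  by_cases e : y = u
  · exact Or.inl (e ▸ mem_insert_self _ _)
  by_cases e' : y = v
  · exact Or.inr (e' ▸ mem_insert_self _ _)
  refine Or.imp mem_insert_of_mem mem_insert_of_mem (?_ : y ∈ B ∨ y ∈ S)
  rcases mem_insert.1 hx with rfl | hx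
  · rw [g.nu, mem_insert, mem_insert, mem_singleton] at hy
    rcases hy with rfl | rfl | rfl
    exacts [(e' rfl).elim, ha, hb]
  · exact k x hx y hy e e'

theorem h2_hd {x y : α} (p q : α) (h : τ s(x, y) ≠ 0) : hd τ p q s(x, y) ≠ 0 := by
  rw [hd, Function.update_apply]
  split_ifs
  exacts [by decide, h]

theorem h2_self (p q : α) : hd τ p q s(p, q) ≠ 0 := by
  rw [hd, Function.update_self]
  decide

theorem HE.g2 (h : Cub V τ Q Dr w) (g : HE V τ Q Dr u v a b c d) :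
    Con3 ((V.erase u).erase v) (hd (hd τ a b) c d) := by
  obtain ⟨⟨aQ, bQ, cQ, dQ⟩, ⟨-, ua, ub, uc, ud⟩, ⟨va, vb, vc, vd⟩, ab, -, -, -, -, cd⟩ := g.six h
  have mem : ∀ y ∈ V, y ≠ u → y ≠ v → y ∈ (V.erase u).erase v := fun y hy e e' =>
    mem_erase.2 ⟨e', mem_erase.2 ⟨e, hy⟩⟩
  refine h.safe _ _ ((erase_subset _ _).trans (erase_subset _ _)) (fun x hx k => ?_)
    (fun x _ y _ k => ?_) fun B S hB hQ hw hne hc => ?_
  · by_cases e : x = u
    · exact e ▸ ⟨g.uQ, g.uD⟩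
    by_cases e' : x = v
    · exact e' ▸ ⟨g.vQ, g.vD⟩
    · exact (k (mem x hx e e')).elim
  · have : ∀ p ∈ Q, ∀ q ∈ Q, s(x, y) ≠ s(p, q) := fun p hp q hq e =>
      (Sym2.eq_iff.1 e).elim (fun e => k (e.2 ▸ hq)) fun e => k (e.2 ▸ hp)
    rw [hd, Function.update_of_ne (this c cQ d dQ), hd, Function.update_of_ne (this a aQ b bQ)]
  by_contra k
  have hS : S.card ≤ 2 := by omega
  have hu : u ∉ B := fun e => (mem_erase.1 (mem_erase.1 (hB e)).2).1 rfl
  have hv : v ∉ B := fun e => (mem_erase.1 (hB e)).1 rfl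
  have k0 : ∀ x ∈ B, ∀ y ∈ nb V τ x, y ≠ u → y ≠ v → y ∈ B ∨ y ∈ S := fun x hx y hy e e' =>
    hc x hx y (mem_nb.2 ⟨mem y (nb_sub _ hy) e e', (mem_nb.1 hy).2.1,
      h2_hd _ _ (h2_hd _ _ (mem_nb.1 hy).2.2)⟩)
  have ha : a ∉ B := fun e => h2_one h g hQ hw hne hS hu hv k0 (Or.inl e) (hc a e b
    (mem_nb.2 ⟨mem b (h.sub bQ) ub.symm vb.symm, ab.symm, h2_hd _ _ (h2_self _ _)⟩))
  have hb : b ∉ B := fun e => h2_one h g hQ hw hne hS hu hv k0 (hc b e a
    (mem_nb.2 ⟨mem a (h.sub aQ) ua.symm va.symm, ab,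
      h2_hd _ _ (Sym2.eq_swap (a := a) ▸ h2_self _ _)⟩)) (Or.inl e)
  have hc1 : c ∉ B := fun e => h2_one h g.sym hQ hw hne hS hv hu
    (fun x hx y hy e e' => k0 x hx y hy e' e) (Or.inl e) (hc c e d
      (mem_nb.2 ⟨mem d (h.sub dQ) ud.symm vd.symm, cd.symm, h2_self _ _⟩))
  have hd1 : d ∉ B := fun e => h2_one h g.sym hQ hw hne hS hv hu
    (fun x hx y hy e e' => k0 x hx y hy e' e) (hc d e c
      (mem_nb.2 ⟨mem c (h.sub cQ) uc.symm vc.symm, cd, Sym2.eq_swap (a := c) ▸ h2_self _ _⟩))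
    (Or.inl e)
  refine k (h.a1 B S hQ hw hne fun x hx y hy => k0 x hx y hy ?_ ?_)
  · rintro rfl
    have := nb_symm (h.sub (hQ hx)) hy
    rw [g.nu, mem_insert, mem_insert, mem_singleton] at this
    rcases this with rfl | rfl | rfl
    exacts [hv hx, ha hx, hb hx]
  · rintro rfl
    have := nb_symm (h.sub (hQ hx)) hy
    rw [g.nv, mem_insert, mem_insert, mem_singleton] at this
    rcases this with rfl | rfl | rfl
    exacts [hu hx, hc1 hx, hd1 hx]

end Pool.Agent.Lib.MP_efe3d7_co.H
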