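import Pool.Agent.Lib.MP_efe3d7_co.G.H1

/-! One merge. -/

set_option autoImplicit false

open Finset

namespace Pool.Agent.Lib.MP_efe3d7_co.H

variable {α : Type} [DecidableEq α] {V : Finset α} {τ : Sym2 α → Fin 3}
variable {Q Dr : Finset α} {w : Prop} {u v a b c d : α}

theorem h3_nb {x y : α} (hy : y ∈ nb V τ x) (h1 : y ≠ u) (h2 : y ≠ v) :
    y ∈ nb ((V.erase u).erase v) (hd τ c d) x := by
  obtain ⟨k1, k2, k3⟩ := mem_nb.1 hy
  refine mem_nb_upd.2 ⟨by simp [*], k2, ?_⟩
  split_ifs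
  · decide
  · exact k3

theorem h3_far (h : Cub V τ Q Dr w) (g : HE V τ Q Dr u v a b c d) {x y : α} (hy : y ∈ V)
    (hQ : y ∉ Q) : mg (hd τ c d) a b s(x, y) = τ s(x, y) := by
  obtain ⟨⟨aQ, bQ, cQ, dQ⟩, -⟩ := g.six h
  have e (z : α) : hd τ c d s(z, y) = τ s(z, y) := Function.update_of_ne (fun e => by
    rcases Sym2.eq_iff.1 e with ⟨-, e⟩ | ⟨-, e⟩ <;> exact hQ (e ▸ ‹_›)) _ _
  by_cases hx : x = a
  · have : τ s(b, y) = 0 := by
      by_contra k
      exact hQ (h.inn b bQ g.bD (mem_nb.2 ⟨hy, fun e => hQ (e ▸ bQ), k⟩))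
    rw [hx, mg_self, e, e, this]
    generalize τ s(a, y) = t
    revert t
    decide
  · rw [mg_of_ne _ _ hx fun e : y = a => hQ (e ▸ aQ), e]

theorem HE.g3 (h : Cub V τ Q Dr w) (g : HE V τ Q Dr u v a b c d) :
    Con3 (((V.erase u).erase v).erase b) (mg (hd τ c d) a b) := by
  obtain ⟨⟨aQ, bQ, cQ, dQ⟩, ⟨uv, ua, ub, uc, ud⟩, ⟨va, vb, vc, vd⟩, ab, ac, ad, bc, bd', cd⟩ :=
    g.six h
  have V2 {z : α} (hz : z ∈ Q) (h1 : u ≠ z) (h2 : v ≠ z) : z ∈ (V.erase u).erase v := by
    simp [h.sub hz, h1.symm, h2.symm]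
  refine h.safe _ _ (fun z hz => by simp_all) (fun z hz k => ?_)
    (fun x _ y hy hQ => h3_far h g (by simp_all) hQ) fun B S hB hQ hw hne hc => ?_
  · have : z = u ∨ z = v ∨ z = b := by
      by_contra k'
      exact k (by simp_all)
    rcases this with rfl | rfl | rfl
    exacts [⟨g.uQ, g.uD⟩, ⟨g.vQ, g.vD⟩, ⟨bQ, g.bD⟩]
  by_contra hS
  have uB : u ∉ B := fun k => by simpa using hB k
  have vB : v ∉ B := fun k => by simpa using hB k
  have bB : b ∉ B := fun k => by simpa using hB k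
  have K0 {x y : α} (hx : x ∈ B) (xa : x ≠ a) (yb : y ≠ b)
      (k : y ∈ nb ((V.erase u).erase v) (hd τ c d) x ∨
        y = a ∧ b ∈ nb ((V.erase u).erase v) (hd τ c d) x) : y ∈ B ∨ y ∈ S :=
    hc x hx y ((mem_nb_mg xa (fun e : x = b => bB (e ▸ hx)) (V2 aQ ua va) (V2 bQ ub vb)).2 ⟨yb, k⟩)
  have K1 {x y : α} (hx : x ∈ B) (hy : y ∈ nb V τ x) : y = u ∨ y = v ∨ y = b ∨ y ∈ B ∨ y ∈ S := by
    by_contra k
    simp only [not_or] at k
    obtain ⟨k1, k2, k3, k4, k5⟩ := k
    by_cases xa : x = a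
    · subst xa
      exact (hc x hx y (mem_nb_mg_self.2 ⟨(mem_nb.1 hy).2.1, k3, .inl (h3_nb hy k1 k2)⟩)).elim k4 k5
    · exact (K0 hx xa k3 (.inl (h3_nb hy k1 k2))).elim k4 k5
  have K2 {x : α} (hx : x ∈ B) (hy : b ∈ nb V τ x) : a ∈ B ∨ a ∈ S := by
    by_cases xa : x = a
    · exact .inl (xa ▸ hx)
    · exact K0 hx xa ab (.inr ⟨rfl, h3_nb hy ub.symm vb.symm⟩)
  have K3 (ha : a ∈ B) {y : α} (hy : y ∈ nb V τ b) : y = u ∨ y = v ∨ y ∈ B ∨ y ∈ S := by
    by_contra k
    simp only [not_or] at k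
    obtain ⟨k1, k2, k4, k5⟩ := k
    exact (hc a ha y (mem_nb_mg_self.2 ⟨fun e => k4 (e ▸ ha), (mem_nb.1 hy).2.1,
      .inr (h3_nb hy k1 k2)⟩)).elim k4 k5
  have K4 (k : c ∈ B ∨ d ∈ B) : (c ∈ B ∨ c ∈ S) ∧ (d ∈ B ∨ d ∈ S) := by
    rcases k with k | k
    · exact ⟨.inl k, K0 k ac.symm bd'.symm (.inl (mem_nb_upd.2 ⟨V2 dQ ud vd, cd.symm, by simp⟩))⟩
    · exact ⟨K0 k ad.symm bc.symm (.inl (mem_nb_upd.2 ⟨V2 cQ uc vc, cd, by simp [Sym2.eq_swap]⟩)),
        .inl k⟩
  have Ku {x : α} (hx : x ∈ B) (k : u ∈ nb V τ x) : a ∈ B := by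
    have := nb_symm (h.sub (hQ hx)) k
    simp only [g.nu, mem_insert, mem_singleton] at this
    rcases this with rfl | rfl | rfl
    exacts [(vB hx).elim, hx, (bB hx).elim]
  have Kv {x : α} (hx : x ∈ B) (k : v ∈ nb V τ x) : c ∈ B ∨ d ∈ B := by
    have := nb_symm (h.sub (hQ hx)) k
    simp only [g.nv, mem_insert, mem_singleton] at this
    rcases this with rfl | rfl | rfl
    exacts [(uB hx).elim, .inl hx, .inr hx]
  have c3 (z : α) : (insert z S).card ≤ 3 := (card_insert_le _ _).trans (by omega)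
  have c2 {z : α} (hz : z ∉ B) : 2 ≤ (insert z B).card := by
    rw [card_insert_of_notMem hz]
    exact Nat.succ_le_succ hne.card_pos
  have nu := g.nu
  have nv := g.nv
  by_cases aB : a ∈ B
  · have := h.a2 (insert b (insert u B)) (insert v S) (insert_subset bQ (insert_subset g.uQ hQ))
      (by rwa [insert_inter_of_notMem g.bD, insert_inter_of_notMem g.uD])
      ((c2 uB).trans (card_le_card (subset_insert _ _))) (fun x hx y hy => by
        simp only [mem_insert] at hx ⊢
        rcases hx with rfl | rfl | hx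
        · rcases K3 aB hy with k | k | k | k <;> simp only [k, true_or, or_true]
        · simp only [nu, mem_insert, mem_singleton] at hy
          rcases hy with e | e | e <;> simp only [e, aB, true_or, or_true]
        · rcases K1 hx hy with k | k | k | k | k <;> simp only [k, true_or, or_true])
      (c3 v) (mem_sdiff.2 ⟨g.vQ, g.vD⟩)
    simp [uv.symm, vb, vB] at this
  by_cases aS : a ∈ S
  · by_cases k : c ∈ B ∨ d ∈ B
    · have := h.a2 (insert u (insert v B)) (insert b S) (insert_subset g.uQ (insert_subset g.vQ hQ))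
        (by rwa [insert_inter_of_notMem g.uD, insert_inter_of_notMem g.vD])
        ((c2 vB).trans (card_le_card (subset_insert _ _))) (fun x hx y hy => by
          simp only [mem_insert] at hx ⊢
          rcases hx with rfl | rfl | hx
          · simp only [nu, mem_insert, mem_singleton] at hy
            rcases hy with e | e | e <;> simp only [e, aS, true_or, or_true]
          · simp only [nv, mem_insert, mem_singleton] at hy
            obtain ⟨k1 | k1, k2 | k2⟩ := K4 k <;> rcases hy with e | e | e <;>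
              simp only [e, k1, k2, true_or, or_true]
          · rcases K1 hx hy with k | k | k | k | k <;> simp only [k, true_or, or_true])
        (c3 b) (mem_sdiff.2 ⟨bQ, g.bD⟩)
      simp [ub.symm, vb.symm, bB] at this
    · have cov : Cov V τ B (insert b S) := fun x hx y hy => by
        rcases K1 hx hy with rfl | rfl | rfl | k' | k'
        exacts [(aB (Ku hx hy)).elim, (k (Kv hx hy)).elim, by simp, .inl k', by simp [k']]
      by_cases h2 : 2 ≤ B.card
      · exact uB (h.a2 B _ hQ hw h2 cov (c3 b) (mem_sdiff.2 ⟨g.uQ, g.uD⟩))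
      obtain ⟨y, rfl⟩ := card_eq_one.1 (show B.card = 1 by have := hne.card_pos; omega)
      have yQ := hQ (mem_singleton_self y)
      have e : nb V τ y = insert b S := eq_of_subset_of_card_le (fun z hz =>
        (cov y (mem_singleton_self y) z hz).resolve_left fun k' =>
          (mem_nb.1 hz).2.1 (mem_singleton.1 k')) ((c3 b).trans (h.cub y yQ).ge)
      have uV := h.sub g.uQ
      exact uB (mem_singleton.2 (h.c4 a aQ b bQ ab u (nb_symm uV (by simp [nu])) y
        (nb_symm (h.sub yQ) (by simp [e, aS])) g.uQ yQ (nb_symm uV (by simp [nu]))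
        (nb_symm (h.sub yQ) (by simp [e]))).symm)
  by_cases k : c ∈ B ∨ d ∈ B
  · have := h.a2 (insert v B) (insert u S) (insert_subset g.vQ hQ)
      (by rwa [insert_inter_of_notMem g.vD]) (c2 vB) (fun x hx y hy => by
        simp only [mem_insert] at hx ⊢
        rcases hx with rfl | hx
        · simp only [nv, mem_insert, mem_singleton] at hy
          obtain ⟨k1 | k1, k2 | k2⟩ := K4 k <;> rcases hy with e | e | e <;>
            simp only [e, k1, k2, true_or, or_true]
        · rcases K1 hx hy with rfl | rfl | rfl | k' | k'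
          exacts [by simp, by simp, ((K2 hx hy).elim aB aS).elim, by simp [k'], by simp [k']])
      (c3 u) (mem_sdiff.2 ⟨g.uQ, g.uD⟩)
    simp [uv, uB] at this
  · refine hS (h.a1 B S hQ hw hne fun x hx y hy => ?_)
    rcases K1 hx hy with rfl | rfl | rfl | k'
    exacts [(aB (Ku hx hy)).elim, (k (Kv hx hy)).elim, ((K2 hx hy).elim aB aS).elim, k']

end Pool.Agent.Lib.MP_efe3d7_co.H
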