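import Pool.Agent.Lib.MP_efe3d7_co.G.H1

/-! Two merges. -/

set_option autoImplicit false

open Finset

namespace Pool.Agent.Lib.MP_efe3d7_co.H

variable {α : Type} [DecidableEq α] {V : Finset α} {τ : Sym2 α → Fin 3}
variable {Q Dr : Finset α} {w : Prop} {u v a b c d : α}

theorem h4_mono (τ : Sym2 α → Fin 3) (a b : α) {e : Sym2 α} (h : τ e ≠ 0) : mg τ a b e ≠ 0 := by
  unfold mg
  split_ifs
  · exact par_ne_zero.2 (Or.inl h)
  · exact h

theorem h4_par (t : Fin 3) : par t 0 = t := by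
  revert t; decide

theorem h4_adm {B : Finset α} (hB : w → (B ∩ Dr).card ≤ 1) (hu : u ∉ Dr) :
    w → (insert u B ∩ Dr).card ≤ 1 := fun k => by
  rw [insert_inter_of_notMem hu]; exact hB k

/-- What a separation of the graph with two merges means in the old graph. -/
structure H4Sep (V : Finset α) (τ : Sym2 α → Fin 3) (Q Dr : Finset α) (w : Prop)
    (u v a b c d : α) (B S : Finset α) : Prop where
  sub : B ⊆ Q
  adm : w → (B ∩ Dr).card ≤ 1
  ne : B.Nonempty
  two : S.card ≤ 2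
  nu : u ∉ B
  nv : v ∉ B
  nb' : b ∉ B
  nd : d ∉ B
  k1 : ∀ x ∈ B, ∀ y ∈ nb V τ x, y ∈ B ∨ y ∈ S ∨ (y = u ∧ a ∈ B) ∨ (y = v ∧ c ∈ B) ∨
    (y = b ∧ (a ∈ B ∨ a ∈ S)) ∨ (y = d ∧ (c ∈ B ∨ c ∈ S))
  k2 : a ∈ B → ∀ y ∈ nb V τ b, y = u ∨ y ∈ B ∨ y ∈ S
  k3 : c ∈ B → ∀ y ∈ nb V τ d, y = v ∨ y ∈ B ∨ y ∈ S

theorem H4Sep.sym {B S : Finset α} (s : H4Sep V τ Q Dr w u v a b c d B S) :
    H4Sep V τ Q Dr w v u c d a b B S :=
  ⟨s.sub, s.adm, s.ne, s.two, s.nv, s.nu, s.nd, s.nb',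
    fun x hx y hy => by have := s.k1 x hx y hy; tauto, s.k3, s.k2⟩

theorem h4_one (h : Cub V τ Q Dr w) (g : HE V τ Q Dr u v a b c d) {B S : Finset α}
    (s : H4Sep V τ Q Dr w u v a b c d B S) (ha : a ∈ B) (hc : c ∉ B) : False := by
  obtain ⟨⟨aQ, bQ, cQ, dQ⟩, ⟨uv, ua, ub, uc, ud⟩, ⟨va, vb, vc, vd⟩, ab, ac, ad, bc, bd', cd⟩ :=
    g.six h
  have two := s.two
  have c2 : 2 ≤ (insert u (insert b B)).card :=
    one_lt_card.2 ⟨u, by simp, b, by simp, ub⟩
  by_cases hS : c ∈ S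
  · have := h.a2 (insert v (insert u (insert b B))) (insert d S)
      (insert_subset g.vQ (insert_subset g.uQ (insert_subset bQ s.sub)))
      (h4_adm (h4_adm (h4_adm s.adm g.bD) g.uD) g.vD)
      (c2.trans (card_le_card (subset_insert _ _))) ?_
      ((card_insert_le _ _).trans (by omega)) (mem_sdiff.2 ⟨dQ, g.dD⟩)
    · simp [s.nd, vd.symm, ud.symm, bd'.symm] at this
    · intro x hx y hy
      simp only [mem_insert] at hx ⊢
      rcases hx with rfl | rfl | rfl | hx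
      · rw [g.nv] at hy
        simp only [mem_insert, mem_singleton] at hy
        rcases hy with rfl | rfl | rfl <;> tauto
      · rw [g.nu] at hy
        simp only [mem_insert, mem_singleton] at hy
        rcases hy with rfl | rfl | rfl <;> tauto
      · have := s.k2 ha y hy; tauto
      · have := s.k1 x hx y hy; tauto
  · have := h.a2 (insert u (insert b B)) (insert v S)
      (insert_subset g.uQ (insert_subset bQ s.sub)) (h4_adm (h4_adm s.adm g.bD) g.uD) c2 ?_
      ((card_insert_le _ _).trans (by omega)) (mem_sdiff.2 ⟨g.vQ, g.vD⟩)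
    · simp [s.nv, uv.symm, vb] at this
    · intro x hx y hy
      simp only [mem_insert] at hx ⊢
      rcases hx with rfl | rfl | hx
      · rw [g.nu] at hy
        simp only [mem_insert, mem_singleton] at hy
        rcases hy with rfl | rfl | rfl <;> tauto
      · have := s.k2 ha y hy; tauto
      · have := s.k1 x hx y hy; tauto

theorem h4_out (h : Cub V τ Q Dr w) (g : HE V τ Q Dr u v a b c d) {B S : Finset α}
    (s : H4Sep V τ Q Dr w u v a b c d B S) (ha : a ∉ B) (hc : c ∉ B) (aS : a ∈ S) (cS : c ∉ S) :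
    False := by
  obtain ⟨⟨aQ, bQ, cQ, dQ⟩, -, -, ab, -⟩ := g.six h
  have two := s.two
  have c3 : (insert b S).card ≤ 3 := (card_insert_le _ _).trans (by omega)
  have cov : Cov V τ B (insert b S) := fun x hx y hy => by
    have := s.k1 x hx y hy
    simp only [mem_insert]; tauto
  by_cases k : 2 ≤ B.card
  · exact s.nu (h.a2 B _ s.sub s.adm k cov c3 (mem_sdiff.2 ⟨g.uQ, g.uD⟩))
  · obtain ⟨y, rfl⟩ := card_eq_one.1 (show B.card = 1 by have := s.ne.card_pos; omega)
    have yQ : y ∈ Q := s.sub (mem_singleton_self y)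
    have e : nb V τ y = insert b S := by
      refine eq_of_subset_of_card_le (fun z hz => ?_) (c3.trans (h.cub y yQ).ge)
      refine (cov y (mem_singleton_self y) z hz).resolve_left fun k => ?_
      rw [mem_singleton.1 k] at hz
      exact not_mem_nb y hz
    have := h.c4 a aQ b bQ ab u (nb_symm (h.sub g.uQ) (by simp [g.nu])) y
      (nb_symm (h.sub yQ) (by simp [e, aS])) g.uQ yQ (nb_symm (h.sub g.uQ) (by simp [g.nu]))
      (nb_symm (h.sub yQ) (by simp [e]))
    exact s.nu (by simp [this])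

theorem h4_sep (h : Cub V τ Q Dr w) (g : HE V τ Q Dr u v a b c d)
    (hn : ∀ B, ¬ Sand V τ Q u v a b c d B) {B S : Finset α}
    (s : H4Sep V τ Q Dr w u v a b c d B S) : False := by
  obtain ⟨⟨aQ, bQ, cQ, dQ⟩, -, -, -, ac, -⟩ := g.six h
  have two := s.two
  by_cases ha : a ∈ B <;> by_cases hc : c ∈ B
  · have := h.a1 (insert v (insert u (insert b (insert d B)))) S
      (insert_subset g.vQ (insert_subset g.uQ (insert_subset bQ (insert_subset dQ s.sub))))
      (h4_adm (h4_adm (h4_adm (h4_adm s.adm g.dD) g.bD) g.uD) g.vD) (insert_nonempty _ _) ?_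
    · omega
    · intro x hx y hy
      simp only [mem_insert] at hx ⊢
      rcases hx with rfl | rfl | rfl | rfl | hx
      · rw [g.nv] at hy
        simp only [mem_insert, mem_singleton] at hy
        rcases hy with rfl | rfl | rfl <;> tauto
      · rw [g.nu] at hy
        simp only [mem_insert, mem_singleton] at hy
        rcases hy with rfl | rfl | rfl <;> tauto
      · have := s.k2 ha y hy; tauto
      · have := s.k3 hc y hy; tauto
      · have := s.k1 x hx y hy; tauto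
  · exact h4_one h g s ha hc
  · exact h4_one h g.sym s.sym hc ha
  by_cases aS : a ∈ S <;> by_cases cS : c ∈ S
  · have e : ({a, c} : Finset α) = S :=
      eq_of_subset_of_card_le (insert_subset aS (singleton_subset_iff.2 cS))
        (by rw [card_pair ac]; exact two)
    refine hn B ⟨s.ne, s.sub, fun z hz k => ?_, fun x hx y hy => ?_⟩
    · simp only [mem_insert, mem_singleton] at k
      rcases k with rfl | rfl | rfl | rfl | rfl | rfl
      exacts [s.nu hz, s.nv hz, ha hz, s.nb' hz, hc hz, s.nd hz]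
    · have := s.k1 x hx y hy
      rw [← e] at this
      simp only [mem_insert, mem_singleton] at this ⊢
      tauto
  · exact h4_out h g s ha hc aS cS
  · exact h4_out h g.sym s.sym hc ha cS aS
  · have := h.a1 B S s.sub s.adm s.ne fun x hx y hy => by have := s.k1 x hx y hy; tauto
    omega

theorem HE.g5 (h : Cub V τ Q Dr w) (g : HE V τ Q Dr u v a b c d)
    (hn : ∀ B, ¬ Sand V τ Q u v a b c d B) :
    Con3 ((((V.erase u).erase v).erase b).erase d) (mg (mg τ a b) c d) := by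
  obtain ⟨⟨aQ, bQ, cQ, dQ⟩, ⟨uv, ua, ub, uc, ud⟩, ⟨va, vb, vc, vd⟩, ab, ac, ad, bc, bd', cd⟩ :=
    g.six h
  obtain ⟨iab, -, -, -, ibd, icd⟩ := g.ind h
  have far : ∀ z ∈ Q, z ∉ Dr → ∀ y ∈ V, y ∉ Q → τ s(z, y) = 0 := fun z hz zD y hy yQ => by
    by_contra k
    exact yQ (h.inn z hz zD (mem_nb.2 ⟨hy, fun e => yQ (e ▸ hz), k⟩))
  refine h.safe _ _ (fun x hx => by simp only [mem_erase] at hx; tauto) ?_ ?_ ?_
  · intro x hx k
    simp only [mem_erase, hx, and_true, not_and_or, not_not] at k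
    rcases k with rfl | rfl | rfl | rfl
    exacts [⟨dQ, g.dD⟩, ⟨bQ, g.bD⟩, ⟨g.vQ, g.vD⟩, ⟨g.uQ, g.uD⟩]
  · intro x _ y hy yQ
    simp only [mem_erase] at hy
    have ya : y ≠ a := fun e => yQ (e ▸ aQ)
    have yc : y ≠ c := fun e => yQ (e ▸ cQ)
    by_cases xc : x = c
    · rw [xc, mg_self, mg_of_ne τ b ac.symm ya, mg_of_ne τ b ad.symm ya,
        far d dQ g.dD y hy.2.2.2.2 yQ, h4_par]
    rw [mg_of_ne _ d xc yc]
    by_cases xa : x = a
    · rw [xa, mg_self, far b bQ g.bD y hy.2.2.2.2 yQ, h4_par]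
    · rw [mg_of_ne τ b xa ya]
  intro B S hB BQ adm hne cov
  by_contra k
  have f2 : ∀ y, τ s(b, y) ≠ 0 → mg (mg τ a b) c d s(a, y) ≠ 0 := fun y e =>
    h4_mono _ c d (by rw [mg_self]; exact par_ne_zero.2 (Or.inr e))
  have f3 : ∀ y, τ s(d, y) ≠ 0 → mg (mg τ a b) c d s(c, y) ≠ 0 := fun y e => by
    rw [mg_self]; exact par_ne_zero.2 (Or.inr (h4_mono τ a b e))
  have mem : ∀ y, y ∈ V → y ≠ u → y ≠ v → y ≠ b → y ≠ d →
      y ∈ (((V.erase u).erase v).erase b).erase d := fun y h0 h1 h2 h3 h4 => by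
    simp [h0, h1, h2, h3, h4]
  have out : ∀ x ∈ B, x ∈ V ∧ x ≠ u ∧ x ≠ v ∧ x ≠ b ∧ x ≠ d := fun x hx => by
    have := hB hx
    simp only [mem_erase] at this; tauto
  refine h4_sep h g hn (B := B) (S := S) ⟨BQ, adm, hne, by omega, fun e => (out u e).2.1 rfl,
    fun e => (out v e).2.2.1 rfl, fun e => (out b e).2.2.2.1 rfl, fun e => (out d e).2.2.2.2 rfl,
    fun x hx y hy => ?_, fun ha y hy => ?_, fun hc y hy => ?_⟩
  · obtain ⟨x0, x1, x2, x3, x4⟩ := out x hx
    have hy' := mem_nb.1 hy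
    have hs := nb_symm x0 hy
    by_cases y1 : y = u
    · rw [y1, g.nu] at hs
      simp only [mem_insert, mem_singleton, x2, x3, false_or, or_false] at hs
      exact Or.inr (Or.inr (Or.inl ⟨y1, hs ▸ hx⟩))
    by_cases y2 : y = v
    · rw [y2, g.nv] at hs
      simp only [mem_insert, mem_singleton, x1, x4, false_or, or_false] at hs
      exact Or.inr (Or.inr (Or.inr (Or.inl ⟨y2, hs ▸ hx⟩)))
    by_cases y3 : y = b
    · refine Or.inr (Or.inr (Or.inr (Or.inr (Or.inl ⟨y3, ?_⟩))))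
      by_cases xa : a = x
      · exact Or.inl (xa ▸ hx)
      refine cov x hx a (mem_nb.2 ⟨mem a (h.sub aQ) ua.symm va.symm ab ad, xa, ?_⟩)
      rw [Sym2.eq_swap]
      exact f2 x (y3 ▸ (mem_nb.1 hs).2.2)
    by_cases y4 : y = d
    · refine Or.inr (Or.inr (Or.inr (Or.inr (Or.inr ⟨y4, ?_⟩))))
      by_cases xc : c = x
      · exact Or.inl (xc ▸ hx)
      refine cov x hx c (mem_nb.2 ⟨mem c (h.sub cQ) uc.symm vc.symm bc.symm cd, xc, ?_⟩)
      rw [Sym2.eq_swap]
      exact f3 x (y4 ▸ (mem_nb.1 hs).2.2)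
    have := cov x hx y (mem_nb.2 ⟨mem y hy'.1 y1 y2 y3 y4, hy'.2.1,
      h4_mono _ c d (h4_mono τ a b hy'.2.2)⟩)
    tauto
  · have hy' := mem_nb.1 hy
    by_cases y1 : y = u
    · exact Or.inl y1
    by_cases ya : y = a
    · exact Or.inr (Or.inl (ya ▸ ha))
    refine Or.inr (cov a ha y (mem_nb.2 ⟨mem y hy'.1 y1 ?_ hy'.2.1 ?_, ya, f2 y hy'.2.2⟩))
    · rintro rfl
      have := nb_symm (h.sub bQ) hy
      simp [g.nv, ub.symm, bc, bd'] at this
    · rintro rfl
      exact hy'.2.2 ibd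
  · have hy' := mem_nb.1 hy
    by_cases y1 : y = v
    · exact Or.inl y1
    by_cases yc : y = c
    · exact Or.inr (Or.inl (yc ▸ hc))
    refine Or.inr (cov c hc y (mem_nb.2 ⟨mem y hy'.1 ?_ y1 ?_ hy'.2.1, yc, f3 y hy'.2.2⟩))
    · rintro rfl
      have := nb_symm (h.sub dQ) hy
      simp [g.nu, vd.symm, ad.symm, bd'.symm] at this
    · rintro rfl
      exact hy'.2.2 (by rw [Sym2.eq_swap]; exact ibd)

end Pool.Agent.Lib.MP_efe3d7_co.H
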