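import Pool.Agent.Lib.MP_efe3d7_co.G.H1

/-! Sets between the four ends. -/

set_option autoImplicit false

open Finset

namespace Pool.Agent.Lib.MP_efe3d7_co.H

variable {α : Type} [DecidableEq α] {V : Finset α} {τ : Sym2 α → Fin 3}
variable {Q Dr : Finset α} {w : Prop} {u v a b c d : α}

theorem h5_door (h : Cub V τ Q Dr w) {z : α} (hz : nb V τ z ⊆ Q) : z ∉ Dr := fun k => by
  have h1 := h.dout z k
  have h2 := h.cub z (h.dsub k)
  rw [inter_eq_left.2 hz] at h1
  rw [dg] at h2
  omega

theorem h5_adm {B : Finset α} (hB : ∀ z ∈ B, z ∉ Dr) (_ : w) : (B ∩ Dr).card ≤ 1 := by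
  rw [disjoint_iff_inter_eq_empty.1 (disjoint_left.2 hB)]
  simp

/-- No door lies between the four ends. -/
theorem Sand.nod (h : Cub V τ Q Dr w) (g : HE V τ Q Dr u v a b c d) {B : Finset α}
    (s : Sand V τ Q u v a b c d B) : ∀ z ∈ B, z ∉ Dr := by
  obtain ⟨⟨ha, hb, hc, hd⟩, -⟩ := g.six h
  refine fun z hz => h5_door h fun y hy => (s.cov z hz y hy).elim (fun k => s.sub k) fun k => ?_
  simp only [mem_insert, mem_singleton] at k
  rcases k with rfl | rfl | rfl | rfl <;> assumption

theorem h5_one (h : Cub V τ Q Dr w) (g : HE V τ Q Dr u v a b c d) {B : Finset α}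
    (s : Sand V τ Q u v a b c d B) {x : α} (hx : x = a ∨ x = b) : (nb V τ x ∩ B).card = 1 := by
  obtain ⟨⟨ha, hb, hc, hd⟩, ⟨uv, -, -, -, ud⟩, ⟨-, -, -, vd⟩, -, ac, ad, bc, bd, cd⟩ := g.six h
  have nd := s.nod h g
  have xm : x ∈ ({a, b, c, d} : Finset α) := by rcases hx with rfl | rfl <;> simp
  have xQ : x ∈ Q := by rcases hx with rfl | rfl <;> assumption
  have xc : c ≠ x ∧ d ≠ x := by rcases hx with rfl | rfl <;> simp [ac.symm, ad.symm, bc.symm, bd.symm]
  have U3 : (({a, b, c, d} : Finset α).erase x).card ≤ 3 := by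
    rw [card_erase_of_mem xm]
    exact Nat.sub_le_of_le_add card_le_four
  have uB : u ∉ B := fun k => s.out u k (by simp)
  refine le_antisymm (not_lt.1 fun k => ?_) (card_pos.2 (nonempty_iff_ne_empty.2 fun k => ?_))
  · have h1 : insert u (nb V τ x ∩ B) = nb V τ x := eq_of_subset_of_card_le (insert_subset
      (nb_symm (h.sub g.uQ) (by rw [g.nu]; rcases hx with rfl | rfl <;> simp)) inter_subset_left) (by
        have := h.cub x xQ
        rw [card_insert_of_notMem fun e => uB (mem_inter.1 e).2]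
        rw [dg] at this
        omega)
    have h2 : ∀ y ∈ nb V τ x, y = u ∨ y ∈ B := fun y hy =>
      (mem_insert.1 (h1.symm ▸ hy)).imp_right fun e => (mem_inter.1 e).2
    have h3 := h5_door h fun y hy => (h2 y hy).elim (fun e => e ▸ g.uQ) fun e => s.sub e
    have h4 := h.a2 (insert u (insert v (insert x B))) _
      (insert_subset g.uQ (insert_subset g.vQ (insert_subset xQ s.sub)))
      (h5_adm (by simpa [g.uD, g.vD, h3] using nd))
      (one_lt_card.2 ⟨u, by simp, v, by simp, uv⟩) (fun y hy t ht => ?_) U3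
      (mem_sdiff.2 ⟨hd, g.dD⟩)
    · simp only [mem_insert, ud.symm, vd.symm, xc.2, false_or] at h4
      exact s.out d h4 (by simp)
    by_cases e : t = x
    · simp [e]
    simp only [mem_insert, mem_erase, mem_singleton] at hy ⊢
    rcases hy with rfl | rfl | rfl | hy
    · simp only [g.nu, mem_insert, mem_singleton] at ht
      tauto
    · simp only [g.nv, mem_insert, mem_singleton] at ht
      tauto
    · have := h2 t ht
      tauto
    · have := s.cov y hy t ht
      simp only [mem_insert, mem_singleton] at this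
      tauto
  have h1 : Cov V τ B (({a, b, c, d} : Finset α).erase x) := fun y hy t ht =>
    (s.cov y hy t ht).imp_right fun e => mem_erase.2 ⟨fun e' => eq_empty_iff_forall_notMem.1 k y
      (mem_inter.2 ⟨nb_symm (h.sub (s.sub hy)) (e' ▸ ht), hy⟩), e⟩
  by_cases h2 : 2 ≤ B.card
  · exact uB (h.a2 B _ s.sub (h5_adm nd) h2 h1 U3 (mem_sdiff.2 ⟨g.uQ, g.uD⟩))
  obtain ⟨y, hy⟩ := s.ne
  have h3 : nb V τ y = ({a, b, c, d} : Finset α).erase x := eq_of_subset_of_card_le
    (fun t ht => (h1 y hy t ht).resolve_left fun e =>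
      (mem_nb.1 ht).2.1 (card_le_one.1 (by omega) t e y hy)) (U3.trans (h.cub y (s.sub hy)).ge)
  exact cd (h.c4 v g.vQ y (s.sub hy) (fun e => s.out y hy (by simp [e])) d (by simp [g.nv]) c
    (by simp [g.nv]) hd hc (by simp [h3, xc.2]) (by simp [h3, xc.1]))

/-- Each end has exactly one neighbour in the set. -/
theorem Sand.one (h : Cub V τ Q Dr w) (g : HE V τ Q Dr u v a b c d) {B : Finset α}
    (s : Sand V τ Q u v a b c d B) : ∀ z ∈ ({a, b, c, d} : Finset α), (nb V τ z ∩ B).card = 1 := by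
  intro z hz
  simp only [mem_insert, mem_singleton, ← or_assoc (b := z = b)] at hz
  refine hz.elim (h5_one h g s) (h5_one h g.sym ⟨s.ne, s.sub, fun y hy k => s.out y hy ?_,
    s.cov.mono fun k hk => ?_⟩) <;> simp only [mem_insert, mem_singleton] at * <;> tauto

/-- The set of an inner edge lies inside. -/
theorem Sand.inner (h : Cub V τ Q Dr w) (g : HE V τ Q Dr u v a b c d) {A : Finset α}
    (s : Sand V τ Q u v a b c d A) {u' v' a' b' c' d' : α} (g' : HE V τ Q Dr u' v' a' b' c' d')
    (h1 : nb V τ u' ⊆ A) (h2 : nb V τ v' ⊆ A) {B : Finset α}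
    (s' : Sand V τ Q u' v' a' b' c' d' B) : B.card < A.card := by
  rw [g'.nu] at h1
  rw [g'.nv] at h2
  have key : Cov V τ B A := s'.cov.mono fun t ht => by
    simp only [mem_insert, mem_singleton] at ht
    rcases ht with rfl | rfl | rfl | rfl
    exacts [h1 (by simp), h1 (by simp), h2 (by simp), h2 (by simp)]
  refine card_lt_card ⟨by_contra fun k => ?_, fun k => s'.out u' (k (h2 (by simp))) (by simp)⟩
  have nd := s'.nod h g'
  have out : ∀ y ∈ B, ∀ t ∈ nb V τ y, t ∈ ({u, v, a, b, c, d} : Finset α) → t ∈ B :=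
    fun y hy t ht e => (key y hy t ht).resolve_right fun e' => s.out t e' e
  by_cases k1 : ∀ y ∈ B \ A, ∀ t ∈ nb V τ y, t ∉ A
  · exact absurd (h.a1 (B \ A) ∅ (sdiff_subset.trans s'.sub)
      (h5_adm fun z hz => nd z (mem_sdiff.1 hz).1) (sdiff_nonempty.2 k) fun y hy t ht =>
        Or.inl (mem_sdiff.2 ⟨(key y (mem_sdiff.1 hy).1 t ht).resolve_right (k1 y hy t ht),
          k1 y hy t ht⟩)) (by simp)
  push Not at k1
  obtain ⟨y, hy, t, ht, tA⟩ := k1
  obtain ⟨y1, y2⟩ := mem_sdiff.1 hy
  have k2 := (s.cov t tA y (nb_symm (h.sub (s'.sub y1)) ht)).resolve_left y2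
  have k3 : u ∈ B ∨ v ∈ B := by
    simp only [mem_insert, mem_singleton] at k2
    rcases k2 with rfl | rfl | rfl | rfl
    exacts [.inl (out _ y1 u (nb_symm (h.sub g.uQ) (by simp [g.nu])) (by simp)),
      .inl (out _ y1 u (nb_symm (h.sub g.uQ) (by simp [g.nu])) (by simp)),
      .inr (out _ y1 v (nb_symm (h.sub g.vQ) (by simp [g.nv])) (by simp)),
      .inr (out _ y1 v (nb_symm (h.sub g.vQ) (by simp [g.nv])) (by simp))]
  have uB : u ∈ B := k3.elim id fun e => out v e u (by simp [g.nv]) (by simp)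
  have vB : v ∈ B := out u uB v (by simp [g.nu]) (by simp)
  have k4 : Cov V τ A B := s.cov.mono fun t ht => by
    simp only [mem_insert, mem_singleton] at ht
    rcases ht with rfl | rfl | rfl | rfl
    exacts [out u uB _ (by simp [g.nu]) (by simp), out u uB _ (by simp [g.nu]) (by simp),
      out v vB _ (by simp [g.nv]) (by simp), out v vB _ (by simp [g.nv]) (by simp)]
  exact absurd (h.a1 (A ∪ B) ∅ (union_subset s.sub s'.sub)
    (h5_adm fun z hz => (mem_union.1 hz).elim (s.nod h g z) (nd z)) ⟨u, mem_union_right _ uB⟩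
    fun y hy t ht => Or.inl (mem_union.2 ((mem_union.1 hy).elim (fun e => k4 y e t ht)
      fun e => (key y e t ht).symm))) (by simp)

end Pool.Agent.Lib.MP_efe3d7_co.H
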