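import Pool.Agent.Lib.MP_efe3d7_co.G.H5

/-! The smallest set between four ends is an edge. -/

set_option autoImplicit false

open Finset

namespace Pool.Agent.Lib.MP_efe3d7_co.H

variable {α : Type} [DecidableEq α] {V : Finset α} {τ : Sym2 α → Fin 3}
variable {Q Dr : Finset α} {w : Prop} {u v a b c d : α}

theorem h6_dc {A E : Finset α} (hA : A ⊆ V) (hE : E ⊆ V) :
    ∑ z ∈ A, (nb V τ z ∩ E).card = ∑ e ∈ E, (nb V τ e ∩ A).card := by
  simp only [inter_comm (nb V τ _), ← filter_mem_eq_inter, card_filter]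
  rw [sum_comm]
  exact sum_congr rfl fun e he => sum_congr rfl fun z hz =>
    if_congr ⟨nb_symm (hA hz), nb_symm (hE he)⟩ rfl rfl

theorem h6_even {A : Finset α} (hA : A ⊆ V) : Even (∑ z ∈ A, (nb V τ z ∩ A).card) := by
  induction A using Finset.induction_on with
  | empty => simp
  | insert x A hx ih =>
    have h1 : A ⊆ V := (subset_insert _ _).trans hA
    have h2 := h6_dc (τ := τ) h1 (singleton_subset_iff.2 (hA (mem_insert_self _ _)))
    have h3 : ∀ z, (nb V τ z ∩ insert x A).card =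
        (nb V τ z ∩ {x}).card + (nb V τ z ∩ A).card := fun z => by
      rw [insert_eq, inter_union_distrib_left, card_union_of_disjoint]
      exact (disjoint_singleton_left.2 hx).mono inter_subset_right inter_subset_right
    obtain ⟨k, hk⟩ := ih h1
    rw [sum_insert hx, inter_insert_of_notMem (not_mem_nb x), sum_congr rfl fun z _ => h3 z,
      sum_add_distrib, h2, sum_singleton, hk]
    exact ⟨(nb V τ x ∩ A).card + k, by omega⟩

theorem h6_share (h : Cub V τ Q Dr w) {A S : Finset α} (hA : A ⊆ Q) {y z : α} (hy : y ∈ A)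
    (hz : z ∈ A) (hyz : y ≠ z) (h1 : nb V τ y ∩ A ⊆ S) (h2 : nb V τ z ∩ A ⊆ S) :
    (nb V τ y ∩ A).card + (nb V τ z ∩ A).card ≤ S.card + 1 := by
  have h3 := card_le_card (union_subset h1 h2)
  have h4 : (nb V τ y ∩ A ∩ (nb V τ z ∩ A)).card ≤ 1 := card_le_one.2 fun p hp q hq => by
    simp only [mem_inter] at hp hq
    exact h.c4 y (hA hy) z (hA hz) hyz q hq.1.1 p hp.1.1 (hA hq.1.2) (hA hp.1.2) hq.2.1 hp.2.1
  have := card_union_add_card_inter (nb V τ y ∩ A) (nb V τ z ∩ A)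
  omega

theorem Sand.pair (h : Cub V τ Q Dr w) (g : HE V τ Q Dr u v a b c d) {A : Finset α}
    (s : Sand V τ Q u v a b c d A)
    (hn : ∀ y ∈ A, ∀ z ∈ nb V τ y, nb V τ y ⊆ A → ¬ nb V τ z ⊆ A) :
    ∃ p p', p ≠ p' ∧ A = {p, p'} := by
  obtain ⟨⟨aQ, bQ, cQ, dQ⟩, -, -, e1, e2, e3, e4, e5, e6⟩ := g.six h
  obtain ⟨E, hE⟩ : ∃ E : Finset α, E = {a, b, c, d} := ⟨_, rfl⟩
  have AV : A ⊆ V := s.sub.trans h.sub
  have EV : E ⊆ V := by
    simp [hE, insert_subset_iff, h.sub aQ, h.sub bQ, h.sub cQ, h.sub dQ]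
  have k4 : ∑ z ∈ A, (nb V τ z ∩ E).card = 4 := by
    rw [h6_dc AV EV, sum_congr rfl fun z hz => s.one h g z (hE ▸ hz)]
    simp [hE, e1, e2, e3, e4, e5, e6]
  have k3 : ∀ z ∈ A, (nb V τ z ∩ A).card + (nb V τ z ∩ E).card = 3 := fun z hz => by
    rw [← card_union_of_disjoint, ← inter_union_distrib_left, inter_eq_left.2 fun y hy =>
      mem_union.2 (hE ▸ s.cov z hz y hy)]
    · exact h.cub z (s.sub hz)
    · refine disjoint_left.2 fun y h1 h2 => s.out y (mem_inter.1 h1).2 ?_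
      exact mem_insert_of_mem (mem_insert_of_mem (hE ▸ (mem_inter.1 h2).2))
  have k0 : ∀ z ∈ A, nb V τ z ⊆ A → (nb V τ z ∩ A).card = 3 := fun z hz k => by
    rw [inter_eq_left.2 k]
    exact h.cub z (s.sub hz)
  have k1 : ∀ z ∈ A, ¬ nb V τ z ⊆ A → 1 ≤ (nb V τ z ∩ E).card := fun z hz k => by
    obtain ⟨y, h1, h2⟩ := not_subset.1 k
    exact card_pos.2 ⟨y, mem_inter.2 ⟨h1, hE ▸ (s.cov z hz y h1).resolve_left h2⟩⟩
  have hD : (A.filter fun z => ¬ nb V τ z ⊆ A).card ≤ 4 := by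
    rw [← k4, card_eq_sum_ones]
    exact (sum_le_sum fun z hz => k1 z (mem_filter.1 hz).1 (mem_filter.1 hz).2).trans
      (sum_le_sum_of_subset (filter_subset _ _))
  have hI : (A.filter fun z => nb V τ z ⊆ A).card ≤ 1 := card_le_one.2 fun y hy z hz => by
    by_contra k
    obtain ⟨y1, y2⟩ := mem_filter.1 hy
    obtain ⟨z1, z2⟩ := mem_filter.1 hz
    have := h6_share h s.sub (S := A.filter fun z => ¬ nb V τ z ⊆ A) y1 z1 k
      (fun p hp => mem_filter.2 ⟨(mem_inter.1 hp).2, hn y y1 p (mem_inter.1 hp).1 y2⟩)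
      (fun p hp => mem_filter.2 ⟨(mem_inter.1 hp).2, hn z z1 p (mem_inter.1 hp).1 z2⟩)
    have := k0 y y1 y2
    have := k0 z z1 z2
    omega
  have h5 := card_filter_add_card_filter_not (s := A) fun z => nb V τ z ⊆ A
  have h6 := sum_congr rfl k3
  rw [sum_add_distrib, k4, sum_const, smul_eq_mul] at h6
  obtain ⟨k, hk⟩ := h6_even (τ := τ) AV
  have h7 := s.ne.card_pos
  have h4 : A.card ≠ 4 := fun n4 => by
    by_cases hx : ∃ x ∈ A, nb V τ x ⊆ A
    · obtain ⟨x, x1, x2⟩ := hx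
      have x3 : (nb V τ x).card = 3 := h.cub x (s.sub x1)
      have x4 : nb V τ x = A.erase x := eq_of_subset_of_card_le
        (fun y hy => mem_erase.2 ⟨(mem_nb.1 hy).2.1, x2 hy⟩) (by rw [card_erase_of_mem x1]; omega)
      have x5 : ∀ y ∈ nb V τ x, 2 ≤ (nb V τ y ∩ E).card := fun y hy => by
        have : (nb V τ y ∩ A).card ≤ ({x} : Finset α).card := card_le_card fun z hz => by
          obtain ⟨z1, z2⟩ := mem_inter.1 hz
          by_contra k
          exact h.tri x (s.sub x1) y hy z (x4 ▸ mem_erase.2 ⟨by simpa using k, z2⟩)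
            (s.sub (x2 hy)) (s.sub z2) z1
        have := k3 y (x2 hy)
        rw [card_singleton] at *
        omega
      have := (card_nsmul_le_sum _ _ _ x5).trans (sum_le_sum_of_subset x2)
      rw [x3, k4] at this
      simp at this
    · have m2 : ∀ x ∈ A, (nb V τ x ∩ A).card = 2 := fun x x1 => by
        have := card_nsmul_le_sum (A.erase x) _ _ fun z hz =>
          k1 z (mem_of_mem_erase hz) fun k => hx ⟨z, mem_of_mem_erase hz, k⟩
        rw [card_erase_of_mem x1, smul_eq_mul] at this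
        have := add_sum_erase A (fun z => (nb V τ z ∩ E).card) x1
        have := k1 x x1 fun k => hx ⟨x, x1, k⟩
        have := k3 x x1
        omega
      obtain ⟨x, x1⟩ := s.ne
      obtain ⟨y, hy, z, hz, yz⟩ := one_lt_card.1 (m2 x x1).ge
      have t : ∀ y ∈ nb V τ x ∩ A, nb V τ y ∩ A ⊆ A \ (nb V τ x ∩ A) := fun y hy p hp =>
        mem_sdiff.2 ⟨(mem_inter.1 hp).2, fun k => h.tri x (s.sub x1) y (mem_inter.1 hy).1 p
          (mem_inter.1 k).1 (s.sub (mem_inter.1 hy).2) (s.sub (mem_inter.1 k).2) (mem_inter.1 hp).1⟩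
      have := h6_share h s.sub (mem_inter.1 hy).2 (mem_inter.1 hz).2 yz (t y hy) (t z hz)
      rw [card_sdiff_of_subset inter_subset_right, m2 x x1, m2 y (mem_inter.1 hy).2,
        m2 z (mem_inter.1 hz).2] at this
      omega
  exact card_eq_two.1 (by omega)

theorem Cub.dich (h : Cub V τ Q Dr w) : ∃ u v a b c d, HE V τ Q Dr u v a b c d ∧
    ((∀ B, ¬ Sand V τ Q u v a b c d B) ∨
      ∃ p p', p ≠ p' ∧ Sand V τ Q u v a b c d {p, p'}) := by
  by_contra hc
  have key : ∀ n, ∀ u v a b c d A, HE V τ Q Dr u v a b c d → Sand V τ Q u v a b c d A →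
      A.card ≠ n := by
    intro n
    induction n using Nat.strong_induction_on with
    | _ n ih =>
      intro u v a b c d A g s hA
      by_cases hn : ∀ y ∈ A, ∀ z ∈ nb V τ y, nb V τ y ⊆ A → ¬ nb V τ z ⊆ A
      · obtain ⟨p, p', h1, rfl⟩ := s.pair h g hn
        exact hc ⟨u, v, a, b, c, d, g, Or.inr ⟨p, p', h1, s⟩⟩
      · push Not at hn
        obtain ⟨y, y1, z, z1, y2, z2⟩ := hn
        have t : ∀ y, nb V τ y ⊆ A → (nb V τ y ∩ Dr).card ≤ 1 := fun y k => by
          rw [disjoint_iff_inter_eq_empty.1 (disjoint_left.2 fun p hp => s.nod h g p (k hp))]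
          simp
        obtain ⟨a', b', c', d', g'⟩ := h.he_of (s.sub y1) (s.sub (y2 z1)) (s.nod h g y y1)
          (s.nod h g z (y2 z1)) z1 (t y y2) (t z z2)
        exact hc ⟨y, z, a', b', c', d', g', Or.inl fun B s' =>
          ih _ (hA ▸ s.inner h g g' y2 z2 s') _ _ _ _ _ _ B g' s' rfl⟩
  obtain ⟨u, v, a, b, c, d, g⟩ := h.exists_he
  exact hc ⟨u, v, a, b, c, d, g, Or.inl fun B s => key _ _ _ _ _ _ _ B g s rfl⟩

end Pool.Agent.Lib.MP_efe3d7_co.H
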