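import Pool.Agent.Lib.MP_efe3d7_co.G.H5

/-! The case of a pair. -/

set_option autoImplicit false

open Finset

namespace Pool.Agent.Lib.MP_efe3d7_co.H

variable {α : Type} [DecidableEq α] {V : Finset α} {τ : Sym2 α → Fin 3}
variable {Q Dr : Finset α} {w : Prop} {u v a b c d : α}

theorem h7_c4 (h : Cub V τ Q Dr w) (g : HE V τ Q Dr u v a b c d) {y : α} (hy : y ∈ Q)
    (ha : a ∈ nb V τ y) (hb : b ∈ nb V τ y) : y = u := by
  obtain ⟨⟨aQ, bQ, -⟩, -, -, ab, -⟩ := g.six h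
  exact h.c4 a aQ b bQ ab u (nb_symm (h.sub g.uQ) (by simp [g.nu])) y (nb_symm (h.sub hy) ha)
    g.uQ hy (nb_symm (h.sub g.uQ) (by simp [g.nu])) (nb_symm (h.sub hy) hb)

/-- The neighbours of the pair. -/
theorem Sand.nbp (h : Cub V τ Q Dr w) (g : HE V τ Q Dr u v a b c d) {p p' : α} (hp : p ≠ p')
    (s : Sand V τ Q u v a b c d {p, p'}) :
    ∃ a' c', (a' = a ∨ a' = b) ∧ (c' = c ∨ c' = d) ∧ nb V τ p = {p', a', c'} := by
  have _ := hp
  have m : p ∈ ({p, p'} : Finset α) := mem_insert_self _ _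
  have o := s.out p m
  have k1 := h7_c4 h g (s.sub m)
  have k2 := h7_c4 h g.sym (s.sub m)
  refine ⟨if a ∈ nb V τ p then a else b, if c ∈ nb V τ p then c else d, by split_ifs <;> simp,
    by split_ifs <;> simp, eq_of_subset_of_card_le (fun y hy => ?_)
      (card_le_three.trans_eq (h.cub p (s.sub m)).symm)⟩
  have k3 := s.cov p m y hy
  have k4 := (mem_nb.1 hy).2.1
  simp only [mem_insert, mem_singleton] at o k3 ⊢
  grind

theorem h7_mg (a b : α) {e : Sym2 α} (h : τ e ≠ 0) : mg τ a b e ≠ 0 := by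
  rw [mg]
  split_ifs
  exacts [par_ne_zero.2 (Or.inl h), h]

theorem h7_far (h : Cub V τ Q Dr w) {σ : Sym2 α → Fin 3} {x y : α} (a : α) (bQ : b ∈ Q)
    (bD : b ∉ Dr) (aQ : a ∈ Q) (hy : y ∈ V) (yQ : y ∉ Q) (e : σ s(b, y) = τ s(b, y)) :
    mg σ a b s(x, y) = σ s(x, y) := by
  rcases eq_or_ne x a with rfl | k
  · have z : τ s(b, y) = 0 := by
      by_contra z
      exact yQ (h.inn b bQ bD (mem_nb.2 ⟨hy, fun k => yQ (k ▸ bQ), z⟩))
    rw [mg_self, e, z]
    generalize σ s(x, y) = r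
    revert r; decide
  · exact mg_of_ne σ b k fun k => yQ (k ▸ aQ)

theorem h7_one (h : Cub V τ Q Dr w) (g : HE V τ Q Dr u v a b c d) {B S : Finset α} (hQ : B ⊆ Q)
    (hw : w → (B ∩ Dr).card ≤ 1) (hne : B.Nonempty) (hu : u ∉ B) (ha : a ∈ S) (hS : S.card ≤ 2)
    (hc : Cov V τ B (insert b S)) : False := by
  have h3 : (insert b S).card ≤ 3 := (card_insert_le _ _).trans (by omega)
  by_cases k : 2 ≤ B.card
  · exact hu (h.a2 B _ hQ hw k hc h3 (mem_sdiff.2 ⟨g.uQ, g.uD⟩))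
  obtain ⟨y, rfl⟩ := card_eq_one.1 (le_antisymm (by omega) hne.card_pos)
  have m := mem_singleton_self y
  have e : nb V τ y = insert b S := eq_of_subset_of_card_le
    (fun z hz => (hc y m z hz).resolve_left fun k => (mem_nb.1 hz).2.1 (mem_singleton.1 k))
    (h3.trans_eq (h.cub y (hQ m)).symm)
  exact hu (h7_c4 h g (hQ m) (by simp [e, ha]) (by simp [e]) ▸ m)

theorem h7_add (h : Cub V τ Q Dr w) {B R U : Finset α} (hQ : B ⊆ Q) (hw : w → (B ∩ Dr).card ≤ 1)
    (hR : ∀ z ∈ R, z ∈ Q ∧ z ∉ Dr) (hc : Cov V τ (B ∪ R) U) :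
    (B.Nonempty → 3 ≤ U.card) ∧ (2 ≤ R.card → U.card ≤ 3 → Q \ Dr ⊆ B ∪ R) := by
  have k1 : B ∪ R ⊆ Q := union_subset hQ fun z hz => (hR z hz).1
  have k2 : w → ((B ∪ R) ∩ Dr).card ≤ 1 := fun k => (card_le_card fun z hz => mem_inter.2
    ⟨(mem_union.1 (mem_inter.1 hz).1).resolve_right fun e => (hR z e).2 (mem_inter.1 hz).2,
      (mem_inter.1 hz).2⟩).trans (hw k)
  exact ⟨fun e => h.a1 _ _ k1 k2 (e.mono subset_union_left) hc,
    fun e => h.a2 _ _ k1 k2 (e.trans (card_le_card subset_union_right)) hc⟩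

theorem h7_half (h : Cub V τ Q Dr w) (g : HE V τ Q Dr u v a b c d) {p p' : α} {B S : Finset α}
    (hQ : B ⊆ Q) (hw : w → (B ∩ Dr).card ≤ 1) (hp : ∀ z ∈ ({p, p'} : Finset α), z ∈ Q ∧ z ∉ Dr ∧
      z ≠ d ∧ ∀ y ∈ nb V τ z, y ∈ ({p, p', a, b, c, d} : Finset α))
    (ha : a ∈ B) (hc : c ∈ S) (hd : d ∉ B) (hS : S.card ≤ 2)
    (k : ∀ x ∈ insert b B, ∀ y ∈ nb V τ x, y ∈ B ∨ y ∈ S ∨ y ∈ ({u, v, b, d, p, p'} : Finset α)) :
    False := by
  obtain ⟨⟨-, bQ, -, dQ⟩, ⟨uv, -, -, -, ud⟩, ⟨-, -, -, vd⟩, -, -, -, -, bd, -⟩ := g.six h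
  have := (h7_add h (R := {u, v, b, p, p'}) (U := insert d S) hQ hw (fun z hz => ?_)
    fun x hx y hy => ?_).2 (one_lt_card.2 ⟨u, by simp, v, by simp, uv⟩)
    ((card_insert_le _ _).trans (by omega)) (mem_sdiff.2 ⟨dQ, g.dD⟩)
  · simp only [mem_union, mem_insert, mem_singleton] at this hp
    grind
  · have := g.uQ; have := g.vQ; have := g.uD; have := g.vD; have := g.bD
    simp only [mem_insert, mem_singleton] at hz hp
    grind
  · have k1 := k x
    have k2 := hp x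
    have k3 : x = u → y ∈ ({v, a, b} : Finset α) := fun e => g.nu ▸ e ▸ hy
    have k4 : x = v → y ∈ ({u, c, d} : Finset α) := fun e => g.nv ▸ e ▸ hy
    simp only [mem_union, mem_insert, mem_singleton] at k1 k2 k3 k4 hx ⊢
    grind

theorem HE.g6 (h : Cub V τ Q Dr w) (g : HE V τ Q Dr u v a b c d) {p p' : α} (hp : p ≠ p')
    (s : Sand V τ Q u v a b c d {p, p'}) {t : Fin 3} (ht : t ≠ 0) :
    Con3 ((((((V.erase u).erase v).erase b).erase d).erase p).erase p')
      (Function.update (mg (mg τ a b) c d) s(a, c) t) := by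
  have _ := hp
  obtain ⟨⟨aQ, bQ, cQ, dQ⟩, ⟨uv, ua, ub, uc, ud⟩, ⟨va, vb, vc, vd⟩, ab, ac, ad, bc, bd, cd⟩ :=
    g.six h
  have hR : ∀ z ∈ ({u, v, b, d, p, p'} : Finset α), z ∈ Q ∧ z ∉ Dr := by
    have := g.uQ; have := g.vQ; have := g.uD; have := g.vD; have := g.bD; have := g.dD
    have k1 := s.nod h g
    have k2 : ∀ z ∈ _, z ∈ Q := s.sub
    simp only [mem_insert, mem_singleton] at k1 k2 ⊢
    grind
  have hV : ∀ z, z ∈ (((((V.erase u).erase v).erase b).erase d).erase p).erase p' ↔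
      z ∈ V ∧ z ∉ ({u, v, b, d, p, p'} : Finset α) := fun z => by
    simp only [mem_erase, mem_insert, mem_singleton]
    tauto
  generalize (((((V.erase u).erase v).erase b).erase d).erase p).erase p' = W at hV ⊢
  refine h.safe _ _ (fun z hz => ((hV z).1 hz).1)
    (fun z hz e => hR z (by_contra fun k => e ((hV z).2 ⟨hz, k⟩))) (fun x _ y hy yQ => ?_)
    fun B S hB hQ hw hne hc => by_contra fun hS => ?_
  · have yV := ((hV y).1 hy).1
    have f := fun x => h7_far h (σ := τ) (x := x) a bQ g.bD aQ yV yQ rfl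
    rw [Function.update_of_ne, h7_far h c dQ g.dD cQ yV yQ (f d), f]
    intro e
    rcases Sym2.eq_iff.1 e with ⟨-, rfl⟩ | ⟨-, rfl⟩ <;> contradiction
  replace hS : S.card ≤ 2 := by omega
  have K : ∀ x ∈ B, ∀ y ∈ W, (mg (mg τ a b) c d s(x, y) ≠ 0 ∨ s(x, y) = s(a, c)) →
      y ∈ B ∨ y ∈ S := fun x hx y hy e => (eq_or_ne y x).elim (fun k => Or.inl (k ▸ hx)) fun k =>
    hc x hx y (mem_nb_upd.2 ⟨hy, k, by split_ifs with z; exacts [ht, e.resolve_right z]⟩)
  have mb : ∀ y, τ s(b, y) ≠ 0 → mg (mg τ a b) c d s(a, y) ≠ 0 := fun y e =>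
    h7_mg c d (mg_self τ a b y ▸ par_ne_zero.2 (Or.inr e))
  have md : ∀ y, τ s(d, y) ≠ 0 → mg (mg τ a b) c d s(c, y) ≠ 0 := fun y e =>
    mg_self (mg τ a b) c d y ▸ par_ne_zero.2 (Or.inr (h7_mg a b e))
  have hP : ∀ z ∈ ({p, p'} : Finset α), z ∈ Q ∧ z ∉ Dr ∧ z ∉ ({u, v, a, b, c, d} : Finset α) ∧
      ∀ y ∈ nb V τ z, y ∈ ({p, p'} : Finset α) ∨ y ∈ ({a, b, c, d} : Finset α) :=
    fun z hz => ⟨s.sub hz, s.nod h g z hz, s.out z hz, s.cov z hz⟩
  have oB : ∀ z ∈ B, z ∉ ({u, v, b, d, p, p'} : Finset α) := fun z hz => ((hV z).1 (hB hz)).2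
  have aW : a ∈ W := (hV a).2 ⟨h.sub aQ, by
    simp only [mem_insert, mem_singleton] at hP ⊢
    grind⟩
  have cW : c ∈ W := (hV c).2 ⟨h.sub cQ, by
    simp only [mem_insert, mem_singleton] at hP ⊢
    grind⟩
  have T : ∀ {x z : α}, x ∈ B → (∀ y, τ s(z, y) ≠ 0 → mg (mg τ a b) c d s(x, y) ≠ 0) →
      ∀ y ∈ nb V τ z, y ∈ B ∨ y ∈ S ∨ y ∈ ({u, v, b, d, p, p'} : Finset α) :=
    fun hx f y hy => or_assoc.1 (or_iff_not_imp_right.2 fun k =>
      K _ hx y ((hV y).2 ⟨nb_sub _ hy, k⟩) (Or.inl (f y (mem_nb.1 hy).2.2)))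
  have F1 := fun x (hx : x ∈ B) => T hx fun y e => h7_mg c d (h7_mg a b e)
  by_cases ha : a ∈ B <;> by_cases hc' : c ∈ B
  · have := (h7_add h (U := S) hQ hw hR fun x hx y hy => ?_).1 hne
    · omega
    have k1 := fun e => F1 x e y hy
    have k2 := T ha mb y
    have k3 := T hc' md y
    have k4 := fun e => (hP x e).2.2.2 y hy
    have k5 : x = u → y ∈ ({v, a, b} : Finset α) := fun e => g.nu ▸ e ▸ hy
    have k6 : x = v → y ∈ ({u, c, d} : Finset α) := fun e => g.nv ▸ e ▸ hy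
    simp only [mem_union, mem_insert, mem_singleton] at k1 k2 k3 k4 k5 k6 hx ⊢
    grind
  · refine h7_half h g (p := p) (p' := p') hQ hw (fun z hz => ?_) ha
      ((K a ha c cW (Or.inr rfl)).resolve_left hc') (fun e => oB d e (by simp)) hS
      fun x hx => (mem_insert.1 hx).elim (fun e => e ▸ T ha mb) (F1 x)
    have := hP z hz
    simp only [mem_insert, mem_singleton] at this ⊢
    grind
  · refine h7_half h g.sym (p := p) (p' := p') hQ hw (fun z hz => ?_) hc'
      ((K c hc' a aW (Or.inr Sym2.eq_swap)).resolve_left ha) (fun e => oB b e (by simp)) hS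
      fun x hx y hy => ?_
    · have := hP z hz
      simp only [mem_insert, mem_singleton] at this ⊢
      grind
    · have := (mem_insert.1 hx).elim (fun e => e ▸ T hc' md) (F1 x) y hy
      simp only [mem_insert, mem_singleton] at this ⊢
      tauto
  have F : ∀ x ∈ B, ∀ y ∈ nb V τ x, y ∈ B ∨ y ∈ S ∨ (y = b ∧ a ∈ S) ∨ (y = d ∧ c ∈ S) := by
    intro x hx y hy
    have k0 := nb_symm (h.sub (hQ hx)) hy
    have k1 := F1 x hx y hy
    have k2 := oB x hx
    have k3 : y = u → x ∈ ({v, a, b} : Finset α) := fun e => g.nu ▸ e ▸ k0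
    have k4 : y = v → x ∈ ({u, c, d} : Finset α) := fun e => g.nv ▸ e ▸ k0
    have k5 := fun e => (hP y e).2.2.2 x k0
    have k6 : y = b → a ∈ S := fun e => (K x hx a aW (Or.inl
      (Sym2.eq_swap ▸ mb x (e ▸ (mem_nb.1 k0).2.2)))).resolve_left ha
    have k7 : y = d → c ∈ S := fun e => (K x hx c cW (Or.inl
      (Sym2.eq_swap ▸ md x (e ▸ (mem_nb.1 k0).2.2)))).resolve_left hc'
    simp only [mem_insert, mem_singleton] at k1 k2 k3 k4 k5
    grind
  by_cases ea : a ∈ S <;> by_cases ec : c ∈ S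
  · have e : ({a, c} : Finset α) = S := eq_of_subset_of_card_le
      (insert_subset ea (singleton_subset_iff.2 ec)) (hS.trans_eq (card_pair ac).symm)
    have s1 : Sand V τ Q u v a b c d B := ⟨hne, hQ, fun z hz => by
      have := oB z hz
      simp only [mem_insert, mem_singleton] at this ⊢
      grind, fun x hx y hy => by
      have := F x hx y hy
      simp only [← e, mem_insert, mem_singleton] at this ⊢
      tauto⟩
    have s2 : Sand V τ Q u v a b c d (B ∪ {p, p'}) := ⟨hne.mono subset_union_left,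
      union_subset hQ s.sub, fun z hz => (mem_union.1 hz).elim (s1.out z) (s.out z),
      fun x hx y hy => (mem_union.1 hx).elim
        (fun k => (s1.cov x k y hy).imp_left (mem_union_left _))
        fun k => (s.cov x k y hy).imp_left (mem_union_right _)⟩
    have k := s2.one h g a (by simp)
    rw [inter_union_distrib_left, card_union_of_disjoint, s1.one h g a (by simp),
      s.one h g a (by simp)] at k
    · omega
    · exact disjoint_left.2 fun z h1 h2 => oB z (mem_inter.1 h1).2 (by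
        have := (mem_inter.1 h2).2
        simp only [mem_insert, mem_singleton] at this ⊢
        tauto)
  · exact h7_one h g hQ hw hne (fun e => oB u e (by simp)) ea hS fun x hx y hy => by
      have := F x hx y hy
      rw [mem_insert]
      tauto
  · exact h7_one h g.sym hQ hw hne (fun e => oB v e (by simp)) ec hS fun x hx y hy => by
      have := F x hx y hy
      rw [mem_insert]
      tauto
  · have := h.a1 B S hQ hw hne fun x hx y hy => by
      have := F x hx y hy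
      tauto
    omega

end Pool.Agent.Lib.MP_efe3d7_co.H
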