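import Pool.Agent.Lib.MP_efe3d7_co.G.H7

/-! Sizes and features of the six graphs. -/

set_option autoImplicit false

open Finset

namespace Pool.Agent.Lib.MP_efe3d7_co.H

variable {α : Type} [DecidableEq α] {V : Finset α} {τ : Sym2 α → Fin 3}
variable {Q Dr : Finset α} {w : Prop} {u v a b c d : α}

theorem h8_upd (U : Finset α) (σ : Sym2 α → Fin 3) (e : Sym2 α) (t : Fin 3) :
    ne U (Function.update σ e t) ≤ ne U σ + 1 := by
  refine (card_le_card fun f hf => ?_).trans (card_insert_le e _)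
  rw [mem_filter] at hf
  by_cases k : f = e
  · exact k ▸ mem_insert_self _ _
  · exact mem_insert_of_mem (mem_filter.2 ⟨hf.1, by simpa [k] using hf.2⟩)

theorem h8_mono {U U' : Finset α} (k : U' ⊆ U) (σ : Sym2 α → Fin 3) : ne U' σ ≤ ne U σ :=
  card_le_card (filter_subset_filter _ (filter_subset_filter _ (sym2_mono k)))

theorem ne_mg_le {σ : Sym2 α → Fin 3} {U : Finset α} (ha : a ∈ U) (hb : b ∈ U) (hab : a ≠ b) :
    ne (U.erase b) (mg σ a b) ≤ ne U σ := by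
  have k : ∀ e, σ e ≠ 0 → hd σ a b e ≠ 0 := fun e he => by
    rw [hd, Function.update_apply]
    split_ifs
    · decide
    · exact he
  have h1 := ne_mg_lt (V := U) (τ := hd σ a b) (τ' := mg σ a b) ha
    (mem_nb.2 ⟨hb, hab.symm, by simp [hd]⟩) fun e he => by
      unfold mg at he ⊢
      split_ifs at he ⊢
      · exact par_ne_zero.2 ((par_ne_zero.1 he).imp (k _) (k _))
      · exact k _ he
  have h2 : ne U (hd σ a b) ≤ _ := h8_upd U σ s(a, b) 1
  omega

theorem HE.ne0 (h : Cub V τ Q Dr w) (g : HE V τ Q Dr u v a b c d) :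
    ne ((V.erase u).erase v) τ + 3 ≤ ne V τ := by
  have e : ∀ z ∈ nb V τ u, s(u, z) ∈ (pairs V).filter fun e => τ e ≠ 0 := fun z hz =>
    have k := mem_nb.1 hz
    mem_filter.2 ⟨mk_mem_pairs.2 ⟨h.sub g.uQ, k.1, k.2.1.symm⟩, k.2.2⟩
  have d : Disjoint ((pairs ((V.erase u).erase v)).filter fun e => τ e ≠ 0)
      ((nb V τ u).image fun z => s(u, z)) := disjoint_right.2 fun f hf hf' => by
    obtain ⟨z, -, rfl⟩ := mem_image.1 hf
    simpa using (mk_mem_pairs.1 (mem_filter.1 hf').1).1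
  have c3 : ((nb V τ u).image fun z => s(u, z)).card = 3 :=
    (card_image_of_injective _ fun _ _ => Sym2.congr_right.1).trans (h.cub u g.uQ)
  refine ((card_union_of_disjoint d).trans (congrArg _ c3)).ge.trans <| card_le_card (union_subset (filter_subset_filter _ (filter_subset_filter _
    (sym2_mono ((erase_subset _ _).trans (erase_subset _ _))))) fun f hf => ?_)
  obtain ⟨z, hz, rfl⟩ := mem_image.1 hf
  exact e z hz

theorem h8_mem (h : Cub V τ Q Dr w) (g : HE V τ Q Dr u v a b c d) :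
    a ∈ (V.erase u).erase v ∧ b ∈ (V.erase u).erase v ∧ c ∈ ((V.erase u).erase v).erase b ∧
      d ∈ ((V.erase u).erase v).erase b ∧ a ≠ b ∧ c ≠ d := by
  obtain ⟨⟨q1, q2, q3, q4⟩, ⟨-, u1, u2, u3, u4⟩, ⟨v1, v2, v3, v4⟩, k1, -, -, k2, k3, k4⟩ := g.six h
  simp only [mem_erase]
  exact ⟨⟨v1.symm, u1.symm, h.sub q1⟩, ⟨v2.symm, u2.symm, h.sub q2⟩,
    ⟨k2.symm, v3.symm, u3.symm, h.sub q3⟩, ⟨k3.symm, v4.symm, u4.symm, h.sub q4⟩, k1, k4⟩

theorem HE.lt (h : Cub V τ Q Dr w) (g : HE V τ Q Dr u v a b c d) :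
    ne (V.erase v) (mg τ u v) < ne V τ ∧
    ne ((V.erase u).erase v) (hd (hd τ a b) c d) < ne V τ ∧
    ne (((V.erase u).erase v).erase b) (mg (hd τ c d) a b) < ne V τ ∧
    ne ((((V.erase u).erase v).erase b).erase d) (mg (mg τ a b) c d) < ne V τ ∧
    ∀ (p p' : α) (t : Fin 3), ne ((((((V.erase u).erase v).erase b).erase d).erase p).erase p')
      (Function.update (mg (mg τ a b) c d) s(a, c) t) < ne V τ := by
  obtain ⟨m1, m2, m3, m4, k1, k2⟩ := h8_mem h g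
  have n0 := g.ne0 h
  have n1 : ne _ (hd (hd τ a b) c d) ≤ _ := h8_upd ((V.erase u).erase v) (hd τ a b) s(c, d) 1
  have n2 : ne _ (hd τ a b) ≤ _ := h8_upd ((V.erase u).erase v) τ s(a, b) 1
  have n3 : ne _ (hd τ c d) ≤ _ := h8_upd ((V.erase u).erase v) τ s(c, d) 1
  have n4 := ne_mg_le (σ := hd τ c d) m1 m2 k1
  have n5 := ne_mg_le (σ := τ) m1 m2 k1
  have n6 := ne_mg_le (σ := mg τ a b) m3 m4 k2
  refine ⟨ne_mg_lt (h.sub g.uQ) (by simp [g.nu]) fun _ e => e, by omega, by omega, by omega,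
    fun p p' t => lt_of_le_of_lt (h8_mono ((erase_subset _ _).trans (erase_subset _ _)) _) ?_⟩
  have := h8_upd ((((V.erase u).erase v).erase b).erase d) (mg (mg τ a b) c d) s(a, c) t
  omega

theorem h8_hd {U : Finset α} {σ : Sym2 α → Fin 3}
    (k : ∀ y ∈ U, ∀ z ∈ U, y ≠ z → σ s(y, z) ≠ 2) (a b : α) :
    ∀ y ∈ U, ∀ z ∈ U, y ≠ z → hd σ a b s(y, z) ≠ 2 := fun y hy z hz e => by
  rw [hd, Function.update_apply]
  split_ifs
  · decide
  · exact k y hy z hz e

theorem h8_mg {U : Finset α} {σ : Sym2 α → Fin 3}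
    (k : ∀ y ∈ U, ∀ z ∈ U, y ≠ z → σ s(y, z) ≠ 2) (hb : b ∈ U) (a : α) :
    ∀ y ∈ U.erase b, ∀ z ∈ U.erase b, y ≠ z → mg σ a b s(y, z) ≠ 2 := fun y hy z hz e => by
  have p : ∀ s t : Fin 3, s ≠ 2 → t ≠ 2 → par s t ≠ 2 := by decide
  rw [mem_erase] at hy hz
  by_cases e1 : y = a
  · rw [e1, mg_self]
    exact p _ _ (e1 ▸ k y hy.2 z hz.2 e) (k b hb z hz.2 hz.1.symm)
  by_cases e2 : z = a
  · rw [e2, Sym2.eq_swap, mg_self]
    exact p _ _ (e2 ▸ k z hz.2 y hy.2 e.symm) (k b hb y hy.2 hy.1.symm)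
  · rw [mg_of_ne _ _ e1 e2]
    exact k y hy.2 z hz.2 e

theorem HE.nx (h : Cub V τ Q Dr w) (g : HE V τ Q Dr u v a b c d) :
    NX (V.erase v) (mg τ u v) ∧ NX ((V.erase u).erase v) (hd (hd τ a b) c d) ∧
    NX (((V.erase u).erase v).erase b) (mg (hd τ c d) a b) ∧
    NX ((((V.erase u).erase v).erase b).erase d) (mg (mg τ a b) c d) := by
  obtain ⟨-, m2, -, m4, -⟩ := h8_mem h g
  by_cases hw : w
  · have k := (h.all hw).1
    have k' : ∀ y ∈ (V.erase u).erase v, ∀ z ∈ (V.erase u).erase v, y ≠ z → τ s(y, z) ≠ 2 :=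
      fun y hy z hz => k y (mem_of_mem_erase (mem_of_mem_erase hy)) z
        (mem_of_mem_erase (mem_of_mem_erase hz))
    exact ⟨.inr (.inl (h8_mg k (h.sub g.vQ) u)), .inr (.inl (h8_hd (h8_hd k' a b) c d)),
      .inr (.inl (h8_mg (h8_hd k' c d) m2 a)), .inr (.inl (h8_mg (h8_mg k' m2 a) m4 c))⟩
  have c1 := card_sdiff_add_card_eq_card h.sub
  have c2 := h.big hw
  have c3 := g.nine h
  have c4 := pred_card_le_card_erase (s := V) (a := v)
  have c5 := pred_card_le_card_erase (s := V) (a := u)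
  have c6 := pred_card_le_card_erase (s := V.erase u) (a := v)
  have c7 := pred_card_le_card_erase (s := (V.erase u).erase v) (a := b)
  have c8 := pred_card_le_card_erase (s := ((V.erase u).erase v).erase b) (a := d)
  exact ⟨.inl (by omega), .inl (by omega), .inl (by omega), .inl (by omega)⟩

end Pool.Agent.Lib.MP_efe3d7_co.H
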