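import Pool.Agent.Lib.MP_efe3d7_co.G.H7

/-! The feature of the sixth graph. -/

set_option autoImplicit false

open Finset

namespace Pool.Agent.Lib.MP_efe3d7_co.H

variable {α : Type} [DecidableEq α] {V : Finset α} {τ : Sym2 α → Fin 3}
variable {Q Dr : Finset α} {w : Prop} {u v a b c d : α}

theorem h9_even (f : α → α → ℕ) (hs : ∀ x y, f x y = f y x) (h0 : ∀ x, f x x = 0)
    (S : Finset α) : Even (∑ x ∈ S, ∑ y ∈ S, f x y) := by
  induction S using Finset.induction_on with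
  | empty => simp
  | insert z S hz ih =>
    rw [sum_insert hz, sum_insert hz, h0]
    have e1 : ∑ x ∈ S, ∑ y ∈ insert z S, f x y = ∑ x ∈ S, f z x + ∑ x ∈ S, ∑ y ∈ S, f x y := by
      rw [← sum_add_distrib]
      refine sum_congr rfl fun x _ => ?_
      rw [sum_insert hz, hs x z]
    rw [e1]
    obtain ⟨k, hk⟩ := ih
    exact ⟨∑ x ∈ S, f z x + k, by omega⟩

theorem h9_odd (h : Cub V τ Q Dr w) : Q.card % 2 = 1 := by
  have he := h9_even (fun x y : α => if y ≠ x ∧ τ s(x, y) ≠ 0 then 1 else 0)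
    (fun x y => by
      have e : s(x, y) = s(y, x) := Sym2.eq_swap
      by_cases hxy : x = y
      · rw [hxy]
      · have hyx : y ≠ x := fun e => hxy e.symm
        simp only [e, ne_eq, hxy, hyx, not_false_eq_true, true_and])
    (fun x => by simp) Q
  have e1 : ∀ x ∈ Q, ∑ y ∈ Q, (if y ≠ x ∧ τ s(x, y) ≠ 0 then 1 else 0) =
      (nb V τ x ∩ Q).card := by
    intro x _
    rw [← card_filter]
    refine congrArg card ?_
    ext y
    simp only [mem_filter, mem_inter, mem_nb]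
    exact ⟨fun ⟨h1, h2⟩ => ⟨⟨h.sub h1, h2⟩, h1⟩, fun ⟨⟨_, h2⟩, h1⟩ => ⟨h1, h2⟩⟩
  rw [sum_congr rfl e1, ← sum_sdiff h.dsub] at he
  have e2 : ∑ x ∈ Q \ Dr, (nb V τ x ∩ Q).card = ∑ _x ∈ Q \ Dr, 3 := by
    refine sum_congr rfl fun x hx => ?_
    rw [mem_sdiff] at hx
    rw [inter_eq_left.mpr (h.inn x hx.1 hx.2)]
    exact h.cub x hx.1
  have e3 : ∑ x ∈ Dr, (nb V τ x ∩ Q).card = ∑ _x ∈ Dr, 2 := sum_congr rfl h.dout
  rw [e2, e3, sum_const, sum_const, smul_eq_mul, smul_eq_mul, h.d3] at he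
  have e4 := card_sdiff_add_card_eq_card h.dsub
  rw [h.d3] at e4
  obtain ⟨k, hk⟩ := he
  omega

theorem h9_two (h : Cub V τ Q Dr w) (g : HE V τ Q Dr u v a b c d) {z : α} (hz : z ∈ V)
    (hu : z ≠ u) (ha : a ∈ nb V τ z) (hb : b ∈ nb V τ z) : False := by
  obtain ⟨⟨aQ, bQ, -, -⟩, -, -, ab, -⟩ := g.six h
  have zQ : z ∈ Q := h.inn b bQ g.bD (nb_symm hz hb)
  have h1 : a ∈ nb V τ u := by rw [g.nu]; simp
  have h2 : b ∈ nb V τ u := by rw [g.nu]; simp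
  exact ab (h.c4 z zQ u g.uQ hu b hb a ha bQ aQ h2 h1)

theorem h9_one {x u p p' : α} (h3 : dg V τ x = 3) (hu : u ∈ nb V τ x)
    (h1 : (nb V τ x ∩ {p, p'}).card = 1) (hp : u ∉ ({p, p'} : Finset α)) :
    ((nb V τ x \ {p, p'}).erase u).card = 1 := by
  have e1 := card_sdiff_add_card_inter (nb V τ x) {p, p'}
  have e2 : u ∈ nb V τ x \ {p, p'} := mem_sdiff.mpr ⟨hu, hp⟩
  have e3 := card_erase_of_mem e2
  unfold dg at h3
  omega

theorem h9_end (h : Cub V τ Q Dr w) (g : HE V τ Q Dr u v a b c d) {p p' : α}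
    (ha : (nb V τ a ∩ {p, p'}).card = 1) (hb : (nb V τ b ∩ {p, p'}).card = 1)
    (hp : u ∉ ({p, p'} : Finset α)) {N : Finset α}
    (hN : ∀ y, y ∈ N ↔ y = c ∨ ((y ∈ nb V τ a ∨ y ∈ nb V τ b) ∧ y ≠ u ∧ y ≠ p ∧ y ≠ p')) :
    N.card = 3 := by
  obtain ⟨⟨aQ, bQ, -, -⟩, -, -, -⟩ := g.six h
  obtain ⟨-, ac, -, bc, -, -⟩ := g.ind h
  have uV := h.sub g.uQ
  have h1 : u ∈ nb V τ a := nb_symm uV (by rw [g.nu]; simp)
  have h2 : u ∈ nb V τ b := nb_symm uV (by rw [g.nu]; simp)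
  have e1 := h9_one (h.cub a aQ) h1 ha hp
  have e2 := h9_one (h.cub b bQ) h2 hb hp
  have e : N = insert c (((nb V τ a \ {p, p'}).erase u) ∪ ((nb V τ b \ {p, p'}).erase u)) := by
    ext y
    rw [hN]
    simp only [mem_insert, mem_union, mem_erase, mem_sdiff, mem_singleton, not_or]
    tauto
  have hc : c ∉ ((nb V τ a \ {p, p'}).erase u) ∪ ((nb V τ b \ {p, p'}).erase u) := by
    simp only [mem_union, mem_erase, mem_sdiff, mem_nb, not_or]
    exact ⟨fun k => k.2.1.2.2 ac, fun k => k.2.1.2.2 bc⟩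
  have hd : Disjoint ((nb V τ a \ {p, p'}).erase u) ((nb V τ b \ {p, p'}).erase u) := by
    rw [disjoint_left]
    intro y k1 k2
    rw [mem_erase, mem_sdiff] at k1 k2
    exact h9_two h g (nb_sub a k1.2.1) k1.1 (nb_symm (h.sub aQ) k1.2.1)
      (nb_symm (h.sub bQ) k2.2.1)
  rw [e, card_insert_of_notMem hc, card_union_of_disjoint hd, e1, e2]

theorem h9_ta {t : Fin 3} (ac : a ≠ c) {y : α} (ya : y ≠ a) (yc : y ≠ c) :
    Function.update (mg (mg τ a b) c d) s(a, c) t s(a, y) ≠ 0 ↔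
      τ s(a, y) ≠ 0 ∨ τ s(b, y) ≠ 0 := by
  have e : s(a, y) ≠ s(a, c) := by
    intro e
    rcases Sym2.eq_iff.mp e with k | k
    · exact yc k.2
    · exact ya k.2
  rw [Function.update_of_ne e, mg_of_ne _ d ac yc, mg_self, par_ne_zero]

theorem h9_tc {t : Fin 3} (ac : a ≠ c) (ad : a ≠ d) {y : α} (ya : y ≠ a) :
    Function.update (mg (mg τ a b) c d) s(a, c) t s(c, y) ≠ 0 ↔
      τ s(c, y) ≠ 0 ∨ τ s(d, y) ≠ 0 := by
  have e : s(c, y) ≠ s(a, c) := by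
    intro e
    rcases Sym2.eq_iff.mp e with k | k
    · exact ac k.1.symm
    · exact ya k.2
  rw [Function.update_of_ne e, mg_self, mg_of_ne _ b ac.symm ya, mg_of_ne _ b ad.symm ya,
    par_ne_zero]

theorem h9_tz {t : Fin 3} {z y : α} (za : z ≠ a) (zc : z ≠ c) (ya : y ≠ a) (yc : y ≠ c) :
    Function.update (mg (mg τ a b) c d) s(a, c) t s(z, y) = τ s(z, y) := by
  have e : s(z, y) ≠ s(a, c) := by
    intro e
    rcases Sym2.eq_iff.mp e with k | k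
    · exact za k.1
    · exact zc k.1
  rw [Function.update_of_ne e, mg_of_ne _ d zc yc, mg_of_ne _ b za ya]

theorem h9_far (h : Cub V τ Q Dr w) (g : HE V τ Q Dr u v a b c d) {y : α}
    (hy : y ∈ nb V τ a ∨ y ∈ nb V τ b) : y ∈ V ∧ y ≠ v ∧ y ≠ a ∧ y ≠ b ∧ y ≠ c ∧ y ≠ d := by
  obtain ⟨⟨aQ, bQ, -, -⟩, ⟨-, ua, ub, -, -⟩, -, -, ac, ad, bc, bd, -⟩ := g.six h
  obtain ⟨i1, i2, i3, i4, i5, -⟩ := g.ind h
  rcases hy with hy | hy
  · have k := mem_nb.mp hy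
    refine ⟨k.1, ?_, k.2.1, ?_, ?_, ?_⟩
    · rintro rfl
      have k2 := nb_symm (h.sub aQ) hy
      rw [g.nv] at k2
      simp only [mem_insert, mem_singleton] at k2
      rcases k2 with k2 | k2 | k2
      · exact ua k2.symm
      · exact ac k2
      · exact ad k2
    · rintro rfl
      exact k.2.2 i1
    · rintro rfl
      exact k.2.2 i2
    · rintro rfl
      exact k.2.2 i3
  · have k := mem_nb.mp hy
    refine ⟨k.1, ?_, ?_, k.2.1, ?_, ?_⟩
    · rintro rfl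
      have k2 := nb_symm (h.sub bQ) hy
      rw [g.nv] at k2
      simp only [mem_insert, mem_singleton] at k2
      rcases k2 with k2 | k2 | k2
      · exact ub k2.symm
      · exact bc k2
      · exact bd k2
    · rintro rfl
      exact k.2.2 (Sym2.eq_swap ▸ i1)
    · rintro rfl
      exact k.2.2 i4
    · rintro rfl
      exact k.2.2 i5

theorem h9_pp {p p' : α} (s : Sand V τ Q u v a b c d {p, p'}) :
    ∀ z ∈ ({u, v, a, b, c, d} : Finset α), z ≠ p ∧ z ≠ p' := by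
  intro z hz
  exact ⟨fun e => s.out p (by simp) (e ▸ hz), fun e => s.out p' (by simp) (e ▸ hz)⟩

theorem h9_na (h : Cub V τ Q Dr w) (g : HE V τ Q Dr u v a b c d) {p p' : α}
    (s : Sand V τ Q u v a b c d {p, p'}) {t : Fin 3} (ht : t ≠ 0) {W : Finset α}
    (hW : ∀ y, y ∈ W ↔ y ∈ V ∧ y ≠ u ∧ y ≠ v ∧ y ≠ b ∧ y ≠ d ∧ y ≠ p ∧ y ≠ p') (y : α) :
    y ∈ nb W (Function.update (mg (mg τ a b) c d) s(a, c) t) a ↔
      y = c ∨ ((y ∈ nb V τ a ∨ y ∈ nb V τ b) ∧ y ≠ u ∧ y ≠ p ∧ y ≠ p') := by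
  obtain ⟨⟨-, -, cQ, -⟩, ⟨-, -, -, uc, -⟩, ⟨-, -, vc, -⟩, -, ac, -, bc, -, cd⟩ := g.six h
  have cp := h9_pp s c (by simp)
  rw [mem_nb, hW]
  constructor
  · rintro ⟨⟨yV, yu, -, yb, -, yp, yp'⟩, ya, k⟩
    by_cases yc : y = c
    · exact Or.inl yc
    · rw [h9_ta ac ya yc] at k
      exact Or.inr ⟨k.imp (fun k => mem_nb.mpr ⟨yV, ya, k⟩) (fun k => mem_nb.mpr ⟨yV, yb, k⟩),
        yu, yp, yp'⟩
  · rintro (rfl | ⟨k, yu, yp, yp'⟩)
    · refine ⟨⟨h.sub cQ, uc.symm, vc.symm, bc.symm, cd, cp.1, cp.2⟩, ac.symm, ?_⟩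
      rw [Function.update_self]
      exact ht
    · obtain ⟨yV, yv, ya, yb, yc, yd⟩ := h9_far h g k
      refine ⟨⟨yV, yu, yv, yb, yd, yp, yp'⟩, ya, ?_⟩
      rw [h9_ta ac ya yc]
      exact k.imp (fun k => (mem_nb.mp k).2.2) (fun k => (mem_nb.mp k).2.2)

theorem h9_nc (h : Cub V τ Q Dr w) (g : HE V τ Q Dr u v a b c d) {p p' : α}
    (s : Sand V τ Q u v a b c d {p, p'}) {t : Fin 3} (ht : t ≠ 0) {W : Finset α}
    (hW : ∀ y, y ∈ W ↔ y ∈ V ∧ y ≠ u ∧ y ≠ v ∧ y ≠ b ∧ y ≠ d ∧ y ≠ p ∧ y ≠ p') (y : α) :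
    y ∈ nb W (Function.update (mg (mg τ a b) c d) s(a, c) t) c ↔
      y = a ∨ ((y ∈ nb V τ c ∨ y ∈ nb V τ d) ∧ y ≠ v ∧ y ≠ p ∧ y ≠ p') := by
  obtain ⟨⟨aQ, -, -, -⟩, ⟨-, ua, -, -, -⟩, ⟨va, -, -, -⟩, ab, ac, ad, -, -, -⟩ := g.six h
  have ap := h9_pp s a (by simp)
  rw [mem_nb, hW]
  constructor
  · rintro ⟨⟨yV, -, yv, -, yd, yp, yp'⟩, yc, k⟩
    by_cases ya : y = a
    · exact Or.inl ya
    · rw [h9_tc ac ad ya] at k
      exact Or.inr ⟨k.imp (fun k => mem_nb.mpr ⟨yV, yc, k⟩) (fun k => mem_nb.mpr ⟨yV, yd, k⟩),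
        yv, yp, yp'⟩
  · rintro (rfl | ⟨k, yv, yp, yp'⟩)
    · refine ⟨⟨h.sub aQ, ua.symm, va.symm, ab, ad, ap.1, ap.2⟩, ac, ?_⟩
      rw [Sym2.eq_swap, Function.update_self]
      exact ht
    · obtain ⟨yV, yu, yc, yd, ya, yb⟩ := h9_far h g.sym k
      refine ⟨⟨yV, yu, yv, yb, yd, yp, yp'⟩, yc, ?_⟩
      rw [h9_tc ac ad ya]
      exact k.imp (fun k => (mem_nb.mp k).2.2) (fun k => (mem_nb.mp k).2.2)

theorem h9_nz (h : Cub V τ Q Dr w) (g : HE V τ Q Dr u v a b c d) {p p' : α}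
    (s : Sand V τ Q u v a b c d {p, p'}) {t : Fin 3} {W : Finset α}
    (hW : ∀ y, y ∈ W ↔ y ∈ V ∧ y ≠ u ∧ y ≠ v ∧ y ≠ b ∧ y ≠ d ∧ y ≠ p ∧ y ≠ p') {z : α}
    (hz : z ∈ W) (za : z ≠ a) (zc : z ≠ c) :
    dg W (Function.update (mg (mg τ a b) c d) s(a, c) t) z = dg V τ z := by
  obtain ⟨⟨aQ, bQ, cQ, dQ⟩, ⟨-, ua, -, uc, -⟩, ⟨va, -, vc, -⟩, ab, ac, ad, bc, bd, cd⟩ := g.six h
  have ap := h9_pp s a (by simp)
  have cp := h9_pp s c (by simp)
  obtain ⟨zV, zu, zv, zb, zd, zp, zp'⟩ := (hW z).mp hz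
  have aW : a ∈ W := (hW a).mpr ⟨h.sub aQ, ua.symm, va.symm, ab, ad, ap.1, ap.2⟩
  have cW : c ∈ W := (hW c).mpr ⟨h.sub cQ, uc.symm, vc.symm, bc.symm, cd, cp.1, cp.2⟩
  have n1 : u ∉ nb V τ z := fun k => by
    have k2 := nb_symm zV k
    rw [g.nu] at k2
    simp only [mem_insert, mem_singleton] at k2
    tauto
  have n2 : v ∉ nb V τ z := fun k => by
    have k2 := nb_symm zV k
    rw [g.nv] at k2
    simp only [mem_insert, mem_singleton] at k2
    tauto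
  have n3 : ∀ q ∈ ({p, p'} : Finset α), q ∉ nb V τ z := fun q hq k => by
    have k2 := s.cov q hq z (nb_symm zV k)
    simp only [mem_insert, mem_singleton] at k2
    tauto
  have n4 : a ∈ nb V τ z → b ∈ nb V τ z → False := h9_two h g zV zu
  have n5 : c ∈ nb V τ z → d ∈ nb V τ z → False := h9_two h g.sym zV zv
  have sw : ∀ x : α, s(z, x) = s(x, z) := fun x => Sym2.eq_swap
  have ma : a ∈ nb W (Function.update (mg (mg τ a b) c d) s(a, c) t) z ↔
      a ∈ nb V τ z ∨ b ∈ nb V τ z := by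
    rw [mem_nb, sw a, h9_ta ac za zc, mem_nb, mem_nb, sw a, sw b]
    exact ⟨fun k => k.2.2.imp (fun k => ⟨h.sub aQ, za.symm, k⟩) (fun k => ⟨h.sub bQ, zb.symm, k⟩),
      fun k => ⟨aW, za.symm, k.imp (fun k => k.2.2) (fun k => k.2.2)⟩⟩
  have mc : c ∈ nb W (Function.update (mg (mg τ a b) c d) s(a, c) t) z ↔
      c ∈ nb V τ z ∨ d ∈ nb V τ z := by
    rw [mem_nb, sw c, h9_tc ac ad za, mem_nb, mem_nb, sw c, sw d]
    exact ⟨fun k => k.2.2.imp (fun k => ⟨h.sub cQ, zc.symm, k⟩) (fun k => ⟨h.sub dQ, zd.symm, k⟩),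
      fun k => ⟨cW, zc.symm, k.imp (fun k => k.2.2) (fun k => k.2.2)⟩⟩
  have my : ∀ y, y ≠ a → y ≠ c → (y ∈ nb W (Function.update (mg (mg τ a b) c d) s(a, c) t) z ↔
      y ∈ nb V τ z ∧ y ≠ b ∧ y ≠ d) := by
    intro y ya yc
    rw [mem_nb, h9_tz za zc ya yc, hW]
    constructor
    · rintro ⟨⟨yV, -, -, yb, yd, -, -⟩, yz, k⟩
      exact ⟨mem_nb.mpr ⟨yV, yz, k⟩, yb, yd⟩
    · rintro ⟨k, yb, yd⟩
      have k2 := mem_nb.mp k
      exact ⟨⟨k2.1, fun e => n1 (e ▸ k), fun e => n2 (e ▸ k), yb, yd,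
        fun e => n3 p (by simp) (e ▸ k), fun e => n3 p' (by simp) (e ▸ k)⟩, k2.2⟩
  have e : nb W (Function.update (mg (mg τ a b) c d) s(a, c) t) z =
      (nb V τ z).image fun y => if y = b then a else if y = d then c else y := by
    ext y
    rw [mem_image]
    constructor
    · intro k
      by_cases ya : y = a
      · subst ya
        rcases ma.mp k with k | k
        · exact ⟨y, k, by rw [if_neg ab, if_neg ad]⟩
        · exact ⟨b, k, by rw [if_pos rfl]⟩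
      · by_cases yc : y = c
        · subst yc
          rcases mc.mp k with k | k
          · exact ⟨y, k, by rw [if_neg bc.symm, if_neg cd]⟩
          · exact ⟨d, k, by rw [if_neg bd.symm, if_pos rfl]⟩
        · obtain ⟨k1, k2, k3⟩ := (my y ya yc).mp k
          exact ⟨y, k1, by rw [if_neg k2, if_neg k3]⟩
    · rintro ⟨x, k, rfl⟩
      by_cases xb : x = b
      · rw [if_pos xb]
        exact ma.mpr (Or.inr (xb ▸ k))
      · rw [if_neg xb]
        by_cases xd : x = d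
        · rw [if_pos xd]
          exact mc.mpr (Or.inr (xd ▸ k))
        · rw [if_neg xd]
          by_cases xa : x = a
          · rw [xa]
            exact ma.mpr (Or.inl (xa ▸ k))
          · by_cases xc : x = c
            · rw [xc]
              exact mc.mpr (Or.inl (xc ▸ k))
            · exact (my x xa xc).mpr ⟨k, xb, xd⟩
  unfold dg
  rw [e]
  refine card_image_of_injOn fun x hx y hy k => ?_
  rw [mem_coe] at hx hy
  split_ifs at k with k1 k2 k3 k4 k5 k6 k7 k8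
  · rw [k1, k2]
  · exact absurd k ac
  · exact (n4 (k ▸ hy) (k1 ▸ hx)).elim
  · exact absurd k.symm ac
  · rw [k4, k6]
  · exact (n5 (k ▸ hy) (k4 ▸ hx)).elim
  · exact (n4 (k ▸ hx) (k7 ▸ hy)).elim
  · exact (n5 (k ▸ hx) (k8 ▸ hy)).elim
  · exact k

theorem h9_third (h : Cub V τ Q Dr w) (g : HE V τ Q Dr u v a b c d) {p p' r : α}
    (hb : (nb V τ b ∩ {p, p'}).card = 1) (hp : u ∉ ({p, p'} : Finset α))
    (hr : ∀ y ∈ Q, y ≠ u → y ≠ v → y ≠ a → y ≠ b → y ≠ c → y ≠ d → y ≠ p → y ≠ p' → y = r) :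
    r ∈ nb V τ b := by
  obtain ⟨⟨-, bQ, -, -⟩, -, -, -⟩ := g.six h
  have h2 : u ∈ nb V τ b := nb_symm (h.sub g.uQ) (by rw [g.nu]; simp)
  obtain ⟨y, hy⟩ := card_eq_one.mp (h9_one (h.cub b bQ) h2 hb hp)
  have k : y ∈ (nb V τ b \ {p, p'}).erase u := by rw [hy]; simp
  simp only [mem_erase, mem_sdiff, mem_insert, mem_singleton, not_or] at k
  obtain ⟨-, yv, ya, yb, yc, yd⟩ := h9_far h g (Or.inr k.2.1)
  rw [← hr y (h.inn b bQ g.bD k.2.1) k.1 yv ya yb yc yd k.2.2.1 k.2.2.2]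
  exact k.2.1

theorem HE.nx6 (h : Cub V τ Q Dr w) (g : HE V τ Q Dr u v a b c d) {p p' : α} (hp : p ≠ p')
    (s : Sand V τ Q u v a b c d {p, p'}) {t : Fin 3} (ht : t ≠ 0) :
    NX ((((((V.erase u).erase v).erase b).erase d).erase p).erase p')
      (Function.update (mg (mg τ a b) c d) s(a, c) t) := by
  obtain ⟨W, eW⟩ : ∃ W, W = (((((V.erase u).erase v).erase b).erase d).erase p).erase p' :=
    ⟨_, rfl⟩
  have hW : ∀ y, y ∈ W ↔ y ∈ V ∧ y ≠ u ∧ y ≠ v ∧ y ≠ b ∧ y ≠ d ∧ y ≠ p ∧ y ≠ p' := by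
    intro y
    simp only [eW, mem_erase]
    tauto
  have cW : V.card ≤ W.card + 6 := by
    have k1 := pred_card_le_card_erase (s := V) (a := u)
    have k2 := pred_card_le_card_erase (s := V.erase u) (a := v)
    have k3 := pred_card_le_card_erase (s := (V.erase u).erase v) (a := b)
    have k4 := pred_card_le_card_erase (s := ((V.erase u).erase v).erase b) (a := d)
    have k5 := pred_card_le_card_erase (s := (((V.erase u).erase v).erase b).erase d) (a := p)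
    have k6 := pred_card_le_card_erase (s := ((((V.erase u).erase v).erase b).erase d).erase p)
      (a := p')
    rw [eW]
    omega
  rw [← eW]
  have up := h9_pp s u (by simp)
  have vp := h9_pp s v (by simp)
  have up' : u ∉ ({p, p'} : Finset α) := by simp [up.1, up.2]
  have vp' : v ∉ ({p, p'} : Finset α) := by simp [vp.1, vp.2]
  have o := s.one h g
  have da : dg W (Function.update (mg (mg τ a b) c d) s(a, c) t) a = 3 :=
    h9_end h g (o a (by simp)) (o b (by simp)) up' (h9_na h g s ht hW)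
  have dc : dg W (Function.update (mg (mg τ a b) c d) s(a, c) t) c = 3 :=
    h9_end h g.sym (o c (by simp)) (o d (by simp)) vp' (h9_nc h g s ht hW)
  by_cases hw : w
  · refine Or.inr (Or.inr (Or.inl fun z hz => ?_))
    by_cases za : z = a
    · rw [za]
      exact da
    · by_cases zc : z = c
      · rw [zc]
        exact dc
      · rw [h9_nz h g s hW hz za zc]
        exact (h.all hw).2 z ((hW z).mp hz).1
  by_cases h14 : 14 ≤ V.card
  · exact Or.inl (by omega)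
  have q9 : Q.card = 9 := by
    have k1 := h.big hw
    have k2 := card_sdiff_add_card_eq_card h.sub
    have k3 := g.nine h
    have k4 := h9_odd h
    omega
  obtain ⟨⟨aQ, bQ, cQ, dQ⟩, ⟨uv, ua, ub, uc, ud⟩, ⟨va, vb, vc, vd⟩, ab, ac, ad, bc, bd, cd⟩ :=
    g.six h
  have ap := h9_pp s a (by simp)
  have bp := h9_pp s b (by simp)
  have cp := h9_pp s c (by simp)
  have dp := h9_pp s d (by simp)
  have e8 : ({u, v, a, b, c, d, p, p'} : Finset α).card = 8 := by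
    rw [card_insert_of_notMem, card_insert_of_notMem, card_insert_of_notMem,
      card_insert_of_notMem, card_insert_of_notMem, card_insert_of_notMem, card_pair hp]
    · simp [dp.1, dp.2]
    · simp [cp.1, cp.2, cd]
    · simp [bp.1, bp.2, bc, bd]
    · simp [ap.1, ap.2, ab, ac, ad]
    · simp [vp.1, vp.2, va, vb, vc, vd]
    · simp [up.1, up.2, uv, ua, ub, uc, ud]
  have s8 : ({u, v, a, b, c, d, p, p'} : Finset α) ⊆ Q := by
    have k1 : p ∈ Q := s.sub (by simp)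
    have k2 : p' ∈ Q := s.sub (by simp)
    simp only [insert_subset_iff, singleton_subset_iff]
    exact ⟨g.uQ, g.vQ, aQ, bQ, cQ, dQ, k1, k2⟩
  have e1 : (Q \ {u, v, a, b, c, d, p, p'}).card = 1 := by
    have k := card_sdiff_add_card_eq_card s8
    omega
  obtain ⟨r, hr⟩ := card_eq_one.mp e1
  have hr1 : r ∈ Q \ {u, v, a, b, c, d, p, p'} := by rw [hr]; simp
  simp only [mem_sdiff, mem_insert, mem_singleton, not_or] at hr1
  obtain ⟨rQ, ru, rv, ra, rb, rc, rd, rp, rp'⟩ := hr1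
  have hr2 : ∀ y ∈ Q, y ≠ u → y ≠ v → y ≠ a → y ≠ b → y ≠ c → y ≠ d → y ≠ p → y ≠ p' →
      y = r := by
    intro y k0 k1 k2 k3 k4 k5 k6 k7 k8
    rw [← mem_singleton, ← hr]
    simp only [mem_sdiff, mem_insert, mem_singleton, not_or]
    exact ⟨k0, k1, k2, k3, k4, k5, k6, k7, k8⟩
  have r1 := h9_third h g (o b (by simp)) up' hr2
  have r2 := h9_third h g.sym (o d (by simp)) vp'
    fun y k0 k1 k2 k3 k4 k5 k6 k7 k8 => hr2 y k0 k2 k1 k5 k6 k3 k4 k7 k8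
  have rW : r ∈ W := (hW r).mpr ⟨h.sub rQ, ru, rv, rb, rd, rp, rp'⟩
  refine Or.inr (Or.inr (Or.inr (Or.inl ⟨a, ?_, c, ?_, r, ?_, ?_, da, dc, ?_⟩)))
  · exact (hW a).mpr ⟨h.sub aQ, ua.symm, va.symm, ab, ad, ap.1, ap.2⟩
  · exact (h9_na h g s ht hW c).mpr (Or.inl rfl)
  · exact (h9_na h g s ht hW r).mpr (Or.inr ⟨Or.inr r1, ru, rp, rp'⟩)
  · exact (h9_nc h g s ht hW r).mpr (Or.inr ⟨Or.inr r2, rv, rp, rp'⟩)
  · rw [h9_nz h g s hW rW ra rc]
    exact h.cub r rQ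

end Pool.Agent.Lib.MP_efe3d7_co.H
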