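import Pool.Agent.Lib.MP_efe3d7_co.G.H7

/-! The values in the cubic case. -/

set_option autoImplicit false

open Finset

namespace Pool.Agent.Lib.MP_efe3d7_co.H

variable {α : Type} [DecidableEq α] {V : Finset α} {τ : Sym2 α → Fin 3}
variable {Q Dr : Finset α} {w : Prop} {u v a b c d : α}

variable [Fintype α] {x e : ℝ}

/-- A vertex with two hard edges. -/
theorem ff_ser (hx : 0 < x) {U : Finset α} {z : α} (hz : z ∉ U) (ha : a ∈ U) (hb : b ∈ U)
    (hab : a ≠ b) {y : Sym2 α → ℝ} (h1 : y s(z, a) = 0) (h2 : y s(z, b) = 0)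
    (h3 : ∀ r ∈ U, r ≠ a → r ≠ b → y s(z, r) = 1) :
    ff x (insert z U) y = ff x U (Function.update y s(a, b) 0) - x * ff x U y := by
  have hza : a ≠ z := fun k => hz (k ▸ ha)
  have hzb : b ≠ z := fun k => hz (k ▸ hb)
  have hV : (insert z U).erase z = U := erase_insert hz
  have off : ∀ (y : Sym2 α → ℝ) (c : α) (t : ℝ), ∀ p ∈ U, ∀ q ∈ U,
      Function.update y s(c, z) t s(p, q) = y s(p, q) := fun y c t p hp q hq => by
    have hp' : p ≠ z := fun k => hz (k ▸ hp)
    have hq' : q ≠ z := fun k => hz (k ▸ hq)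
    exact Function.update_of_ne (by simp [hp', hq']) _ _
  have at' : ∀ (y : Sym2 α → ℝ) (c : α) (t : ℝ), c ≠ z → ∀ r, r ≠ c →
      Function.update y s(c, z) t s(z, r) = y s(z, r) := fun y c t hc r hr =>
    Function.update_of_ne (by simp [hc.symm, hr]) _ _
  have e1 : ff x U (mergeW y a z) = ff x U (Function.update y s(a, b) 0) := by
    have key : ∀ r ∈ U, a ≠ r → mergeW y a z s(a, r) = Function.update y s(a, b) 0 s(a, r) := by
      intro r hr har
      rw [mergeW_self]
      by_cases k : r = b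
      · rw [k, h2, mul_zero, Function.update_self]
      · rw [h3 r hr har.symm k, mul_one,
          Function.update_of_ne fun m => k (Sym2.congr_right.1 m)]
    refine ff_congr fun p hp q hq hpq => ?_
    by_cases k1 : p = a
    · subst k1; exact key q hq hpq
    by_cases k2 : q = a
    · subst k2; rw [Sym2.eq_swap]; exact key p hp hpq.symm
    rw [mergeW_of_ne _ _ k1 k2, Function.update_of_ne (by simp [k1, k2])]
  have e2 : ff x U (mergeW (Function.update y s(a, z) 1) b z) = ff x U y := by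
    have key : ∀ r ∈ U, b ≠ r → mergeW (Function.update y s(a, z) 1) b z s(b, r) = y s(b, r) := by
      intro r hr hbr
      rw [mergeW_self, off y a 1 b hb r hr]
      by_cases k : r = a
      · rw [k, Sym2.eq_swap (a := z), Function.update_self, mul_one]
      · rw [at' y a 1 hza r k, h3 r hr k hbr.symm, mul_one]
    refine ff_congr fun p hp q hq hpq => ?_
    by_cases k1 : p = b
    · subst k1; exact key q hq hpq
    by_cases k2 : q = b
    · subst k2; rw [Sym2.eq_swap (a := p)]; exact key p hp hpq.symm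
    rw [mergeW_of_ne _ _ k1 k2, off y a 1 p hp q hq]
  have e3 : ff x (insert z U) (Function.update (Function.update y s(a, z) 1) s(b, z) 1) =
      -(1 + x) * ff x U y := by
    rw [ff_isolated hx hz]
    · rw [ff_congr fun p hp q hq _ => (off _ b 1 p hp q hq).trans (off y a 1 p hp q hq)]
    · intro r hr
      by_cases k : r = b
      · rw [k, Sym2.eq_swap (a := z), Function.update_self]
      rw [at' _ b 1 hzb r k]
      by_cases k' : r = a
      · rw [k', Sym2.eq_swap (a := z), Function.update_self]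
      · rw [at' _ a 1 hza r k', h3 r hr k' k]
  rw [ff_del hx (mem_insert_of_mem ha) (mem_insert_self z U) hza y,
    ff_del hx (mem_insert_of_mem hb) (mem_insert_self z U) hzb (Function.update y s(a, z) 1),
    hV, e1, e2, e3, Sym2.eq_swap (a := b) (b := z), at' y a 1 hza b hab.symm, h2,
    Sym2.eq_swap (a := a) (b := z), h1]
  ring

theorem hv_congr {U : Finset α} {σ σ' : Sym2 α → Fin 3}
    (h : ∀ p ∈ U, ∀ q ∈ U, p ≠ q → σ s(p, q) = σ' s(p, q)) : F2 x e U σ = F2 x e U σ' :=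
  ff_congr fun p hp q hq hpq => by rw [h p hp q hq hpq]

theorem hv_mg {U : Finset α} {σ : Sym2 α → Fin 3}
    (h : ∀ r ∈ U, r ≠ a → ¬(σ s(a, r) = 2 ∧ σ s(b, r) = 2)) :
    ff x U (mergeW (fun s => wt e (σ s)) a b) = F2 x e U (mg σ a b) := by
  have key : ∀ r ∈ U, a ≠ r →
      mergeW (fun s => wt e (σ s)) a b s(a, r) = wt e (mg σ a b s(a, r)) := fun r hr har => by
    rw [mergeW_self, mg_self, s5_wt_par e (h r hr har.symm)]
  refine ff_congr fun p hp q hq hpq => ?_
  by_cases k1 : p = a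
  · subst k1; exact key q hq hpq
  by_cases k2 : q = a
  · subst k2; rw [Sym2.eq_swap]; exact key p hp hpq.symm
  rw [mergeW_of_ne _ _ k1 k2, mg_of_ne _ _ k1 k2]

theorem hv_del (hx : 0 < x) {U : Finset α} (ha : a ∈ U) (hb : b ∈ U) (hab : a ≠ b)
    {σ : Sym2 α → Fin 3} (h1 : σ s(a, b) = 1) (h5 : ∀ r ∈ U, r ≠ b → σ s(b, r) ≠ 2) :
    F2 x e U σ = F2 x e U (Function.update σ s(a, b) 0) + F2 x e (U.erase b) (mg σ a b) := by
  rw [← hv_mg fun r hr _ k => h5 r (mem_of_mem_erase hr) (ne_of_mem_erase hr) k.2, F2, F2, wt_upd,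
    wt0, ff_del hx ha hb hab, h1, wt1]
  ring

theorem hv_typed (hx : 0 < x) {U : Finset α} {z : α} (hz : z ∉ U) (ha : a ∈ U) (hb : b ∈ U)
    (hab : a ≠ b) {σ : Sym2 α → Fin 3} (h1 : σ s(z, a) = 1) (h2 : σ s(z, b) = 1)
    (h3 : ∀ r ∈ U, r ≠ a → r ≠ b → σ s(z, r) = 0) (h4 : σ s(a, b) = 0)
    (h5 : ∀ r ∈ U, r ≠ b → σ s(b, r) ≠ 2) :
    F2 x e (insert z U) σ = (1 - x) * F2 x e U (hd σ a b) + x * F2 x e (U.erase b) (mg σ a b) := by
  have off : ∀ p q, p ≠ b → q ≠ b → hd σ a b s(p, q) = σ s(p, q) := fun p q hp hq =>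
    Function.update_of_ne (by simp [hp, hq]) _ _
  have k := hv_del (e := e) hx ha hb hab (σ := hd σ a b) (Function.update_self _ _ _)
    fun r hr hrb => by
      rw [hd, Function.update_apply]
      split_ifs
      · decide
      · exact h5 r hr hrb
  have k1 : Function.update (hd σ a b) s(a, b) 0 = σ := by
    rw [hd, Function.update_idem, ← h4, Function.update_eq_self]
  have k2 : F2 x e (U.erase b) (mg (hd σ a b) a b) = F2 x e (U.erase b) (mg σ a b) := by
    have key : ∀ r ∈ U.erase b, a ≠ r → mg (hd σ a b) a b s(a, r) = mg σ a b s(a, r) := by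
      intro r hr har
      rw [mg_self, mg_self, off a r hab (ne_of_mem_erase hr), hd,
        Function.update_of_ne (by simp [hab.symm, har.symm])]
    refine hv_congr fun p hp q hq hpq => ?_
    by_cases k1 : p = a
    · subst k1; exact key q hq hpq
    by_cases k2 : q = a
    · subst k2; rw [Sym2.eq_swap]; exact key p hp hpq.symm
    rw [mg_of_ne _ _ k1 k2, mg_of_ne _ _ k1 k2, off p q (ne_of_mem_erase hp) (ne_of_mem_erase hq)]
  rw [k1, k2] at k
  have k3 := ff_ser hx hz ha hb hab (y := fun s => wt e (σ s)) (by rw [h1, wt1]) (by rw [h2, wt1])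
    fun r hr r1 r2 => by rw [h3 r hr r1 r2, wt0]
  rw [← wt1 e, ← wt_upd] at k3
  change F2 x e (insert z U) σ = F2 x e U (hd σ a b) - x * F2 x e U σ at k3
  rw [k3, k]
  ring

theorem HE.val (hx : 0 < x) (h : Cub V τ Q Dr w) (g : HE V τ Q Dr u v a b c d) :
    F2 x e V τ = F2 x e (V.erase v) (mg τ u v) +
      (1 - x) ^ 2 * F2 x e ((V.erase u).erase v) (hd (hd τ a b) c d) +
      x * (1 - x) * (F2 x e (((V.erase u).erase v).erase b) (mg (hd τ c d) a b) +
        F2 x e (((V.erase v).erase u).erase d) (mg (hd τ a b) c d)) +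
      x ^ 2 * F2 x e ((((V.erase u).erase v).erase b).erase d) (mg (mg τ a b) c d) := by
  obtain ⟨⟨aQ, bQ, cQ, dQ⟩, ⟨uv, ua, ub, uc, ud⟩, ⟨va, vb, vc, vd⟩, ab, ac, ad, bc, bd', cd⟩ :=
    g.six h
  obtain ⟨tab, -, tad, -, tbd, tcd⟩ := g.ind h
  have uV := h.sub g.uQ
  have vV := h.sub g.vQ
  have n2 : ∀ p ∈ Q, p ∉ Dr → ∀ r ∈ V, r ≠ p → τ s(p, r) ≠ 2 := fun p hp hD r hr hrp k =>
    h.hard p hp r (h.inn p hp hD (mem_nb.2 ⟨hr, hrp, by rw [k]; decide⟩)) hrp.symm k
  have t1 : ∀ p ∈ Q, p ∉ Dr → ∀ r ∈ nb V τ p, τ s(p, r) = 1 := fun p hp hD r hr => by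
    obtain ⟨r1, r2, r3⟩ := mem_nb.1 hr
    have r4 := n2 p hp hD r r1 r2
    generalize τ s(p, r) = t at r3 r4
    revert t
    decide
  have t0 : ∀ p, ∀ r ∈ V, r ≠ p → r ∉ nb V τ p → τ s(p, r) = 0 := fun p r hr hrp k => by
    by_contra m
    exact k (mem_nb.2 ⟨hr, hrp, m⟩)
  have tv : ∀ r ∈ V, r ≠ u → r ≠ v → r ≠ c → r ≠ d → τ s(v, r) = 0 := fun r hr r1 r2 r3 r4 =>
    t0 v r hr r2 (by rw [g.nv]; simp [r1, r3, r4])
  have tvc : τ s(v, c) = 1 := t1 v g.vQ g.vD c (by rw [g.nv]; simp)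
  have tvd : τ s(v, d) = 1 := t1 v g.vQ g.vD d (by rw [g.nv]; simp)
  have off : ∀ p q, p ≠ u → q ≠ u → Function.update τ s(u, v) 0 s(p, q) = τ s(p, q) :=
    fun p q hp hq => Function.update_of_ne (by simp [hp, hq]) _ _
  have atu : ∀ r, r ≠ v → Function.update τ s(u, v) 0 s(u, r) = τ s(u, r) :=
    fun r hr => Function.update_of_ne (fun m => hr (Sym2.congr_right.1 m)) _ _
  have hoff : ∀ p q, p ≠ a → p ≠ b → hd τ a b s(p, q) = τ s(p, q) := fun p q h1 h2 =>
    Function.update_of_ne (by simp [h1, h2]) _ _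
  have s0 := hv_del (e := e) hx uV vV uv (t1 u g.uQ g.uD v (by rw [g.nu]; simp)) (n2 v g.vQ g.vD)
  have s1 := hv_typed (e := e) hx (notMem_erase u V) (mem_erase.2 ⟨ua.symm, h.sub aQ⟩)
    (mem_erase.2 ⟨ub.symm, h.sub bQ⟩) ab (σ := Function.update τ s(u, v) 0)
    ((atu a va.symm).trans (t1 u g.uQ g.uD a (by rw [g.nu]; simp)))
    ((atu b vb.symm).trans (t1 u g.uQ g.uD b (by rw [g.nu]; simp)))
    (fun r hr r1 r2 => by
      by_cases k : r = v
      · rw [k, Function.update_self]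
      · rw [atu r k]
        exact t0 u r (mem_of_mem_erase hr) (ne_of_mem_erase hr) (by rw [g.nu]; simp [k, r1, r2]))
    ((off a b ua.symm ub.symm).trans tab)
    fun r hr r1 => by
      rw [off b r ub.symm (ne_of_mem_erase hr)]
      exact n2 b bQ g.bD r (mem_of_mem_erase hr) r1
  have c1 : F2 x e (V.erase u) (hd (Function.update τ s(u, v) 0) a b) =
      F2 x e (V.erase u) (hd τ a b) := hv_congr fun p hp q hq _ => by
    rw [hd, hd, Function.update_apply, Function.update_apply τ s(a, b),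
      off p q (ne_of_mem_erase hp) (ne_of_mem_erase hq)]
  have c2 : F2 x e ((V.erase u).erase b) (mg (Function.update τ s(u, v) 0) a b) =
      F2 x e ((V.erase u).erase b) (mg τ a b) := hv_congr fun p hp q hq _ => by
    have hp' := ne_of_mem_erase (mem_of_mem_erase hp)
    have hq' := ne_of_mem_erase (mem_of_mem_erase hq)
    by_cases k1 : p = a
    · rw [k1, mg_self, mg_self, off a q ua.symm hq', off b q ub.symm hq']
    by_cases k2 : q = a
    · rw [k2, Sym2.eq_swap (a := p), mg_self, mg_self, off a p ua.symm hp', off b p ub.symm hp']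
    rw [mg_of_ne _ _ k1 k2, mg_of_ne _ _ k1 k2, off p q hp' hq']
  rw [insert_erase uV, c1, c2] at s1
  have s2 := hv_typed (e := e) hx (notMem_erase v (V.erase u))
    (mem_erase.2 ⟨vc.symm, mem_erase.2 ⟨uc.symm, h.sub cQ⟩⟩)
    (mem_erase.2 ⟨vd.symm, mem_erase.2 ⟨ud.symm, h.sub dQ⟩⟩) cd (σ := hd τ a b)
    ((hoff v c va vb).trans tvc) ((hoff v d va vb).trans tvd)
    (fun r hr r1 r2 => (hoff v r va vb).trans (tv r (mem_of_mem_erase (mem_of_mem_erase hr))
      (ne_of_mem_erase (mem_of_mem_erase hr)) (ne_of_mem_erase hr) r1 r2))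
    ((hoff c d ac.symm bc.symm).trans tcd)
    fun r hr r1 => by
      rw [hoff d r ad.symm bd'.symm]
      exact n2 d dQ g.dD r (mem_of_mem_erase (mem_of_mem_erase hr)) r1
  have p0 : par 0 0 = 0 := by decide
  have s3 := hv_typed (e := e) hx (notMem_erase v ((V.erase u).erase b))
    (mem_erase.2 ⟨vc.symm, mem_erase.2 ⟨bc.symm, mem_erase.2 ⟨uc.symm, h.sub cQ⟩⟩⟩)
    (mem_erase.2 ⟨vd.symm, mem_erase.2 ⟨bd'.symm, mem_erase.2 ⟨ud.symm, h.sub dQ⟩⟩⟩) cd
    (σ := mg τ a b) ((mg_of_ne τ b va ac.symm).trans tvc) ((mg_of_ne τ b va ad.symm).trans tvd)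
    (fun r hr r1 r2 => by
      by_cases k : r = a
      · rw [k, Sym2.eq_swap, mg_self, Sym2.eq_swap (a := a), Sym2.eq_swap (a := b),
          tv a (h.sub aQ) ua.symm va.symm ac ad, tv b (h.sub bQ) ub.symm vb.symm bc bd', p0]
      · have hr' := mem_of_mem_erase (mem_of_mem_erase hr)
        rw [mg_of_ne τ b va k]
        exact tv r (mem_of_mem_erase hr') (ne_of_mem_erase hr') (ne_of_mem_erase hr) r1 r2)
    ((mg_of_ne τ b ac.symm ad.symm).trans tcd)
    fun r hr r1 => by
      by_cases k : r = a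
      · rw [k, Sym2.eq_swap, mg_self, tad, tbd, p0]
        decide
      · rw [mg_of_ne τ b ad.symm k]
        exact n2 d dQ g.dD r (mem_of_mem_erase (mem_of_mem_erase (mem_of_mem_erase hr))) r1
  have c3 : hd (mg τ a b) c d = mg (hd τ c d) a b := by
    have key : ∀ r, hd (mg τ a b) c d s(a, r) = mg (hd τ c d) a b s(a, r) := fun r => by
      rw [mg_self, hd, hd, Function.update_of_ne (by simp [ac, ad]),
        Function.update_of_ne (by simp [ac, ad]), Function.update_of_ne (by simp [bc, bd']),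
        mg_self]
    funext s
    induction s using Sym2.ind with
    | h p q =>
      by_cases k1 : p = a
      · rw [k1, key]
      by_cases k2 : q = a
      · rw [k2, Sym2.eq_swap, key]
      rw [mg_of_ne _ _ k1 k2, hd, hd, Function.update_apply, Function.update_apply τ,
        mg_of_ne _ _ k1 k2]
  rw [insert_erase (mem_erase.2 ⟨uv.symm, vV⟩)] at s2
  rw [insert_erase (mem_erase.2 ⟨vb, mem_erase.2 ⟨uv.symm, vV⟩⟩), c3,
    erase_right_comm (a := b) (b := v)] at s3
  rw [erase_right_comm (a := v) (b := u), s0, s1, s2, s3]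
  ring

end Pool.Agent.Lib.MP_efe3d7_co.H
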