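import Pool.Agent.Lib.MP_efe3d7_co.G.HV

/-! The value in the case of a pair. -/

set_option autoImplicit false

open Finset

namespace Pool.Agent.Lib.MP_efe3d7_co.H

variable {α : Type} [DecidableEq α] {V : Finset α} {τ : Sym2 α → Fin 3}
variable {Q Dr : Finset α} {w : Prop} {u v a b c d : α}

/-- The types at one vertex of the pair after the two merges. -/
theorem hw_types (h : Cub V τ Q Dr w) (g : HE V τ Q Dr u v a b c d) {p p' : α}
    (hp : p ≠ p') (s : Sand V τ Q u v a b c d {p, p'}) :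
    mg (mg τ a b) c d s(p, p') = 1 ∧ mg (mg τ a b) c d s(p, a) = 1 ∧
      mg (mg τ a b) c d s(p, c) = 1 ∧
      ∀ r ∈ V, r ≠ p → r ≠ p' → r ≠ a → r ≠ b → r ≠ c → r ≠ d →
        mg (mg τ a b) c d s(p, r) = 0 := by
  obtain ⟨⟨aQ, bQ, cQ, dQ⟩, -, -, ⟨ab, ac, ad, bc, bd', cd⟩⟩ := g.six h
  obtain ⟨a', c', ha', hc', hn⟩ := s.nbp h g hp
  have pQ : p ∈ Q := s.sub (by simp)
  have p'Q : p' ∈ Q := s.sub (by simp)
  have o1 := s.out p (by simp)
  have o2 := s.out p' (by simp)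
  simp only [mem_insert, mem_singleton, not_or] at o1 o2
  obtain ⟨-, -, pa, pb, pc, pd⟩ := o1
  obtain ⟨-, -, qa, qb, qc, qd⟩ := o2
  have k : ∀ t : Fin 3, t ≠ 0 → t ≠ 2 → t = 1 := by decide
  have one : ∀ z ∈ Q, z ∈ nb V τ p → τ s(z, p) = 1 := fun z hz hm => by
    have := mem_nb.1 hm
    rw [Sym2.eq_swap]
    exact k _ this.2.2 (h.hard p pQ z hz this.2.1.symm)
  have pl : ∀ t : Fin 3, par 1 t = 1 := by decide
  have pr : ∀ t : Fin 3, par t 1 = 1 := by decide
  refine ⟨?_, ?_, ?_, fun r hr h1 h2 h3 h4 h5 h6 => ?_⟩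
  · rw [mg_of_ne _ _ pc qc, mg_of_ne _ _ pa qa, Sym2.eq_swap]
    exact one p' p'Q (by rw [hn]; simp)
  · rw [mg_of_ne _ _ pc ac, Sym2.eq_swap, mg_self]
    rcases ha' with rfl | rfl
    · rw [one a' aQ (by rw [hn]; simp), pl]
    · rw [one a' bQ (by rw [hn]; simp), pr]
  · rw [Sym2.eq_swap, mg_self, mg_of_ne _ _ ac.symm pa, mg_of_ne _ _ ad.symm pa]
    rcases hc' with rfl | rfl
    · rw [one c' cQ (by rw [hn]; simp), pl]
    · rw [one c' dQ (by rw [hn]; simp), pr]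
  · rw [mg_of_ne _ _ pc h5, mg_of_ne _ _ pa h3]
    by_contra h0
    have hm : r ∈ nb V τ p := mem_nb.2 ⟨hr, h1, h0⟩
    rw [hn] at hm
    simp only [mem_insert, mem_singleton] at hm
    rcases hm with e | e | e
    · exact h2 e
    · rcases ha' with f | f
      · exact h3 (e.trans f)
      · exact h4 (e.trans f)
    · rcases hc' with f | f
      · exact h5 (e.trans f)
      · exact h6 (e.trans f)

variable [Fintype α] {x e : ℝ}

theorem hw_ser (hx : 0 < x) {U : Finset α} {z : α} (hz : z ∉ U) (ha : a ∈ U) (hc : c ∈ U)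
    (hac : a ≠ c) {y y' : Sym2 α → ℝ} (h1 : y' s(z, a) = 0) (h2 : y' s(z, c) = 0)
    (h3 : ∀ r ∈ U, r ≠ a → r ≠ c → y' s(z, r) = 1)
    (hy : ∀ r ∈ U, ∀ t ∈ U, r ≠ t → s(r, t) ≠ s(a, c) → y' s(r, t) = y s(r, t)) :
    ff x (insert z U) y' =
      Dv x U y s(a, c) - x * (Dv x U y s(a, c) - y' s(a, c) * Sv x U y s(a, c)) := by
  rw [ff_ser hx hz ha hc hac h1 h2 h3, ff_self U y' s(a, c), ← Dv_congr hy, ← Sv_congr hy]
  rfl

/-- Two adjacent vertices joined to the same two vertices. -/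
theorem hw_pair (hx : 0 < x) {U : Finset α} {p p' : α} (hp : p ∉ U) (hq : p' ∉ U) (hpq : p ≠ p')
    (ha : a ∈ U) (hc : c ∈ U) (hac : a ≠ c) {y : Sym2 α → ℝ} (h0 : y s(p, p') = 0)
    (h1 : y s(p, a) = 0) (h2 : y s(p, c) = 0) (h3 : ∀ r ∈ U, r ≠ a → r ≠ c → y s(p, r) = 1)
    (k1 : y s(p', a) = 0) (k2 : y s(p', c) = 0) (k3 : ∀ r ∈ U, r ≠ a → r ≠ c → y s(p', r) = 1)
    (hy : y s(a, c) = 1) :
    ff x (insert p (insert p' U)) y =
      (1 - x) * (2 - x) * Dv x U y s(a, c) + x * (1 - x) * Sv x U y s(a, c) := by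
  have np : ∀ r ∈ U, r ≠ p := fun r hr e => hp (e ▸ hr)
  have nq : ∀ r ∈ U, r ≠ p' := fun r hr e => hq (e ▸ hr)
  have er : (insert p (insert p' U)).erase p' = insert p U := by
    rw [erase_insert_of_ne hpq, erase_insert hq]
  have u1 : ∀ r t, r ≠ p → t ≠ p → Function.update y s(p, p') 1 s(r, t) = y s(r, t) :=
    fun r t hr ht => Function.update_of_ne (by simp [hr, ht]) _ _
  have u2 : ∀ r, r ≠ p' → Function.update y s(p, p') 1 s(p, r) = y s(p, r) :=
    fun r hr => Function.update_of_ne (fun e => hr (Sym2.congr_right.1 e)) _ _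
  have u3 : ∀ (y' : Sym2 α → ℝ) r, Function.update y' s(a, c) 0 s(p', r) = y' s(p', r) :=
    fun y' r => Function.update_of_ne (by simp [(nq a ha).symm, (nq c hc).symm]) _ _
  have m1 := hw_ser hx hp ha hc hac (y := y) (y' := mergeW y p p')
    (by rw [mergeW_self, h1, zero_mul]) (by rw [mergeW_self, h2, zero_mul])
    (fun r hr ra rc => by rw [mergeW_self, h3 r hr ra rc, k3 r hr ra rc, one_mul])
    (fun r hr t ht _ _ => mergeW_of_ne _ _ (np r hr) (np t ht))
  have m2 := hw_ser hx hq ha hc hac (y := y) (y' := Function.update y s(p, p') 1)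
    (by rw [u1 _ _ hpq.symm (np a ha), k1]) (by rw [u1 _ _ hpq.symm (np c hc), k2])
    (fun r hr ra rc => by rw [u1 _ _ hpq.symm (np r hr), k3 r hr ra rc])
    (fun r hr t ht _ _ => u1 _ _ (np r hr) (np t ht))
  have m3 := hw_ser hx hq ha hc hac (y := y)
    (y' := Function.update (Function.update y s(p, p') 1) s(a, c) 0)
    (by rw [u3, u1 _ _ hpq.symm (np a ha), k1]) (by rw [u3, u1 _ _ hpq.symm (np c hc), k2])
    (fun r hr ra rc => by rw [u3, u1 _ _ hpq.symm (np r hr), k3 r hr ra rc])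
    (fun r hr t ht _ hne => by rw [Function.update_of_ne hne, u1 _ _ (np r hr) (np t ht)])
  have m4 := ff_ser hx (U := insert p' U) (z := p) (by simp [hpq, hp]) (mem_insert_of_mem ha)
    (mem_insert_of_mem hc) hac (y := Function.update y s(p, p') 1)
    (by rw [u2 _ (nq a ha), h1]) (by rw [u2 _ (nq c hc), h2]) (fun r hr ra rc => by
      rcases mem_insert.1 hr with rfl | hr
      · exact Function.update_self _ _ _
      · rw [u2 _ (nq r hr), h3 r hr ra rc])
  rw [ff_del hx (mem_insert_self _ _) (mem_insert_of_mem (mem_insert_self _ _)) hpq, er, m1, m4,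
    m2, m3, Function.update_self, u1 _ _ (np a ha) (np c hc),
    mergeW_of_ne _ _ (np a ha) (np c hc), hy, h0]
  ring

theorem HE.val6 (hx : 0 < x) (h : Cub V τ Q Dr w) (g : HE V τ Q Dr u v a b c d) {p p' : α}
    (hp : p ≠ p') (s : Sand V τ Q u v a b c d {p, p'}) :
    e * F2 x e ((((V.erase u).erase v).erase b).erase d) (mg (mg τ a b) c d) =
      (1 - x) * (((2 - x) * e - x) *
        F2 x e ((((((V.erase u).erase v).erase b).erase d).erase p).erase p')
          (Function.update (mg (mg τ a b) c d) s(a, c) 1) +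
        x * F2 x e ((((((V.erase u).erase v).erase b).erase d).erase p).erase p')
          (Function.update (mg (mg τ a b) c d) s(a, c) 2)) := by
  obtain ⟨⟨aQ, -, cQ, -⟩, ⟨-, ua, -, uc, -⟩, ⟨va, -, vc, -⟩, ⟨ab, ac, ad, bc, -, cd⟩⟩ := g.six h
  obtain ⟨-, i1, i2, i3, i4, -⟩ := g.ind h
  obtain ⟨t0, t1, t2, t3⟩ := hw_types h g hp s
  obtain ⟨-, r1, r2, r3⟩ := hw_types h g hp.symm (by rwa [pair_comm])
  have pV : p ∈ V := h.sub (s.sub (by simp))
  have qV : p' ∈ V := h.sub (s.sub (by simp))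
  have o1 := s.out p (by simp)
  have o2 := s.out p' (by simp)
  simp only [mem_insert, mem_singleton, not_or] at o1 o2
  obtain ⟨pu, pv, pa, pb, pc, pd⟩ := o1
  obtain ⟨qu, qv, qa, qb, qc, qd⟩ := o2
  have hac : mg (mg τ a b) c d s(a, c) = 0 := by
    rw [Sym2.eq_swap, mg_self, Sym2.eq_swap (a := c), Sym2.eq_swap (a := d), mg_self, mg_self,
      i1, i2, i3, i4]
    decide
  set U := (((((V.erase u).erase v).erase b).erase d).erase p).erase p' with hU
  have mU : ∀ r, r ∈ U ↔ r ≠ p' ∧ r ≠ p ∧ r ≠ d ∧ r ≠ b ∧ r ≠ v ∧ r ≠ u ∧ r ∈ V := fun r => by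
    simp only [hU, mem_erase]
  have hV : (((V.erase u).erase v).erase b).erase d = insert p (insert p' U) := by
    rw [hU, insert_erase, insert_erase]
    · simp only [mem_erase]; exact ⟨pd, pb, pv, pu, pV⟩
    · simp only [mem_erase]; exact ⟨hp.symm, qd, qb, qv, qu, qV⟩
  have key := hw_pair hx (U := U) (p := p) (p' := p') (a := a) (c := c)
    (fun hm => ((mU _).1 hm).2.1 rfl) (fun hm => ((mU _).1 hm).1 rfl) hp
    ((mU _).2 ⟨Ne.symm qa, Ne.symm pa, ad, ab, va.symm, ua.symm, h.sub aQ⟩)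
    ((mU _).2 ⟨Ne.symm qc, Ne.symm pc, cd, bc.symm, vc.symm, uc.symm, h.sub cQ⟩) ac
    (y := fun f => wt e (mg (mg τ a b) c d f)) (by simp only [t0, wt1]) (by simp only [t1, wt1])
    (by simp only [t2, wt1]) (fun r hr ra rc => by
      obtain ⟨e1, e2, e3, e4, -, -, e5⟩ := (mU r).1 hr
      simp only [t3 r e5 e2 e1 ra e4 rc e3, wt0])
    (by simp only [r1, wt1]) (by simp only [r2, wt1]) (fun r hr ra rc => by
      obtain ⟨e1, e2, e3, e4, -, -, e5⟩ := (mU r).1 hr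
      simp only [r3 r e5 e1 e2 ra e4 rc e3, wt0]) (by simp only [hac, wt0])
  rw [F2, F2, F2, hV, key, wt_upd, wt_upd, ff_aff, ff_aff, wt1, wt2]
  ring

end Pool.Agent.Lib.MP_efe3d7_co.H
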