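import Pool.Agent.Lib.MP_efe3d7_co.G.H2
import Pool.Agent.Lib.MP_efe3d7_co.G.H3
import Pool.Agent.Lib.MP_efe3d7_co.G.H4
import Pool.Agent.Lib.MP_efe3d7_co.G.H6
import Pool.Agent.Lib.MP_efe3d7_co.G.H8
import Pool.Agent.Lib.MP_efe3d7_co.G.H9
import Pool.Agent.Lib.MP_efe3d7_co.G.HW

/-! The cubic case. -/

set_option autoImplicit false

open Finset

namespace Pool.Agent.Lib.MP_efe3d7_co.H

variable {α : Type} [DecidableEq α] {V : Finset α} {τ : Sym2 α → Fin 3}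
variable {Q Dr : Finset α} {w : Prop} {u v a b c d : α}

variable [Fintype α] {x e : ℝ}

theorem Cub.pos (hx : 0 < x) (hx1 : x < 1) (he : 0 < e) (hxe : x ≤ (2 - x) * e)
    (h : Cub V τ Q Dr w) (sm : SmX x e V τ) : 0 < F2 x e V τ := by
  obtain ⟨u, v, a, b, c, d, g, k⟩ := h.dich
  obtain ⟨l1, l2, l3, l5, l6⟩ := g.lt h
  obtain ⟨n1, n2, n3, n5⟩ := g.nx h
  have p1 := sm _ _ (g.g1 h) l1 n1
  have p2 := sm _ _ (g.g2 h) l2 n2
  have p3 := sm _ _ (g.g3 h) l3 n3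
  have p4 := sm _ _ (g.sym.g3 h) (g.sym.lt h).2.2.1 (g.sym.nx h).2.2.1
  have y0 : 0 < 1 - x := by linarith
  have p5 : 0 < F2 x e ((((V.erase u).erase v).erase b).erase d) (mg (mg τ a b) c d) := by
    rcases k with k | ⟨p, p', hp, s⟩
    · exact sm _ _ (g.g5 h k) l5 n5
    · have q1 := sm _ _ (g.g6 h hp s (t := 1) (by decide)) (l6 p p' 1) (g.nx6 h hp s (by decide))
      have q2 := sm _ _ (g.g6 h hp s (t := 2) (by decide)) (l6 p p' 2) (g.nx6 h hp s (by decide))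
      have q3 := g.val6 (e := e) hx h hp s
      have q4 := mul_pos y0 (add_pos_of_nonneg_of_pos
        (mul_nonneg (sub_nonneg.2 hxe) q1.le) (mul_pos hx q2))
      rw [← q3] at q4
      exact (mul_pos_iff_of_pos_left he).1 q4
  rw [g.val hx h]
  positivity

end Pool.Agent.Lib.MP_efe3d7_co.H
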