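import Pool.Agent.Lib.MP_efe3d7_co.G.D

/-! Soft weights in groups of four. -/

set_option autoImplicit false

open Finset

namespace Pool.Agent.Lib.MP_efe3d7_co.H

variable {α : Type} [DecidableEq α] {V : Finset α} {τ : Sym2 α → Fin 3}

theorem s1_wt0 (x : ℝ) : wt x 0 = 1 := by simp [wt]

theorem s1_wt1 (x : ℝ) : wt x 1 = 0 := by simp [wt]

theorem s1_wt2 (x : ℝ) : wt x 2 = -x := by
  have h0 : (2 : Fin 3) ≠ 0 := by decide
  have h1 : (2 : Fin 3) ≠ 1 := by decide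
  simp [wt, h0, h1]

theorem s1_up {Φ : (α → ℝ) → ℝ}
    (haff : ∀ (t : α → ℝ) (w : α), ∃ p q : ℝ, ∀ s, Φ (Function.update t w s) = p + s * q)
    (v : α) (r : ℝ) (t : α → ℝ) (w : α) : ∃ p q : ℝ, ∀ s,
      Φ (Function.update (Function.update t w s) v r) = p + s * q := by
  by_cases h : w = v
  · subst h
    exact ⟨Φ (Function.update t w r), 0, fun s => by simp⟩
  · simpa only [Function.update_comm h] using haff (Function.update t v r) w

theorem s1_two (e : ℝ) {g : ℝ → ℝ} (h : ∃ p q : ℝ, ∀ s, g s = p + s * q) :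
    g (e ^ 2) = e * g 1 + (1 - e) * g (-e) ∧ (1 + e) * g 0 = e * g 1 + g (-e) := by
  obtain ⟨p, q, h⟩ := h
  simp only [h]
  constructor <;> ring

theorem s1_mix {e : ℝ} (h0 : 0 < e) (h1 : e ≤ 3 / 4) (F : ℝ → ℝ → ℝ → ℝ → ℝ)
    (a1 : ∀ b c d, ∃ p q : ℝ, ∀ s, F s b c d = p + s * q)
    (a2 : ∀ a c d, ∃ p q : ℝ, ∀ s, F a s c d = p + s * q)
    (a3 : ∀ a b d, ∃ p q : ℝ, ∀ s, F a b s d = p + s * q)
    (a4 : ∀ a b c, ∃ p q : ℝ, ∀ s, F a b c s = p + s * q)
    (h : ∀ i j k l : Fin 3, i ≠ 0 ∨ j ≠ 0 ∨ k ≠ 0 ∨ l ≠ 0 →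
      0 < F (wt e i) (wt e j) (wt e k) (wt e l)) : 0 < F (e ^ 2) (e ^ 2) (e ^ 2) (e ^ 2) := by
  have b1 := fun b c d => (s1_two e (a1 b c d)).1
  have b2 := fun a c d => (s1_two e (a2 a c d)).1
  have b3 := fun a b d => (s1_two e (a3 a b d)).1
  have b4 := fun a b c => (s1_two e (a4 a b c)).1
  have c1 := (s1_two e (a1 1 1 1)).2
  have c2 := (s1_two e (a2 1 1 1)).2
  have c3 := (s1_two e (a3 1 1 1)).2
  have c4 := (s1_two e (a4 1 1 1)).2
  have z1 := h 1 0 0 0 (by decide)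
  have z2 := h 0 1 0 0 (by decide)
  have z3 := h 0 0 1 0 (by decide)
  have z4 := h 0 0 0 1 (by decide)
  have f1 := h 2 0 0 0 (by decide)
  have f2 := h 0 2 0 0 (by decide)
  have f3 := h 0 0 2 0 (by decide)
  have f4 := h 0 0 0 2 (by decide)
  have f5 := h 2 2 0 0 (by decide)
  have f6 := h 2 0 2 0 (by decide)
  have f7 := h 2 0 0 2 (by decide)
  have f8 := h 0 2 2 0 (by decide)
  have f9 := h 0 2 0 2 (by decide)
  have f10 := h 0 0 2 2 (by decide)
  have f11 := h 2 2 2 0 (by decide)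
  have f12 := h 2 2 0 2 (by decide)
  have f13 := h 2 0 2 2 (by decide)
  have f14 := h 0 2 2 2 (by decide)
  have f15 := h 2 2 2 2 (by decide)
  simp only [s1_wt0, s1_wt1, s1_wt2] at *
  have hr : 0 ≤ 3 / 4 - e := by linarith
  have hp : 0 < 1 - e := by linarith
  have key : F (e ^ 2) (e ^ 2) (e ^ 2) (e ^ 2) =
      e ^ 3 * ((3 / 4 - e) * (F (-e) 1 1 1 + F 1 (-e) 1 1 + F 1 1 (-e) 1 + F 1 1 1 (-e)) +
        (1 + e) / 4 * (F 0 1 1 1 + F 1 0 1 1 + F 1 1 0 1 + F 1 1 1 0)) +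
      (1 - e) ^ 2 * e ^ 2 * (F (-e) (-e) 1 1 + F (-e) 1 (-e) 1 + F (-e) 1 1 (-e) +
        F 1 (-e) (-e) 1 + F 1 (-e) 1 (-e) + F 1 1 (-e) (-e)) +
      (1 - e) ^ 3 * e * (F (-e) (-e) (-e) 1 + F (-e) (-e) 1 (-e) + F (-e) 1 (-e) (-e) +
        F 1 (-e) (-e) (-e)) + (1 - e) ^ 4 * F (-e) (-e) (-e) (-e) := by
    simp only [b1, b2, b3, b4]
    linear_combination (-e ^ 3 / 4) * (c1 + c2 + c3 + c4)
  rw [key]
  generalize 3 / 4 - e = r at hr
  generalize 1 - e = p at hp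
  positivity

theorem s1_step {e : ℝ} {Φ : (α → ℝ) → ℝ} {A : Finset α} {t : α → ℝ} {c : ℕ} {v : α}
    (hv : v ∈ A) (i : Fin 3) (c' : ℕ) (hc : c ≤ c' + if i = 0 then 0 else 1)
    (h : ∀ σ : α → Fin 3, c ≤ (A.filter fun w => σ w ≠ 0).card →
      0 < Φ fun w => if w ∈ A then wt e (σ w) else t w) (σ : α → Fin 3)
    (hσ : c' ≤ ((A.erase v).filter fun w => σ w ≠ 0).card) :
    0 < Φ fun w => if w ∈ A.erase v then wt e (σ w) else Function.update t v (wt e i) w := by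
  have e1 : (fun w => if w ∈ A.erase v then wt e (σ w) else Function.update t v (wt e i) w) =
      fun w => if w ∈ A then wt e (Function.update σ v i w) else t w := by
    funext w
    by_cases hw : w = v
    · subst hw
      simp [hv]
    · simp [hw]
  rw [e1]
  refine h _ (hc.trans ?_)
  have hs : ((A.erase v).filter fun w => σ w ≠ 0) ⊆
      A.filter fun w => Function.update σ v i w ≠ 0 := fun w hw => by
    have := mem_filter.1 hw
    have h2 := mem_erase.1 this.1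
    exact mem_filter.2 ⟨h2.2, by rw [Function.update_of_ne h2.1]; exact this.2⟩
  split_ifs with hi
  · exact hσ.trans (card_le_card hs)
  · refine Nat.succ_le_of_lt (hσ.trans_lt (card_lt_card ⟨hs, fun h' => ?_⟩))
    have := h' (mem_filter.2 ⟨hv, by rwa [Function.update_self]⟩)
    simp at this

theorem s1_sq {x : ℝ} {A : Finset α} {t : α → ℝ} (h : ∀ w ∈ A, t w = x) (v : α) (s : ℝ) :
    ∀ w ∈ A.erase v, Function.update t v s w = x := fun w hw => by
  rw [Function.update_of_ne (mem_erase.1 hw).1]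
  exact h w (mem_erase.1 hw).2

theorem se_four {e : ℝ} (h0 : 0 < e) (h1 : e ≤ 3 / 4) (Φ : (α → ℝ) → ℝ)
    (haff : ∀ (t : α → ℝ) (w : α), ∃ p q : ℝ, ∀ s, Φ (Function.update t w s) = p + s * q)
    (n : ℕ) : ∀ (A : Finset α) (t₀ : α → ℝ), A.card = n → (∀ w ∈ A, t₀ w = e ^ 2) →
      (∀ σ : α → Fin 3, A.card / 4 ≤ (A.filter fun w => σ w ≠ 0).card →
        0 < Φ fun w => if w ∈ A then wt e (σ w) else t₀ w) → 0 < Φ t₀ := by
  induction n using Nat.strong_induction_on with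
  | _ n ih =>
  intro A t₀ hn ht hσ
  have up : ∀ {B : Finset α} {v : α}, B ⊆ A → v ∈ B → Function.update t₀ v (e ^ 2) = t₀ :=
    fun hB hv => by rw [← ht _ (hB hv), Function.update_eq_self]
  rcases A.eq_empty_or_nonempty with rfl | ⟨w1, m1⟩
  · simpa using hσ (fun _ => 1) (by simp)
  have k1 := card_erase_add_one m1
  by_cases h4 : A.card < 4
  · have f : ∀ i, 0 < Φ (Function.update t₀ w1 (wt e i)) := fun i =>
      ih _ (by omega) (A.erase w1) _ rfl (s1_sq ht _ _)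
        (s1_step m1 i _ (by omega) hσ)
    have f0 := f 0
    have f2 := f 2
    rw [s1_wt0] at f0
    rw [s1_wt2] at f2
    have hp : 0 < 1 - e := by linarith
    rw [← up (Subset.refl _) m1, (s1_two e (haff t₀ w1)).1]
    exact add_pos (mul_pos h0 f0) (mul_pos hp f2)
  obtain ⟨w2, m2⟩ := card_pos.1 (show 0 < (A.erase w1).card by omega)
  have k2 := card_erase_add_one m2
  obtain ⟨w3, m3⟩ := card_pos.1 (show 0 < ((A.erase w1).erase w2).card by omega)
  have k3 := card_erase_add_one m3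
  obtain ⟨w4, m4⟩ := card_pos.1 (show 0 < (((A.erase w1).erase w2).erase w3).card by omega)
  have k4 := card_erase_add_one m4
  have s2 := erase_subset w1 A
  have s3 := (erase_subset w2 _).trans s2
  have s4 := (erase_subset w3 _).trans s3
  have := s1_mix h0 h1 (fun a b c d => Φ (Function.update (Function.update (Function.update
    (Function.update t₀ w1 a) w2 b) w3 c) w4 d))
    (fun b c d => s1_up (Φ := fun t => Φ (Function.update (Function.update t w3 c) w4 d))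
      (s1_up (Φ := fun t => Φ (Function.update t w4 d)) (s1_up haff w4 d) w3 c) w2 b t₀ w1)
    (fun a c d => s1_up (Φ := fun t => Φ (Function.update t w4 d)) (s1_up haff w4 d) w3 c _ w2)
    (fun a b d => s1_up haff w4 d _ w3) (fun a b c => haff _ w4) fun i j k l h =>
      ih _ (by omega) _ _ rfl (s1_sq (s1_sq (s1_sq (s1_sq ht _ _) _ _) _ _) _ _)
        (s1_step m4 l _ le_rfl (s1_step m3 k _ le_rfl (s1_step m2 j _ le_rfl
          (s1_step m1 i _ (by split_ifs <;> omega) hσ))))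
  rwa [up (Subset.refl _) m1, up s2 m2, up s3 m3, up s4 m4] at this

end Pool.Agent.Lib.MP_efe3d7_co.H
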