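import Pool.Agent.Lib.MP_efe3d7_co.G.S1

/-! Contracting a heavy edge. -/

set_option autoImplicit false

open Finset

namespace Pool.Agent.Lib.MP_efe3d7_co.H

variable {α : Type} [DecidableEq α] {V : Finset α} {τ : Sym2 α → Fin 3}
variable {Q T C U : Finset α} {u v : α}

variable [Fintype α] {x e : ℝ}

theorem s2_mg (h0 : 0 < e) (h1 : e ≤ 3 / 4) (hu : u ∈ V) (hv : v ∈ V)
    (huv : u ≠ v) (ht : τ s(u, v) = 2)
    (hc : ∀ τ', SfT V τ u v τ' →
      (sft V τ u v).card / 4 ≤ ((sft V τ u v).filter fun w => τ' s(u, w) ≠ 0).card →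
      Con3 (V.erase v) τ' ∧ NX (V.erase v) τ')
    (sm : SmX x e V τ) : 0 < ff x (V.erase v) (mergeW (fun s => wt e (τ s)) u v) := by
  have n2 : (2 : Fin 3) ≠ 0 := by decide
  have hvu : v ∈ nb V τ u := mem_nb.2 ⟨hv, huv.symm, by rw [ht]; exact n2⟩
  have hW : sft V τ u v ⊆ nb (V.erase v) (mg τ u v) u := fun w hw => by
    obtain ⟨a, b, c, d, _⟩ := s5_mem.1 hw
    exact mem_nb_mg_self.2 ⟨b, c, Or.inl (mem_nb.2 ⟨a, b, by rw [d]; exact n2⟩)⟩
  have key := se_four h0 h1 (fun t => ff x (V.erase v) (s5lift u t fun s => wt e (τ s)))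
    (fun t w => ⟨_, _, fun s => by
      rw [s5lift_upd, ff_aff, sub_eq_add_neg, ← mul_neg]⟩) _ (sft V τ u v)
    (fun w => wt e (τ s(u, w)) * wt e (τ s(v, w))) rfl
    (fun w hw => by
      obtain ⟨_, _, _, d, k⟩ := s5_mem.1 hw
      rw [d, k, wt2]; ring) (fun σ s1 => by
      set τ' := s5lift u (fun w => if w ∈ sft V τ u v then σ w else mg τ u v s(u, w)) τ with hτ'
      have t1 : ∀ w, τ' s(u, w) = if w ∈ sft V τ u v then σ w else mg τ u v s(u, w) :=
        fun w => s5lift_self _ _ _ _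
      have t2 : ∀ a b, a ≠ u → b ≠ u → τ' s(a, b) = τ s(a, b) :=
        fun a b ha hb => s5lift_of_ne _ _ ha hb
      obtain ⟨c3, nx⟩ := hc τ' ⟨t2, fun w hw => by rw [t1, if_neg hw]⟩
        (s1.trans_eq (congrArg card (filter_congr fun w hw => by rw [t1, if_pos hw])))
      have lt : ne (V.erase v) τ' < ne V τ := by
        refine ne_mg_lt hu hvu (s5_ind u _ (fun z q => ?_) fun a b ha hb q => ?_)
        · by_cases hz : z ∈ sft V τ u v
          · exact (mem_nb.1 (hW hz)).2.2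
          · rwa [t1, if_neg hz] at q
        · rwa [mg_of_ne τ v ha hb, ← t2 a b ha hb]
      have p := sm _ _ c3 lt nx
      have q : ∀ b ∈ V.erase v, b ≠ u → wt e (τ' s(u, b)) =
          if b ∈ sft V τ u v then wt e (σ b) else wt e (τ s(u, b)) * wt e (τ s(v, b)) := by
        intro b hb hbu
        rw [t1]
        split_ifs with k
        · rfl
        · rw [mg_self, s5_wt_par e fun j =>
            k (s5_mem.2 ⟨mem_of_mem_erase hb, hbu, ne_of_mem_erase hb, j⟩)]
      refine p.trans_eq (ff_congr fun a ha b hb hab => ?_)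
      by_cases e1 : a = u
      · subst e1
        rw [s5lift_self, q b hb hab.symm]
      by_cases e2 : b = u
      · subst e2
        rw [Sym2.eq_swap, s5lift_self, q a ha hab]
      · rw [t2 a b e1 e2, s5lift_of_ne _ _ e1 e2])
  refine key.trans_eq (congrArg _ (funext (s5_ind u _ (fun z => ?_) fun a b ha hb => ?_)))
  · rw [s5lift_self, mergeW_self]
  · rw [s5lift_of_ne _ _ ha hb, mergeW_of_ne _ v ha hb]

theorem soft_pos (hx : 0 < x) (h0 : 0 < e) (h1 : e ≤ 3 / 4) (hu : u ∈ V) (hv : v ∈ V)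
    (huv : u ≠ v) (ht : τ s(u, v) = 2) (hd : Con3 V (Function.update τ s(u, v) 0))
    (h8 : 8 ≤ V.card)
    (hc : ∀ τ', SfT V τ u v τ' →
      (sft V τ u v).card / 4 ≤ ((sft V τ u v).filter fun w => τ' s(u, w) ≠ 0).card →
      Con3 (V.erase v) τ' ∧ NX (V.erase v) τ')
    (sm : SmX x e V τ) : 0 < F2 x e V τ := by
  have n0 := ne_upd (τ := τ) (mk_mem_pairs.2 ⟨hu, hv, huv⟩) 0
  simp only [ht] at n0
  have p0 := sm V _ hd (by simp at n0; omega) (Or.inl h8)
  have p1 := s2_mg h0 h1 hu hv huv ht hc sm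
  rw [← Sv_merge hx hu hv huv] at p1
  rw [F2, wt_upd, ff_aff, wt0] at p0
  rw [F2, ff_self V _ s(u, v), ht, wt2]
  nlinarith

end Pool.Agent.Lib.MP_efe3d7_co.H
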