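import Pool.Agent.Lib.MP_efe3d7_co.G.D

/-! The slots of a fragment with large degrees. -/

set_option autoImplicit false

open Finset

namespace Pool.Agent.Lib.MP_efe3d7_co.H

variable {α : Type} [DecidableEq α] {V : Finset α} {τ : Sym2 α → Fin 3}
variable {Q T C U : Finset α} {u v : α}

theorem s3_one {B : Finset α} (hne : B.Nonempty) (h : ¬ 2 ≤ B.card) :
    ∃ y ∈ B, dg V τ y ≤ (bd V τ B).card := by
  obtain ⟨y, hy⟩ := hne
  refine ⟨y, hy, card_le_card fun b hb => mem_bd.2 ⟨⟨y, hy, hb⟩, fun k => ?_⟩⟩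
  exact (mem_nb.1 hb).2.1 (card_le_one.1 (by omega) b k y hy)

theorem Big.cr (h : Big V τ Q T) : ∃ U, Cr V τ (core V τ Q T) U ∧
    ∀ s ∈ U, s ∈ T ∨ (s ∈ Q ∧ ∃ t ∈ T, nb V τ t ∩ Q = {s}) := by
  have hk := h.min.1
  have hC : core V τ Q T ⊆ Q := fun a ha => (mem_core.1 ha).1
  have hd : ∀ v ∈ core V τ Q T, 5 ≤ dg V τ v := fun v hv =>
    (h.deg v (hC hv)).resolve_right fun k => k.2 hv
  have hm : ∀ s ∈ bd V τ (core V τ Q T), s ∈ T ∨ (s ∈ Q ∧ ∃ t ∈ T, nb V τ t ∩ Q = {s}) := by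
    intro s hs
    obtain ⟨⟨a, ha, hb⟩, k⟩ := mem_bd.1 hs
    exact (hk.cov a (hC ha) s hb).symm.imp_right fun e => ⟨e, s3a_door e k⟩
  refine ⟨bd V τ (core V τ Q T), ⟨hC.trans hk.subQ, bd_subV _, fun s hs => (mem_bd.1 hs).2,
    le_antisymm ?_ ?_, h.q0, cov_bd _, hd, fun B hB hne hBC => ?_, fun s hs => ?_⟩, hm⟩
  · obtain ⟨U, h1, h2⟩ := h.slots
    exact (card_le_card h2.bd_sub).trans h1
  · exact h.con.three' (hC.trans hk.subQ) (card_pos.1 (by have := h.q0; omega)) (cov_bd _)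
      hk.subT hk.cT.ge fun t ht k => disjoint_left.1 hk.dis (hC k) ht
  · by_contra k
    by_cases h2 : 2 ≤ B.card
    · refine hBC (Subset.antisymm hB fun c hc => ?_)
      by_contra e
      obtain ⟨-, t, ht, -, e'⟩ := (h.min.ax h.con (hB.trans hC) h2 (cov_bd B)
        (disjoint_left.2 fun a ha hb => (mem_bd.1 hb).2 ha) (by omega)).1 c (hC hc) e
      exact (mem_core.1 hc).2 t ht e'
    · obtain ⟨y, hy, e⟩ := s3_one (V := V) (τ := τ) hne h2
      have := hd y (hB hy)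
      omega
  · obtain ⟨⟨a, ha, hb⟩, k⟩ := mem_bd.1 hs
    rcases hm s hs with e | ⟨e, t, ht, e'⟩
    · have h1 : a ∈ nb V τ s := nb_symm (hk.subQ (hC ha)) hb
      have h2 : ¬ nb V τ s ∩ Q ⊆ {a} := fun u => (mem_core.1 ha).2 s e
        (Subset.antisymm u (singleton_subset_iff.2 (mem_inter.2 ⟨h1, hC ha⟩)))
      obtain ⟨b, b1, b2⟩ := not_subset.1 h2
      obtain ⟨b3, b4⟩ := mem_inter.1 b1
      refine fr1a_two (mem_inter.2 ⟨h1, ha⟩) (mem_inter.2 ⟨b3, ?_⟩)
        fun u => b2 (u ▸ mem_singleton_self a)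
      by_contra u
      obtain ⟨t, ht, e'⟩ := s3a_door b4 u
      obtain rfl := h.min.door_one h.con h.three ht e' e (nb_symm (hk.subT e) b3)
      exact b2 (mem_singleton.2 ((fr1a_door e').2.2 a (hC ha) h1).symm)
    · have h1 : nb V τ s ⊆ insert t (nb V τ s ∩ core V τ Q T) := fun b hb' => by
        rcases hk.cov s e b hb' with u | u
        · refine mem_insert_of_mem (mem_inter.2 ⟨hb', ?_⟩)
          by_contra u'
          exact h.doors e k u u' hb'
        · exact h.min.door_one h.con h.three ht e' u hb' ▸ mem_insert_self _ _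
      have h2 := (card_le_card h1).trans (card_insert_le _ _)
      have h3 := h.deg s e
      unfold dg at h3
      omega

theorem Cr.cand_of_spoil (h : Cr V τ C U) (hu : u ∈ C) (hv : v ∈ C) (huv : v ∈ nb V τ u)
    (hs : Spoil V τ C u v) : Cand V τ C u v ((C.erase u).erase v) := by
  obtain ⟨s, s1, s2, s3⟩ := hs
  have hU : s ∈ U := (h.cov u hu s s1).resolve_left s2
  refine ⟨hu, hv, huv, card_pos.1 ?_, Subset.rfl,
    (card_le_card (t := U.erase s) fun x hx => ?_).trans (by rw [card_erase_of_mem hU, h.u3])⟩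
  · have h1 := pred_card_le_card_erase (s := C) (a := u)
    have h2 := pred_card_le_card_erase (s := C.erase u) (a := v)
    have := h.c3
    omega
  · simp only [mem_erase, mem_bd] at hx
    obtain ⟨x1, x2, ⟨a, ⟨a1, a2, a3⟩, a4⟩, x3⟩ := hx
    refine mem_erase.2 ⟨fun e => ?_, (h.cov a a3 x a4).resolve_left fun e => x3 ⟨x1, x2, e⟩⟩
    have : a ∈ nb V τ s ∩ C := mem_inter.2 ⟨e ▸ nb_symm (h.sub a3) a4, a3⟩
    rw [s3, mem_insert, mem_singleton] at this
    exact this.elim a2 a1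

theorem Free.sym (hV : C ⊆ V) (f : Free V τ C u v) : Free V τ C v u :=
  ⟨f.2.1, f.1, nb_symm (hV f.1) f.2.2.1, fun B g => f.2.2.2 B
    ⟨f.1, f.2.1, f.2.2.1, g.ne, g.sub.trans erase_right_comm.le,
      (congrArg card erase_right_comm).le.trans g.two⟩⟩

theorem Cr.not_spoil (h : Cr V τ C U) (f : Free V τ C u v) : ¬ Spoil V τ C u v :=
  fun s => f.2.2.2 _ (h.cand_of_spoil f.1 f.2.1 f.2.2.1 s)

/-- The cut of a candidate has four vertices. -/
theorem Cr.cand_bd (h : Cr V τ C U) {B : Finset α} (g : Cand V τ C u v B) :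
    (bd V τ B).card = 4 ∧ u ∈ bd V τ B ∧ v ∈ bd V τ B ∧ bd V τ B ⊆ C ∪ U ∧ 2 ≤ B.card := by
  have hB : B ⊆ C := g.sub.trans ((erase_subset _ _).trans (erase_subset _ _))
  have h4 := h.k4 B hB g.ne fun e => notMem_erase u C (mem_of_mem_erase (g.sub (e ▸ g.uC)))
  have h1 := pred_card_le_card_erase (s := bd V τ B) (a := u)
  have h2 := pred_card_le_card_erase (s := (bd V τ B).erase u) (a := v)
  have h3 := g.two
  have e : (bd V τ B).card = 4 := by omega
  refine ⟨e, ?_, ?_, fun x hx => ?_, ?_⟩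
  · by_contra k
    rw [erase_eq_of_notMem k] at h2 h3
    omega
  · by_contra k
    rw [erase_eq_of_notMem fun u => k (mem_of_mem_erase u)] at h3
    omega
  · obtain ⟨⟨a, ha, hb⟩, -⟩ := mem_bd.1 hx
    exact mem_union.2 (h.cov a (hB ha) x hb)
  · by_contra k
    obtain ⟨y, hy, e'⟩ := s3_one (V := V) (τ := τ) g.ne k
    have := h.deg y (hB hy)
    omega

end Pool.Agent.Lib.MP_efe3d7_co.H
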