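import Pool.Agent.Lib.MP_efe3d7_co.G.S3

/-! Free edges: deletions after the contraction. -/

set_option autoImplicit false

open Finset

namespace Pool.Agent.Lib.MP_efe3d7_co.H

variable {α : Type} [DecidableEq α] {V : Finset α} {τ : Sym2 α → Fin 3}
variable {Q T C U : Finset α} {u v : α}

theorem s4_sft {w : α} (hw : w ∈ sft V τ u v) : w ∈ nb V τ u ∧ w ∈ nb V τ v := by
  obtain ⟨a, b, c, d, e⟩ := s5_mem.1 hw
  have n2 : (2 : Fin 3) ≠ 0 := by decide
  exact ⟨mem_nb.2 ⟨a, b, by rw [d]; exact n2⟩, mem_nb.2 ⟨a, c, by rw [e]; exact n2⟩⟩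

theorem s4_off {τ' : Sym2 α → Fin 3} (s : SfT V τ u v τ') {a b : α} (ha : a ≠ u) (hb : b ≠ u) :
    b ∈ nb (V.erase v) τ' a ↔ b ≠ v ∧ b ∈ nb V τ a := by
  simp only [mem_nb, mem_erase, s.off a b ha hb]
  tauto

theorem s4_on {τ' : Sym2 α → Fin 3} (s : SfT V τ u v τ') {b : α}
    (hb : b ∈ nb (V.erase v) τ' u) : b ∈ nb V τ u ∨ b ∈ nb V τ v := by
  by_cases k : b ∈ sft V τ u v
  · exact Or.inl (s4_sft k).1
  · obtain ⟨h1, h2, h3⟩ := mem_nb.1 hb
    rw [s.on b k] at h3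
    exact (mem_nb_mg_self.1 (mem_nb.2 ⟨h1, h2, h3⟩)).2.2

theorem s4_keep {τ' : Sym2 α → Fin 3} (s : SfT V τ u v τ') {b : α} (k : b ∉ sft V τ u v)
    (h1 : b ≠ u) (h2 : b ≠ v) (hb : b ∈ nb V τ u ∨ b ∈ nb V τ v) : b ∈ nb (V.erase v) τ' u := by
  obtain ⟨a, c, d⟩ := mem_nb.1 (mem_nb_mg_self.2 ⟨h1, h2, hb⟩)
  exact mem_nb.2 ⟨a, c, by rwa [s.on b k]⟩

/-- The cover with the boundary vertices of doors replaced by the doors. -/
theorem s4_cover (hk : Thick V τ Q T) (B S : Finset α)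
    (hd : ∀ d ∈ B, d ∉ core V τ Q T → ∃ t ∈ S, t ∈ T ∧ nb V τ t ∩ Q = {d}) :
    ∃ X : Finset α, X.card ≤ S.card ∧ (∀ d ∈ B, d ∉ core V τ Q T → d ∈ X) ∧
      ∀ z ∈ S, ∀ c ∈ core V τ Q T, z ∈ nb V τ c → z ∈ X := by
  classical
  refine ⟨S.image fun t => if e : ∃ d, t ∈ T ∧ nb V τ t ∩ Q = {d} then e.choose else t,
    card_image_le, fun d h1 h2 => ?_, fun z hz c hc hzc => ?_⟩
  · obtain ⟨t, ht, e⟩ := hd d h1 h2
    have e1 : ∃ d, t ∈ T ∧ nb V τ t ∩ Q = {d} := ⟨d, e⟩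
    refine mem_image.2 ⟨t, ht, ?_⟩
    rw [dif_pos e1]
    exact singleton_injective (e1.choose_spec.2.symm.trans e.2)
  · refine mem_image.2 ⟨z, hz, dif_neg ?_⟩
    rintro ⟨d, hT, e⟩
    obtain ⟨cQ, c0⟩ := mem_core.1 hc
    have h1 : c ∈ nb V τ z ∩ Q := mem_inter.2 ⟨nb_symm (hk.subQ cQ) hzc, cQ⟩
    rw [e, mem_singleton] at h1
    exact c0 z hT (h1 ▸ e)

/-- A door keeps three neighbours. -/
theorem s4_door (h : Big V τ Q T) (f : Free V τ (core V τ Q T) u v)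
    {τ' : Sym2 α → Fin 3} (s : SfT V τ u v τ') {d : α} (hd : d ∈ Q) (hd0 : d ∉ core V τ Q T) :
    3 ≤ dg (V.erase v) τ' d := by
  have hk := h.min.1
  obtain ⟨hu, hv, huv, -⟩ := id f
  have huV := hk.subQ (mem_core.1 hu).1
  have hvV := hk.subQ (mem_core.1 hv).1
  have hdV := hk.subQ hd
  have hne : v ≠ u := (mem_nb.1 huv).2.1
  have du : d ≠ u := fun k => hd0 (k ▸ hu)
  have dv : d ≠ v := fun k => hd0 (k ▸ hv)
  have h1 : ((nb V τ d).erase u).erase v ⊆ nb (V.erase v) τ' d := fun z hz => by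
    simp only [mem_erase] at hz
    exact (s4_off s du hz.2.1).2 ⟨hz.1, hz.2.2⟩
  have c1 := card_le_card h1
  have c2 := pred_card_le_card_erase (s := (nb V τ d).erase u) (a := v)
  have c3 := pred_card_le_card_erase (s := nb V τ d) (a := u)
  rcases h.deg d hd with k | ⟨k, -⟩
  · unfold dg at k ⊢
    omega
  unfold dg at k ⊢
  have nb2 : ¬ (u ∈ nb V τ d ∧ v ∈ nb V τ d) := by
    rintro ⟨k1, k2⟩
    obtain ⟨U, hU, -⟩ := h.cr
    refine hU.not_spoil f ⟨d, nb_symm hdV k1, hd0, ?_⟩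
    obtain ⟨t, ht, e⟩ := s3a_door hd hd0
    have htd : t ∈ nb V τ d := nb_symm (hk.subT ht) (fr1a_door e).2.1
    have a1 : nb V τ d ∩ core V τ Q T ⊆ (nb V τ d).erase t := fun z hz =>
      mem_erase.2 ⟨fun q => disjoint_left.1 hk.dis (mem_core.1 (mem_inter.1 hz).2).1 (q ▸ ht),
        (mem_inter.1 hz).1⟩
    have a2 := card_le_card a1
    rw [card_erase_of_mem htd] at a2
    refine (eq_of_subset_of_card_le (fun z hz => ?_) ?_).symm
    · rcases mem_insert.1 hz with q | q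
      · exact q ▸ mem_inter.2 ⟨k1, hu⟩
      · exact mem_singleton.1 q ▸ mem_inter.2 ⟨k2, hv⟩
    · rw [card_pair hne.symm]
      omega
  have ns : d ∉ sft V τ u v := fun q =>
    nb2 ⟨nb_symm huV (s4_sft q).1, nb_symm hvV (s4_sft q).2⟩
  have ins : d ∈ nb V τ u ∨ d ∈ nb V τ v →
      (((nb V τ d).erase u).erase v).card + 1 ≤ (nb (V.erase v) τ' d).card := fun q => by
    have a1 : u ∈ nb (V.erase v) τ' d :=
      nb_symm (mem_erase.2 ⟨hne.symm, huV⟩) (s4_keep s ns du dv q)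
    have a2 := card_le_card (insert_subset a1 h1)
    rwa [card_insert_of_notMem (by simp)] at a2
  by_cases k1 : u ∈ nb V τ d
  · have k2 : v ∉ (nb V τ d).erase u := fun q => nb2 ⟨k1, mem_of_mem_erase q⟩
    have a := ins (Or.inl (nb_symm hdV k1))
    rw [erase_eq_of_notMem k2] at a
    omega
  · rw [erase_eq_of_notMem k1] at c1 c2 ins
    by_cases k2 : v ∈ nb V τ d
    · have a := ins (Or.inr (nb_symm hdV k2))
      omega
    · rw [erase_eq_of_notMem k2] at c1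
      omega

theorem Big.free_safe (h : Big V τ Q T) (f : Free V τ (core V τ Q T) u v)
    {τ' : Sym2 α → Fin 3} (s : SfT V τ u v τ') (h3 : 3 ≤ dg (V.erase v) τ' u) :
    Con3 (V.erase v) τ' := by
  have hk := h.min.1
  obtain ⟨hu, hv, huv, hf⟩ := id f
  have huQ := (mem_core.1 hu).1
  have hvQ := (mem_core.1 hv).1
  have huV := hk.subQ huQ
  have hne : v ≠ u := (mem_nb.1 huv).2.1
  have hdis : ∀ t ∈ T, t ∉ Q := fun t ht k => disjoint_left.1 hk.dis k ht
  refine hk.safe h.con ⟨erase_subset _ _, ?_, ?_, ?_, ?_, ?_, ?_⟩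
  · intro a ha ha'
    have e : a = v := by
      by_contra k
      exact ha' (mem_erase.2 ⟨k, ha⟩)
    exact e ▸ hvQ
  · intro a _ b _ _ ha hb e
    have h1 : a ≠ u := fun k => ha (k ▸ huQ)
    have h2 : b ≠ u := fun k => hb (k ▸ huQ)
    rwa [s.off a b h1 h2]
  · intro a ha haQ b hb
    have key : b ∈ Q ∨ b ∈ T := by
      by_cases e : a = u
      · rcases s4_on s (e ▸ hb) with k | k
        · exact hk.cov u huQ b k
        · exact hk.cov v hvQ b k
      by_cases e' : b = u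
      · exact Or.inl (e' ▸ huQ)
      · exact hk.cov a haQ b ((s4_off s e e').1 hb).2
    exact key.imp_right Or.inl
  · intro w hw
    exact absurd hw (by simp [envR])
  · exact Or.inl ⟨u, mem_erase.2 ⟨hne.symm, huV⟩, huQ⟩
  intro B S hB hBne hA hcov
  have hBQ : B ⊆ Q := hA.1
  have hBv : ∀ a ∈ B, a ≠ v := fun a ha => (mem_erase.1 (hB ha)).1
  by_contra hS
  obtain ⟨X, x0, x1, x2⟩ := s4_cover hk B S fun d h1 h2 => by
    obtain ⟨t, ht, e⟩ := s3a_door (hBQ h1) h2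
    have htd : t ∈ nb V τ d := nb_symm (hk.subT ht) (fr1a_door e).2.1
    have du : d ≠ u := fun k => h2 (k ▸ hu)
    have tu : t ≠ u := fun k => hdis t ht (k ▸ huQ)
    have a1 : t ∈ nb (V.erase v) τ' d := (s4_off s du tu).2 ⟨fun k => hdis t ht (k ▸ hvQ), htd⟩
    exact ⟨t, (hcov d h1 t a1).resolve_left fun k => hdis t ht (hBQ k), ht, e⟩
  by_cases hB' : ((B ∩ core V τ Q T).erase u).Nonempty
  · refine hf _ ⟨hu, hv, huv, hB', fun a ha => ?_, (card_le_card fun z hz => ?_).trans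
      (x0.trans (by omega))⟩
    · simp only [mem_erase, mem_inter] at ha ⊢
      exact ⟨hBv a ha.2.1, ha.1, ha.2.2⟩
    · simp only [mem_erase, mem_bd, mem_inter] at hz
      obtain ⟨z1, z2, ⟨a, ⟨a1, a2, a3⟩, z3⟩, z4⟩ := hz
      rcases hcov a a2 z ((s4_off s a1 z2).2 ⟨z1, z3⟩) with k | k
      · exact x1 z k fun q => z4 ⟨z2, k, q⟩
      · exact x2 z k a a3 z3
  have nc : ∀ z ∈ B, z ≠ u → z ∉ core V τ Q T := fun z h1 h2 q =>
    hB' ⟨z, mem_erase.2 ⟨h2, mem_inter.2 ⟨h1, q⟩⟩⟩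
  by_cases huB : u ∈ B
  · have a1 : nb (V.erase v) τ' u ⊆ X := fun z hz => by
      rcases hcov u huB z hz with k | k
      · exact x1 z k (nc z k (mem_nb.1 hz).2.1)
      · exact (s4_on s hz).elim (x2 z k u hu) (x2 z k v hv)
    have a2 := card_le_card a1
    unfold dg at h3
    omega
  · obtain ⟨d, hd⟩ := hBne
    have hBu : ∀ a ∈ B, a ≠ u := fun a ha k => huB (k ▸ ha)
    have a1 : nb (V.erase v) τ' d ⊆ S := fun z hz => (hcov d hd z hz).resolve_left fun k =>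
      h.doors (hBQ hd) (nc d hd (hBu d hd)) (hBQ k) (nc z k (hBu z k))
        ((s4_off s (hBu d hd) (hBu z k)).1 hz).2
    have a2 := card_le_card a1
    have a3 := s4_door h f s (hBQ hd) (nc d hd (hBu d hd))
    unfold dg at a3
    omega

theorem Big.easy_safe (h : Big V τ Q T) (f : Easy V τ (core V τ Q T) u v)
    {τ' : Sym2 α → Fin 3} (s : SfT V τ u v τ') : Con3 (V.erase v) τ' ∧ 9 ≤ V.card := by
  have hk := h.min.1
  obtain ⟨hu, hv, huv, hs, h6, A, a3, a1, a2, a4⟩ := f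
  have huV := hk.subQ (mem_core.1 hu).1
  have hne : v ≠ u := (mem_nb.1 huv).2.1
  have hu' : u ∈ V.erase v := mem_erase.2 ⟨hne.symm, huV⟩
  have hc : Con3 (V.erase v) (mg τ u v) := h.contr hu hv huv fun z z1 z2 z3 => hs ⟨z, z1, z2, z3⟩
  have key : ∀ (X S : Finset α) (c : α), X ⊆ V.erase v → X.Nonempty → S.card ≤ 2 →
      Cov (V.erase v) τ' X S → u ∉ X → c ∈ V.erase v → c ∉ X → c ∉ S → False := by
    intro X S c hX hXne hS hcov huX c1 c2 c3
    have hXu : ∀ a ∈ X, a ≠ u := fun a ha k => huX (k ▸ ha)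
    by_cases k : u ∈ S ∨ ∀ w ∈ X, w ∉ sft V τ u v
    · have cv : Cov (V.erase v) (mg τ u v) X S := by
        intro a ha b hb
        by_cases e : b = u
        · rcases k with k | k
          · exact Or.inr (e ▸ k)
          · obtain ⟨b1, b2, b3⟩ := mem_nb_mg_self.1 (nb_symm (hX ha) (e ▸ hb))
            exact hcov a ha b (e ▸ nb_symm hu' (s4_keep s (k a ha) b1 b2 b3))
        · obtain ⟨b1, b2, b3⟩ := mem_nb.1 hb
          rw [mg_of_ne τ v (hXu a ha) e, ← s.off a b (hXu a ha) e] at b3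
          exact hcov a ha b (mem_nb.2 ⟨b1, b2, b3⟩)
      have := hc.three hX hXne cv c1 c2 c3
      omega
    · push Not at k
      obtain ⟨huS, w, w1, w2⟩ := k
      have hA : A ⊆ S := fun a ha => by
        have au : a ≠ u := (mem_nb.1 (a1 ha)).2.1
        have b1 : a ∈ nb (V.erase v) τ' w :=
          (s4_off s (hXu w w1) au).2 ⟨(a2 a ha).1, a4 w (s4_sft w2).1 (s4_sft w2).2 ha⟩
        have b2 : a ∈ nb (V.erase v) τ' u :=
          s4_keep s (fun q => (a2 a ha).2 (s4_sft q).2) au (a2 a ha).1 (Or.inl (a1 ha))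
        exact (hcov w w1 a b1).resolve_left fun q =>
          (hcov a q u (nb_symm hu' b2)).elim huX huS
      have := card_le_card hA
      omega
  refine ⟨con3_of_sep hc.1 fun X S Y hX hY hS hp hXS hYS hXY cX cY => ?_, ?_⟩
  · have sX : X ⊆ V.erase v := fun z hz => (hp z).2 (Or.inl hz)
    have sY : Y ⊆ V.erase v := fun z hz => (hp z).2 (Or.inr (Or.inr hz))
    by_cases k : u ∈ X
    · exact key Y S u sY hY hS cY (hXY u k) hu' (hXY u k) (hXS u k)
    · obtain ⟨c, hc'⟩ := hY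
      exact key X S c sX hX hS cX k (sY hc') (fun q => hXY c q hc') (hYS c hc')
  · have cQ : core V τ Q T ⊆ Q := sdiff_subset
    have b1 := card_le_card (union_subset (cQ.trans hk.subQ) hk.subT)
    rw [card_union_of_disjoint (disjoint_of_subset_left cQ hk.dis), hk.cT] at b1
    omega

end Pool.Agent.Lib.MP_efe3d7_co.H
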