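import Pool.Agent.Lib.MP_efe3d7_co.G.S3

/-! Free edges: the features of the contraction. -/

set_option autoImplicit false

open Finset

namespace Pool.Agent.Lib.MP_efe3d7_co.H

variable {α : Type} [DecidableEq α] {V : Finset α} {τ : Sym2 α → Fin 3}
variable {Q T C U : Finset α} {u v : α}

theorem s5g_cubic (h : Big V τ Q T) {p : α} (hu : u ∈ core V τ Q T)
    (hv : v ∈ core V τ Q T) (huv : u ≠ v) (hpu : p ∈ nb V τ u) (hpv : p ∈ nb V τ v) (hp : p ∈ Q)
    (h3 : dg V τ p = 3) : Spoil V τ (core V τ Q T) u v := by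
  have hc : p ∉ core V τ Q T := ((h.deg p hp).resolve_left (by omega)).2
  refine ⟨p, hpu, hc, ?_⟩
  have k := h.min.1
  obtain ⟨t, ht, e⟩ := s3a_door hp hc
  have huQ := (mem_core.1 hu).1
  have hvQ := (mem_core.1 hv).1
  have htQ : t ∉ Q := fun e => disjoint_left.1 k.dis e ht
  have a1 : u ∈ nb V τ p := nb_symm (k.subQ huQ) hpu
  have a2 : v ∈ nb V τ p := nb_symm (k.subQ hvQ) hpv
  have a3 : t ∈ nb V τ p :=
    nb_symm (k.subT ht) (mem_inter.1 (e ▸ mem_singleton_self p : p ∈ nb V τ t ∩ Q)).1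
  have a4 : t ≠ u := fun e => htQ (e ▸ huQ)
  have a5 : t ≠ v := fun e => htQ (e ▸ hvQ)
  have a6 : ({t, u, v} : Finset α) = nb V τ p := by
    refine eq_of_subset_of_card_le (by simp [insert_subset_iff, a1, a2, a3]) ?_
    rw [card_insert_of_notMem (by simp [a4, a5]), card_pair huv]
    exact h3.le
  rw [← a6]
  ext z
  simp only [mem_inter, mem_insert, mem_singleton]
  constructor
  · rintro ⟨rfl | e, k2⟩
    · exact absurd (mem_core.1 k2).1 htQ
    · exact e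
  · rintro (rfl | rfl)
    · exact ⟨Or.inr (Or.inl rfl), hu⟩
    · exact ⟨Or.inr (Or.inr rfl), hv⟩

/-- The common neighbours of a free edge are soft. -/
theorem s5g_common (h : Big V τ Q T) (hv : Hv V τ Q (core V τ Q T))
    (f : Free V τ (core V τ Q T) u v) {w : α} (h1 : w ∈ nb V τ u) (h2 : w ∈ nb V τ v) :
    w ∈ sft V τ u v := by
  obtain ⟨U, hU, -⟩ := h.cr
  have h3 : w ∈ Q → dg V τ w ≠ 3 := fun a b => hU.not_spoil f
    (s5g_cubic h f.1 f.2.1 (mem_nb.1 f.2.2.1).2.1.symm h1 h2 a b)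
  exact s5_mem.2 ⟨nb_sub _ h1, (mem_nb.1 h1).2.1, (mem_nb.1 h2).2.1, hv u f.1 w h1 h3,
    hv v f.2.1 w h2 h3⟩

theorem s5g_sft {w : α} (h : w ∈ sft V τ u v) :
    w ∈ (nb V τ u).erase v ∧ w ∈ (nb V τ v).erase u := by
  obtain ⟨a, b, c, d, e⟩ := s5_mem.1 h
  exact ⟨mem_erase.2 ⟨c, mem_nb.2 ⟨a, b, by rw [d]; decide⟩⟩,
    mem_erase.2 ⟨b, mem_nb.2 ⟨a, c, by rw [e]; decide⟩⟩⟩

theorem s5g_off {τ' : Sym2 α → Fin 3} (s : SfT V τ u v τ') {a b : α} (ha : a ≠ u) (hb : b ≠ u)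
    (hbv : b ≠ v) (h : b ∈ nb V τ a) : b ∈ nb (V.erase v) τ' a := by
  obtain ⟨h1, h2, h3⟩ := mem_nb.1 h
  exact mem_nb.2 ⟨mem_erase.2 ⟨hbv, h1⟩, h2, by rwa [s.off a b ha hb]⟩

theorem s5g_on {τ' : Sym2 α → Fin 3} (s : SfT V τ u v τ') (hu : u ∈ V.erase v) {a : α}
    (h : a ∈ nb (V.erase v) (mg τ u v) u \ sft V τ u v) : u ∈ nb (V.erase v) τ' a := by
  obtain ⟨h1, h2⟩ := mem_sdiff.1 h
  obtain ⟨h3, h4, h5⟩ := mem_nb.1 h1
  exact nb_symm hu (mem_nb.2 ⟨h3, h4, by rwa [s.on a h2]⟩)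

theorem Big.free_nx (h : Big V τ Q T) (hv : Hv V τ Q (core V τ Q T))
    (f : Free V τ (core V τ Q T) u v)
    (h3 : 3 ≤ (nb (V.erase v) (mg τ u v) u \ sft V τ u v).card + (sft V τ u v).card / 4) :
    8 ≤ V.card ∧ ∀ τ', SfT V τ u v τ' → NX (V.erase v) τ' := by
  obtain ⟨U, hU, -⟩ := h.cr
  have k := h.min.1
  have huV := hU.sub f.1
  have hvV := hU.sub f.2.1
  have huv := f.2.2.1
  have hne : u ≠ v := (mem_nb.1 huv).2.1.symm
  have hu' : u ∈ V.erase v := mem_erase.2 ⟨hne, huV⟩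
  have du := hU.deg u f.1
  have dv := hU.deg v f.2.1
  have eN : nb (V.erase v) (mg τ u v) u = (nb V τ u).erase v ∪ (nb V τ v).erase u := by
    ext z
    have a1 : z ∈ nb V τ u → z ≠ u := fun e => (mem_nb.1 e).2.1
    have a2 : z ∈ nb V τ v → z ≠ v := fun e => (mem_nb.1 e).2.1
    simp only [mem_nb_mg_self, mem_union, mem_erase]
    tauto
  have eW : (nb V τ u).erase v ∩ (nb V τ v).erase u = sft V τ u v := by
    ext z
    exact ⟨fun e => s5g_common h hv f (mem_of_mem_erase (mem_inter.1 e).1)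
      (mem_of_mem_erase (mem_inter.1 e).2), fun e => mem_inter.2 (s5g_sft e)⟩
  have cA : ((nb V τ u).erase v).card + 1 = dg V τ u := card_erase_add_one huv
  have cB : ((nb V τ v).erase u).card + 1 = dg V τ v := card_erase_add_one (nb_symm huV huv)
  have cU := card_union_add_card_inter ((nb V τ u).erase v) ((nb V τ v).erase u)
  rw [← eN, eW] at cU
  have cN := card_sdiff_add_card_eq_card (s := sft V τ u v) (t := nb (V.erase v) (mg τ u v) u)
    fun z hz => eN ▸ mem_union_left _ (s5g_sft hz).1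
  have sN : nb (V.erase v) (mg τ u v) u ⊆ (V.erase v).erase u := fun z hz =>
    mem_erase.2 ⟨(mem_nb.1 hz).2.1, nb_sub _ hz⟩
  have c1 := card_le_card sN
  have c2 := card_erase_add_one hu'
  have c3 := card_erase_add_one hvV
  refine ⟨by omega, fun τ' s => ?_⟩
  by_cases h9 : 9 ≤ V.card
  · exact Or.inl (by omega)
  have c7 : (V.erase v).card = 7 := by omega
  have eV := eq_of_subset_of_card_le sN (by omega)
  have hN : ∀ z ∈ V, z ≠ u → z ≠ v → z ∈ nb (V.erase v) (mg τ u v) u := fun z a b c =>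
    eV ▸ mem_erase.2 ⟨b, mem_erase.2 ⟨c, a⟩⟩
  by_cases hc : ∃ c ∈ core V τ Q T, c ≠ u ∧ c ≠ v ∧ c ∉ sft V τ u v
  · obtain ⟨c, a1, a2, a3, a4⟩ := hc
    have cV := hU.sub a1
    refine Or.inr (Or.inr (Or.inr (Or.inr (Or.inl ⟨c7, c, mem_erase.2 ⟨a3, cV⟩, ?_⟩))))
    have b1 : insert u (((nb V τ c).erase u).erase v) ⊆ nb (V.erase v) τ' c :=
      insert_subset (s5g_on s hu' (mem_sdiff.2 ⟨hN c cV a2 a3, a4⟩)) fun z hz =>
        s5g_off s a2 (ne_of_mem_erase (mem_of_mem_erase hz)) (ne_of_mem_erase hz)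
          (mem_of_mem_erase (mem_of_mem_erase hz))
    have b2 := card_le_card b1
    rw [card_insert_of_notMem (by simp)] at b2
    have b3 := hU.deg c a1
    unfold dg at b3 ⊢
    by_cases b4 : u ∈ nb V τ c
    · have b5 : v ∉ (nb V τ c).erase u := fun e =>
        a4 (s5g_common h hv f (nb_symm cV b4) (nb_symm cV (mem_of_mem_erase e)))
      rw [erase_eq_of_notMem b5, card_erase_of_mem b4] at b2
      omega
    · rw [erase_eq_of_notMem b4] at b2
      have := pred_card_le_card_erase (s := nb V τ c) (a := v)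
      omega
  have tC : ∀ t ∈ T, t ∉ core V τ Q T := fun t ht e =>
    disjoint_left.1 k.dis (mem_core.1 e).1 ht
  have vU : ∀ z ∈ V, z ∉ core V τ Q T → z ∈ U := fun z a b => by
    have := hN z a (fun e => b (e ▸ f.1)) (fun e => b (e ▸ f.2.1))
    rcases (mem_nb_mg_self.1 this).2.2 with e | e
    · exact (hU.cov u f.1 z e).resolve_left b
    · exact (hU.cov v f.2.1 z e).resolve_left b
  have eT : T = U := eq_of_subset_of_card_le (fun t ht => vU t (k.subT ht) (tC t ht))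
    (by rw [hU.u3, k.cT])
  have vT : ∀ z ∈ V, z ∉ core V τ Q T → z ∈ T := fun z a b => eT ▸ vU z a b
  have tri : ∀ a ∈ T, ∀ b ∈ T, b ≠ a → b ∈ nb V τ a := fun a ha b hb hab => by
    have b1 : nb V τ a \ Q ⊆ T.erase a := fun z hz => by
      obtain ⟨z1, z2⟩ := mem_sdiff.1 hz
      exact mem_erase.2 ⟨(mem_nb.1 z1).2.1, vT z (nb_sub _ z1) fun e => z2 (mem_core.1 e).1⟩
    have b2 := eq_of_subset_of_card_le b1 (by
      rw [card_erase_of_mem ha, k.cT]
      exact k.out a ha)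
    exact (mem_sdiff.1 (b2 ▸ mem_erase.2 ⟨hab, hb⟩ : b ∈ nb V τ a \ Q)).1
  obtain ⟨p, hp, r, hr, hpr⟩ := one_lt_card.1
    (show 1 < (nb (V.erase v) (mg τ u v) u \ sft V τ u v).card by omega)
  have inT : ∀ z ∈ nb (V.erase v) (mg τ u v) u \ sft V τ u v, z ∈ T := fun z hz => by
    obtain ⟨z1, z2⟩ := mem_sdiff.1 hz
    obtain ⟨z3, z4⟩ := mem_erase.1 (sN z1)
    exact vT z (mem_of_mem_erase z4) fun e => hc ⟨z, e, z3, ne_of_mem_erase z4, z2⟩
  have pT := inT p hp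
  have rT := inT r hr
  obtain ⟨z, hz⟩ : ((T.erase p).erase r).Nonempty := card_pos.1 (by
    rw [card_erase_of_mem (mem_erase.2 ⟨hpr.symm, rT⟩), card_erase_of_mem pT, k.cT]
    decide)
  obtain ⟨zr, z1⟩ := mem_erase.1 hz
  obtain ⟨zp, zT⟩ := mem_erase.1 z1
  have nu : ∀ t ∈ T, t ≠ u := fun t ht e => tC t ht (e ▸ f.1)
  have nv : ∀ t ∈ T, t ≠ v := fun t ht e => tC t ht (e ▸ f.2.1)
  have adj : ∀ a ∈ T, ∀ b ∈ T, b ≠ a → b ∈ nb (V.erase v) τ' a := fun a ha b hb hab =>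
    s5g_off s (nu a ha) (nu b hb) (nv b hb) (tri a ha b hb hab)
  have eP : ({p, r, z} : Finset α) = T := by
    refine eq_of_subset_of_card_le (by simp [insert_subset_iff, pT, rT, zT]) ?_
    rw [card_insert_of_notMem (by simp [hpr, zp.symm]), card_pair zr.symm, k.cT]
  refine Or.inr (Or.inr (Or.inr (Or.inr (Or.inr ⟨c7, p, mem_erase.2 ⟨nv p pT, k.subT pT⟩,
    r, adj p pT r rT hpr.symm, u, s5g_on s hu' hp, z, adj p pT z zT zp, s5g_on s hu' hr,
    adj r rT z zT zr, nu z zT, fun a ha b hb hab a1 b1 e => ?_⟩))))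
  have inC : ∀ c ∈ V.erase v, c ∉ ({p, r, u, z} : Finset α) → c ≠ u ∧ c ∈ core V τ Q T := by
    intro c c4 c5
    simp only [mem_insert, mem_singleton, not_or] at c5
    refine ⟨c5.2.2.1, ?_⟩
    by_contra c6
    have c8 := vT c (mem_of_mem_erase c4) c6
    rw [← eP] at c8
    simp [c5.1, c5.2.1, c5.2.2.2] at c8
  obtain ⟨a2, a3⟩ := inC a ha a1
  obtain ⟨b2, b3⟩ := inC b hb b1
  rw [s.off a b a2 b2] at e
  have b4 := hU.deg b b3
  have b5 := hv a a3 b (mem_nb.2 ⟨mem_of_mem_erase hb, hab.symm, by rw [e]; decide⟩)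
    fun _ => by omega
  rw [e] at b5
  exact absurd b5 (by decide)

end Pool.Agent.Lib.MP_efe3d7_co.H
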