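import Pool.Agent.Lib.MP_efe3d7_co.G.S3

/-! The smallest candidate: two opposite corners. -/

set_option autoImplicit false

open Finset

namespace Pool.Agent.Lib.MP_efe3d7_co.H

variable {α : Type} [DecidableEq α] {V : Finset α} {τ : Sym2 α → Fin 3}
variable {Q T C U : Finset α} {u v : α}

theorem s6_not {B : Finset α} {w : α} (h : w ∈ bd V τ B) : w ∉ B := (mem_bd.1 h).2

/-- The three parts of a set relative to `B` and its boundary. -/
theorem s6_cnt (S B : Finset α) :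
    (S ∩ B).card + (S ∩ bd V τ B).card + ((S \ B) \ bd V τ B).card = S.card := by
  have h1 := card_sdiff_add_card_inter S B
  have h2 := card_sdiff_add_card_inter (S \ B) (bd V τ B)
  have h3 : (S \ B) ∩ bd V τ B = S ∩ bd V τ B := by
    ext w
    have := s6_not (V := V) (τ := τ) (B := B) (w := w)
    simp only [mem_inter, mem_sdiff]
    tauto
  rw [h3] at h2
  omega

theorem s6_le {X A B D : Finset α} (h : X ⊆ A ∪ B ∪ D) : X.card ≤ A.card + B.card + D.card :=
  (card_le_card h).trans ((card_union_le _ _).trans (Nat.add_le_add_right (card_union_le _ _) _))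

theorem s6_T1 (A B : Finset α) :
    Cov V τ (A ∩ B) (bd V τ A ∩ B ∪ A ∩ bd V τ B ∪ bd V τ A ∩ bd V τ B) := fun x hx w hw => by
  have h1 := cov_bd A x (mem_inter.1 hx).1 w hw
  have h2 := cov_bd B x (mem_inter.1 hx).2 w hw
  simp only [mem_inter, mem_union]
  tauto

theorem s6_T2 {A : Finset α} (hA : A ⊆ V) (B : Finset α) : Cov V τ ((A \ B) \ bd V τ B)
    (A ∩ bd V τ B ∪ bd V τ A ∩ bd V τ B ∪ (bd V τ A \ B) \ bd V τ B) := fun x hx w hw => by
  simp only [mem_sdiff] at hx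
  have h1 := cov_bd A x hx.1.1 w hw
  have h2 : w ∉ B := fun k => (cov_bd B w k x (nb_symm (hA hx.1.1) hw)).elim hx.1.2 hx.2
  simp only [mem_inter, mem_union, mem_sdiff]
  tauto

theorem s6_T4 (A B : Finset α) : Cov V τ (A ∪ B)
    (bd V τ A ∩ bd V τ B ∪ (bd V τ A \ B) \ bd V τ B ∪ (bd V τ B \ A) \ bd V τ A) :=
  fun x hx w hw => by
  have h1 : w ∈ A ∨ w ∈ B ∨ w ∈ bd V τ A ∨ w ∈ bd V τ B := by
    rcases mem_union.1 hx with k | k
    · have := cov_bd A x k w hw
      tauto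
    · have := cov_bd B x k w hw
      tauto
  simp only [mem_inter, mem_union, mem_sdiff]
  tauto

/-- A set with a cover of four vertices that contains `y` and `z` is a candidate. -/
theorem s6_cand {B X S : Finset α} {y z : α} (g : Cand V τ C y z B) (h0 : X.Nonempty)
    (h1 : X ⊆ (C.erase y).erase z) (h2 : Cov V τ X S) (hy : y ∈ S) (hz : z ∈ S)
    (h4 : S.card ≤ 4) : Cand V τ C y z X := by
  refine ⟨g.uC, g.vC, g.adj, h0, h1,
    (card_le_card (erase_subset_erase _ (erase_subset_erase _ h2.bd_sub))).trans ?_⟩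
  rw [card_erase_of_mem (mem_erase.2 ⟨(mem_nb.1 g.adj).2.1, hz⟩), card_erase_of_mem hy]
  omega

omit [DecidableEq α] in
theorem s6_two {X : Finset α} {y z : α} (hy : y ∈ X) (hz : z ∈ X) (h : z ≠ y) : 2 ≤ X.card :=
  one_lt_card.2 ⟨z, hz, y, hy, h⟩

/-- The corner inside both sets is empty. -/
theorem Cr.atom1 (h : Cr V τ C U) {A B : Finset α} {y z : α} (g : Cand V τ C u v A)
    (hm : ∀ u' v' B', Cand V τ C u' v' B' → A.card ≤ B'.card) (hy : y ∈ A)
    (hs : ¬ Spoil V τ C y z) (g' : Cand V τ C y z B) : A ∩ B = ∅ := by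
  by_contra h0
  replace h0 := nonempty_iff_ne_empty.2 h0
  obtain ⟨s4, su, sv, sW, -⟩ := h.cand_bd g
  obtain ⟨t4, ty, tz, -, -⟩ := h.cand_bd g'
  have AC : A ⊆ C := g.sub.trans ((erase_subset _ _).trans (erase_subset _ _))
  have BC : B ⊆ C := g'.sub.trans ((erase_subset _ _).trans (erase_subset _ _))
  have zy : z ≠ y := (mem_nb.1 g'.adj).2.1
  have c1 := s6_cnt (V := V) (τ := τ) (bd V τ A) B
  have c2 := s6_cnt (V := V) (τ := τ) (bd V τ B) A
  rw [inter_comm _ A, inter_comm _ (bd V τ A)] at c2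
  have yA : y ∈ A ∩ bd V τ B := mem_inter.2 ⟨hy, ty⟩
  have lt : ∀ X ⊆ A, y ∉ X → ¬ Cand V τ C y z X := fun X h1 h2 k =>
    (card_lt_card ⟨h1, fun e => h2 (e hy)⟩).not_ge (hm _ _ _ k)
  have n1 : 5 ≤ (bd V τ A ∩ B).card + (A ∩ bd V τ B).card + (bd V τ A ∩ bd V τ B).card := by
    by_contra k
    refine lt _ inter_subset_left (fun e => s6_not ty (mem_inter.1 e).2)
      (s6_cand g' h0 (inter_subset_right.trans g'.sub) (s6_T1 A B)
        (mem_union_left _ (mem_union_right _ yA)) ?_ ((s6_le Subset.rfl).trans (by omega)))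
    rcases cov_bd A y hy z g'.adj with e | e
    · exact mem_union_left _ (mem_union_right _ (mem_inter.2 ⟨e, tz⟩))
    · exact mem_union_right _ (mem_inter.2 ⟨e, tz⟩)
  have n4 := s6_le (s6_T4 (V := V) (τ := τ) A B).bd_sub
  have AB : A ∪ B = C := by
    by_contra k
    have := h.k4 _ (union_subset AC BC) ⟨y, mem_union_left _ hy⟩ k
    omega
  have ab : ∀ w ∈ C, w ∈ A ∨ w ∈ B := fun w hw => mem_union.1 (AB ▸ hw)
  have n3 : U ⊆ bd V τ (A ∪ B) := fun s hs => by
    obtain ⟨w, hw⟩ := card_pos.1 (lt_of_lt_of_le two_pos (h.two s hs))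
    rw [AB]
    exact mem_bd.2 ⟨⟨w, (mem_inter.1 hw).2, nb_symm (h.subU hs) (mem_inter.1 hw).1⟩, h.dis s hs⟩
  have n5 := h.u3 ▸ card_le_card n3
  have a2 : 2 ≤ (bd V τ A ∩ B).card := s6_two
    (mem_inter.2 ⟨su, (ab u g.uC).resolve_left (s6_not su)⟩)
    (mem_inter.2 ⟨sv, (ab v g.vC).resolve_left (s6_not sv)⟩) (mem_nb.1 g.adj).2.1
  have zA : z ∈ A ∩ bd V τ B := mem_inter.2 ⟨(ab z g'.vC).resolve_right (s6_not tz), tz⟩
  have b2 := s6_two yA zA zy
  rcases b2.eq_or_lt with b3 | b3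
  · obtain ⟨s, hs'⟩ : ((bd V τ A \ B) \ bd V τ B).Nonempty := card_pos.1 (by omega)
    simp only [mem_sdiff] at hs'
    have sC : s ∉ C := fun e => (ab s e).elim (s6_not hs'.1.1) hs'.1.2
    have sU : s ∈ U := (mem_union.1 (sW hs'.1.1)).resolve_left sC
    have e1 : {y, z} = A ∩ bd V τ B := eq_of_subset_of_card_le
      (insert_subset yA (singleton_subset_iff.2 zA)) (by rw [card_pair zy.symm]; omega)
    have e2 : nb V τ s ∩ C = {y, z} := by
      refine eq_of_subset_of_card_le (fun w hw => ?_) (card_le_two.trans (h.two s sU))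
      obtain ⟨w1, w2⟩ := mem_inter.1 hw
      have w3 : w ∉ B := fun k => (cov_bd B w k s (nb_symm (h.subU sU) w1)).elim hs'.1.2 hs'.2
      have w4 := (ab w w2).resolve_right w3
      rw [e1]
      refine mem_inter.2 ⟨w4, by_contra fun k => lt _ (sdiff_subset.trans sdiff_subset)
        (fun e => (mem_sdiff.1 e).2 ty) (s6_cand g' ⟨w, mem_sdiff.2 ⟨mem_sdiff.2 ⟨w4, w3⟩, k⟩⟩
          (fun x hx => ?_) (s6_T2 (AC.trans h.sub) B) (mem_union_left _ (mem_union_left _ yA))
          (mem_union_left _ (mem_union_left _ zA)) ((s6_le Subset.rfl).trans (by omega)))⟩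
      simp only [mem_sdiff] at hx
      exact mem_erase.2 ⟨fun e => hx.2 (e ▸ tz), mem_erase.2 ⟨fun e => hx.2 (e ▸ ty), AC hx.1.1⟩⟩
    exact hs ⟨s, nb_symm (h.subU sU) (mem_inter.1 (e2 ▸ mem_insert_self y {z})).1, sC, e2⟩
  · have c3 := s6_cnt (V := V) (τ := τ) A B
    have c4 := s6_cnt (V := V) (τ := τ) B A
    rw [inter_comm B, inter_comm B] at c4
    have c5 := hm _ _ _ g'
    have c6 := s6_le (s6_T2 (τ := τ) (BC.trans h.sub) A).bd_sub
    rw [inter_comm B, inter_comm (bd V τ B)] at c6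
    have := h.k4 ((B \ A) \ bd V τ A) ((sdiff_subset.trans sdiff_subset).trans BC)
      (card_pos.1 (by omega)) fun e => (mem_sdiff.1 (mem_sdiff.1 (e ▸ AC hy)).1).2 hy
    omega

end Pool.Agent.Lib.MP_efe3d7_co.H
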