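import Pool.Agent.Lib.MP_efe3d7_co.G.S6

/-! The smallest candidate: free edges. -/

set_option autoImplicit false

open Finset

namespace Pool.Agent.Lib.MP_efe3d7_co.H

variable {α : Type} [DecidableEq α] {V : Finset α} {τ : Sym2 α → Fin 3}
variable {Q T C U : Finset α} {u v : α}

theorem s7_card (S B S' : Finset α) (hd : ∀ x ∈ B, x ∉ S') :
    (S ∩ B).card + (S ∩ S').card + (S \ (B ∪ S')).card = S.card := by
  rw [← card_sdiff_add_card_inter S (B ∪ S'), inter_union_distrib_left, card_union_of_disjoint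
    (disjoint_left.2 fun x h1 h2 => hd x (mem_inter.1 h1).2 (mem_inter.1 h2).2)]
  omega

theorem s7_three (X Y Z : Finset α) : (X ∪ Y ∪ Z).card ≤ X.card + Y.card + Z.card :=
  (card_union_le _ _).trans (Nat.add_le_add_right (card_union_le _ _) _)

theorem s7_bd {A B : Finset α} (hA : A ⊆ V) (hAB : ∀ x ∈ A, x ∉ B) :
    bd V τ (A \ bd V τ B) ⊆
      (bd V τ B ∩ A) ∪ (bd V τ A ∩ bd V τ B) ∪ (bd V τ A \ (B ∪ bd V τ B)) := by
  intro w hw
  obtain ⟨⟨x, hx, hxw⟩, hw⟩ := mem_bd.1 hw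
  obtain ⟨x1, x2⟩ := mem_sdiff.1 hx
  have h1 := cov_bd A x x1 w hxw
  have h2 : w ∉ B := fun k => (cov_bd B w k x (nb_symm (hA x1) hxw)).elim (hAB x x1) x2
  simp only [mem_union, mem_inter, mem_sdiff] at hw ⊢
  tauto

theorem s7_un (A B : Finset α) : bd V τ (A ∪ B) ⊆
    (bd V τ A ∩ bd V τ B) ∪ (bd V τ A \ (B ∪ bd V τ B)) ∪ (bd V τ B \ (A ∪ bd V τ A)) := by
  intro w hw
  obtain ⟨⟨x, hx, hxw⟩, hw⟩ := mem_bd.1 hw
  have h1 : x ∈ A → w ∈ A ∨ w ∈ bd V τ A := fun k => cov_bd A x k w hxw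
  have h2 : x ∈ B → w ∈ B ∨ w ∈ bd V τ B := fun k => cov_bd B x k w hxw
  simp only [mem_union, mem_inter, mem_sdiff] at hw hx ⊢
  tauto

theorem Cr.atom (h : Cr V τ C U) {A : Finset α} {y z : α} (g : Cand V τ C u v A)
    (hm : ∀ u' v' B', Cand V τ C u' v' B' → A.card ≤ B'.card) (hy : y ∈ A) (hz : z ∈ C)
    (hyz : z ∈ nb V τ y) (hs : ¬ Spoil V τ C y z) (hA : A ≠ {y, z}) : Free V τ C y z := by
  have AC : A ⊆ C := fun x k => mem_of_mem_erase (mem_of_mem_erase (g.sub k))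
  refine ⟨AC hy, hz, hyz, fun B g' => ?_⟩
  have BC : B ⊆ C := fun x k => mem_of_mem_erase (mem_of_mem_erase (g'.sub k))
  have yB : y ∉ B := fun k => (mem_erase.1 (mem_of_mem_erase (g'.sub k))).1 rfl
  have zB : z ∉ B := fun k => (mem_erase.1 (g'.sub k)).1 rfl
  have e0 := h.atom1 g hm hy hs g'
  have AB : ∀ x ∈ A, x ∉ B := fun x k k' => by
    have := mem_inter.2 ⟨k, k'⟩
    rw [e0] at this
    exact notMem_empty _ this
  have BA : ∀ x ∈ B, x ∉ A := fun x k k' => AB x k' k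
  obtain ⟨a4, -, -, -, a2⟩ := h.cand_bd g
  obtain ⟨b4, yS, zS, -, -⟩ := h.cand_bd g'
  have hle := hm _ _ _ g'
  have c1 := s7_card (bd V τ A) B (bd V τ B) fun x k k' => (mem_bd.1 k').2 k
  have c2 := s7_card (bd V τ B) A (bd V τ A) fun x k k' => (mem_bd.1 k').2 k
  have t2 := s7_bd (τ := τ) (AC.trans h.sub) AB
  have t3 := (card_le_card (s7_bd (τ := τ) (BC.trans h.sub) BA)).trans (s7_three _ _ _)
  have t4 := (card_le_card (s7_un (V := V) (τ := τ) A B)).trans (s7_three _ _ _)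
  rw [inter_comm (bd V τ B) (bd V τ A)] at c2 t3
  have c3 := card_sdiff_add_card_inter A (bd V τ B)
  have c4 := card_sdiff_add_card_inter B (bd V τ A)
  rw [inter_comm] at c3 c4
  have zy : z ≠ y := (mem_nb.1 hyz).2.1
  have zA := cov_bd A y hy z hyz
  have k3 : (B \ bd V τ A).card = 0 ∨ 4 ≤ (bd V τ (B \ bd V τ A)).card := by
    rcases (B \ bd V τ A).eq_empty_or_nonempty with k | k
    · exact Or.inl (card_eq_zero.2 k)
    · exact Or.inr (h.k4 _ (sdiff_subset.trans BC) k fun e =>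
        yB (mem_sdiff.1 (e.symm ▸ AC hy : y ∈ B \ bd V τ A)).1)
  have b1 : 0 < (bd V τ B ∩ A).card := card_pos.2 ⟨y, mem_inter.2 ⟨yS, hy⟩⟩
  rcases (A \ bd V τ B).eq_empty_or_nonempty with k | k
  · rw [k, card_empty] at c3
    have fin : A.card = 2 → z ∈ A → False := fun k1 k2 =>
      hA (eq_of_subset_of_card_le (insert_subset hy (singleton_subset_iff.2 k2))
        (by rw [card_pair zy.symm, k1])).symm
    by_cases e : A ∪ B = C
    · have u3 : U ⊆ bd V τ (A ∪ B) := fun s hs' => by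
        obtain ⟨x, hx⟩ := card_pos.1 (lt_of_lt_of_le (by norm_num) (h.two s hs'))
        rw [e]
        exact mem_bd.2 ⟨⟨x, (mem_inter.1 hx).2, nb_symm (h.subU hs') (mem_inter.1 hx).1⟩,
          h.dis s hs'⟩
      have u4 := card_le_card u3
      rw [h.u3] at u4
      exact fin (by omega) ((mem_union.1 (e.symm ▸ hz : z ∈ A ∪ B)).resolve_right zB)
    · have u4 := h.k4 _ (union_subset AC BC) ⟨y, mem_union_left _ hy⟩ e
      refine fin (by omega) (zA.resolve_right fun k' => ?_)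
      have := card_pos.2 ⟨z, mem_inter.2 ⟨k', zS⟩⟩
      omega
  · have k1 := card_pos.2 k
    have t5 := s7_three (bd V τ B ∩ A) (bd V τ A ∩ bd V τ B) (bd V τ A \ (B ∪ bd V τ B))
    generalize hT : (bd V τ B ∩ A) ∪ (bd V τ A ∩ bd V τ B) ∪ (bd V τ A \ (B ∪ bd V τ B)) = T2
      at t2 t5
    have yT : y ∈ T2 := hT ▸ mem_union_left _ (mem_union_left _ (mem_inter.2 ⟨yS, hy⟩))
    have zT : z ∈ T2.erase y := mem_erase.2 ⟨zy, hT ▸ mem_union_left _ (zA.elim
      (fun k' => mem_union_left _ (mem_inter.2 ⟨zS, k'⟩))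
      fun k' => mem_union_right _ (mem_inter.2 ⟨k', zS⟩))⟩
    by_cases e : T2.card ≤ 4
    · have := hm y z _ ⟨AC hy, hz, hyz, k, fun x hx => mem_erase.2
        ⟨fun e' => (mem_sdiff.1 hx).2 (e' ▸ zS), mem_erase.2
          ⟨fun e' => (mem_sdiff.1 hx).2 (e' ▸ yS), AC (mem_sdiff.1 hx).1⟩⟩,
        (card_le_card (erase_subset_erase _ (erase_subset_erase _ t2))).trans (by
          rw [card_erase_of_mem zT, card_erase_of_mem yT]; omega)⟩
      omega
    · omega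

end Pool.Agent.Lib.MP_efe3d7_co.H
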