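import Pool.Agent.Lib.MP_efe3d7_co.G.S3

/-! The structure if all edges are free. -/

set_option autoImplicit false

open Finset

namespace Pool.Agent.Lib.MP_efe3d7_co.H

variable {α : Type} [DecidableEq α] {V : Finset α} {τ : Sym2 α → Fin 3}
variable {Q T C U : Finset α} {u v : α}

theorem s8_card (z : α) : (insert z (nb V τ z)).card = dg V τ z + 1 :=
  card_insert_of_notMem (not_mem_nb z)

theorem s8_nb {z : α} {K : Finset α} (e : insert z (nb V τ z) = K) : nb V τ z = K.erase z := by
  rw [← e, erase_insert (not_mem_nb z)]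

theorem s8_sym {a b : α} (ha : a ∈ V) (k : b ∈ insert a (nb V τ a)) : a ∈ insert b (nb V τ b) := by
  rcases mem_insert.1 k with k | k
  · rw [k]; exact mem_insert_self _ _
  · exact mem_insert_of_mem (nb_symm ha k)

/-- The closed neighbourhoods around a vertex of least degree. -/
theorem s8_ext (hn : AllN V τ C) (hf : ∀ u v B, ¬ Cand V τ C u v B) {x : α} (hx : x ∈ C)
    (hm : ∀ z ∈ C, dg V τ x ≤ dg V τ z) :
    (∀ y ∈ C, y ∈ insert x (nb V τ x) → insert y (nb V τ y) = insert x (nb V τ x)) ∨
    ∃ p, p ∉ insert x (nb V τ x) ∧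
      (∃ y ∈ C, y ∈ insert x (nb V τ x) ∧ insert y (nb V τ y) = insert p (insert x (nb V τ x))) ∧
      ∀ y ∈ C, y ∈ insert x (nb V τ x) → insert y (nb V τ y) = insert x (nb V τ x) ∨
        insert y (nb V τ y) = insert p (insert x (nb V τ x)) := by
  have A : ∀ y ∈ C, y ∈ insert x (nb V τ x) →
      insert x (nb V τ x) ⊆ insert y (nb V τ y) ∧ dg V τ y ≤ dg V τ x + 1 := by
    intro y hy k
    rcases mem_insert.1 k with k | k
    · rw [k]; exact ⟨Subset.refl _, by omega⟩
    · rcases (hn x y ⟨hx, hy, k, hf x y⟩).1 with n | n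
      · exact n
      · have e := eq_of_subset_of_card_le n.1 (by rw [s8_card, s8_card]; have := hm y hy; omega)
        have e2 := congrArg card e
        rw [s8_card, s8_card] at e2
        exact ⟨e.symm.subset, by omega⟩
  have B : ∀ y ∈ C, y ∈ insert x (nb V τ x) → ∀ p ∈ insert y (nb V τ y), p ∉ insert x (nb V τ x) →
      insert y (nb V τ y) = insert p (insert x (nb V τ x)) := by
    intro y hy k p hp hp'
    refine (eq_of_subset_of_card_le (insert_subset hp (A y hy k).1) ?_).symm
    rw [card_insert_of_notMem hp', s8_card, s8_card]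
    have := (A y hy k).2
    omega
  by_cases e : ∀ y ∈ C, y ∈ insert x (nb V τ x) → insert y (nb V τ y) ⊆ insert x (nb V τ x)
  · exact Or.inl fun y hy k => Subset.antisymm (e y hy k) (A y hy k).1
  · push Not at e
    obtain ⟨y, hy, k, e⟩ := e
    obtain ⟨p, hp, hp'⟩ := not_subset.1 e
    refine Or.inr ⟨p, hp', ⟨y, hy, k, B y hy k p hp hp'⟩, fun z hz kz => ?_⟩
    by_cases e' : insert z (nb V τ z) ⊆ insert x (nb V τ x)
    · exact Or.inl (Subset.antisymm e' (A z hz kz).1)
    · obtain ⟨r, hr, hr'⟩ := not_subset.1 e'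
      rcases mem_insert.1 ((A y hy k).1 kz) with c | c
      · rw [c]; exact Or.inr (B y hy k p hp hp')
      · rcases (hn y z ⟨hy, hz, c, hf y z⟩).1 with n | n
        · exact Or.inr (B z hz kz p (n.1 hp) hp')
        · have h1 := n.1 hr
          rw [B y hy k p hp hp'] at h1
          have h2 := (mem_insert.1 h1).resolve_right hr'
          exact Or.inr (h2 ▸ B z hz kz r hr hr')

theorem s8_deg (h : Cr V τ C U) (hn : AllN V τ C) (hf : ∀ u v B, ¬ Cand V τ C u v B) {x : α}
    (hx : x ∈ C) : 6 ≤ dg V τ x ∧ dg V τ x ≤ 12 := by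
  have : ¬ nb V τ x ⊆ U := fun k => by
    have h1 := card_le_card k
    have h2 := h.deg x hx
    have h3 := h.u3
    unfold dg at h2
    omega
  obtain ⟨y, hy, hy'⟩ := not_subset.1 this
  have := (hn x y ⟨hx, (h.cov x hx y hy).resolve_right hy', hy, hf x y⟩).2
  exact ⟨this.1, this.2.1⟩

theorem s8_nine (h : Cr V τ C U) (hn : AllN V τ C) (hf : ∀ u v B, ¬ Cand V τ C u v B) {x y p : α}
    (hx : x ∈ C) (hy : y ∈ C) (k : y ∈ insert x (nb V τ x)) (hp : p ∉ insert x (nb V τ x))
    (e : insert y (nb V τ y) = insert p (insert x (nb V τ x))) : dg V τ x ≤ 8 := by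
  have e2 := congrArg card e
  rw [card_insert_of_notMem hp, s8_card, s8_card] at e2
  rcases mem_insert.1 k with c | c
  · rw [c] at e2; omega
  · have := (hn y x ⟨hy, hx, nb_symm (h.sub hx) c, hf y x⟩).2.2.2 (by omega)
    omega

theorem s8_slot (h : Cr V τ C U) {s : α} (hs : s ∈ U) : ∃ z ∈ C, s ∈ insert z (nb V τ z) := by
  obtain ⟨z, hz⟩ : (nb V τ s ∩ C).Nonempty := card_pos.1 (by have := h.two s hs; omega)
  rw [mem_inter] at hz
  exact ⟨z, hz.2, mem_insert_of_mem (nb_symm (h.subU hs) hz.1)⟩

theorem s8_cov (h : Cr V τ C U) {x z : α} (hx : x ∈ C) (k : z ∈ insert x (nb V τ x)) :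
    z ∈ C ∨ z ∈ U := by
  rcases mem_insert.1 k with c | c
  · rw [c]; exact Or.inl hx
  · exact h.cov x hx z c

theorem s8_er (h : Cr V τ C U) {z : α} (hz : z ∈ C) {A W : Finset α} (hW : W ⊆ U) :
    (A ∪ W).erase z = A.erase z ∪ W := by
  rw [erase_union_distrib, erase_eq_of_notMem (s := W) fun k => h.dis z (hW k) hz]

theorem s8_cu (h : Cr V τ C U) {A W : Finset α} (hA : A ⊆ C) (hW : W ⊆ U) :
    (A ∪ W).card = A.card + W.card :=
  card_union_of_disjoint (disjoint_left.2 fun z a w => h.dis z (hW w) (hA a))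

theorem Cr.clu_free (h : Cr V τ C U) (hn : AllN V τ C) (hf : ∀ u v B, ¬ Cand V τ C u v B) :
    CluA V τ C U ∨ CluB V τ C U := by
  obtain ⟨x, hx, hm⟩ := exists_min_image C (dg V τ) (card_pos.1 (by have := h.c3; omega))
  have d := s8_deg h hn hf hx
  have cK := s8_card (V := V) (τ := τ) x
  have u3 := h.u3
  have xK : x ∈ insert x (nb V τ x) := mem_insert_self _ _
  have E := s8_ext hn hf hx hm
  have N9 := fun y p => s8_nine h hn hf (x := x) (y := y) (p := p) hx
  have cv := fun z => s8_cov h (x := x) (z := z) hx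
  have sx : ∀ p, x ∈ insert p (nb V τ p) → p ∈ V → p ∈ insert x (nb V τ x) :=
    fun p k hp => s8_sym hp k
  have nx := s8_nb (V := V) (τ := τ) (z := x) rfl
  generalize insert x (nb V τ x) = K at cK xK E N9 cv sx nx
  have bdK : ∀ B W : Finset α, (∀ z ∈ B, insert z (nb V τ z) ⊆ W) → bd V τ B ⊆ W \ B := by
    intro B W k z hz
    obtain ⟨⟨a, ha, hb⟩, c⟩ := mem_bd.1 hz
    exact mem_sdiff.2 ⟨k a ha (mem_insert_of_mem hb), c⟩
  by_cases hC : C ⊆ K
  · left
    rcases E with E | ⟨p, hp, ⟨y, hy, ky, ey⟩, E⟩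
    · have e : K = C ∪ U := by
        refine Subset.antisymm (fun z k => mem_union.2 (cv z k)) (union_subset hC fun s hs => ?_)
        obtain ⟨z, hz, k⟩ := s8_slot h hs
        rwa [E z hz (hC hz)] at k
      have c := s8_cu h (Subset.refl C) (Subset.refl U)
      rw [← e] at c
      obtain ⟨p, hp⟩ : U.Nonempty := card_pos.1 (by omega)
      refine ⟨p, hp, C, Subset.refl _, by omega, by omega, by omega, fun k => absurd rfl k,
        fun z hz => ?_, fun z hz k => absurd hz k⟩
      rw [s8_nb (E z hz (hC hz)), e, s8_er h hz (Subset.refl U)]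
    · have pU : p ∈ U :=
        (s8_cov h hy (by rw [ey]; exact mem_insert_self _ _)).resolve_left fun k => hp (hC k)
      have e : K = C ∪ U.erase p := by
        refine Subset.antisymm (fun z k => mem_union.2 ((cv z k).imp_right fun c =>
          mem_erase.2 ⟨fun c' => hp (c' ▸ k), c⟩)) (union_subset hC fun s hs => ?_)
        obtain ⟨z, hz, k⟩ := s8_slot h (mem_erase.1 hs).2
        rcases E z hz (hC hz) with c | c <;> rw [c] at k
        · exact k
        · exact (mem_insert.1 k).resolve_left (mem_erase.1 hs).1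
      have c := s8_cu h (Subset.refl C) (erase_subset p U)
      rw [← e, card_erase_of_mem pU] at c
      have n9 := N9 y p hy ky hp ey
      have e' : insert p K = C ∪ U := by rw [e, ← union_insert, insert_erase pU]
      refine ⟨p, pU, nb V τ p ∩ C, inter_subset_right, h.two p pU, by omega, by omega,
        fun _ => ⟨by omega, by omega⟩, fun z hz => ?_, fun z hz k => ?_⟩
      · rw [mem_inter] at hz
        rcases E z hz.2 (hC hz.2) with c | c
        · exact absurd (c ▸ mem_insert_of_mem (nb_symm (h.subU pU) hz.1)) hp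
        · rw [s8_nb c, e', s8_er h hz.2 (Subset.refl U)]
      · rcases E z hz (hC hz) with c | c
        · rw [s8_nb c, e, s8_er h hz (erase_subset p U)]
        · refine absurd (mem_inter.2 ⟨?_, hz⟩) k
          have h1 : p ∈ insert z (nb V τ z) := by rw [c]; exact mem_insert_self _ _
          exact nb_symm (h.sub hz) ((mem_insert.1 h1).resolve_left fun c' => h.dis p pU (c' ▸ hz))
  · right
    have k4 := h.k4 (K ∩ C) inter_subset_right ⟨x, mem_inter.2 ⟨xK, hx⟩⟩
      fun e => hC (e ▸ inter_subset_left)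
    have KU : ∀ z ∈ K, z ∉ K ∩ C → z ∈ K ∩ U := fun z k c =>
      mem_inter.2 ⟨k, (cv z k).resolve_left fun c' => c (mem_inter.2 ⟨k, c'⟩)⟩
    rcases E with E | ⟨p, hp, ⟨y, hy, ky, ey⟩, E⟩
    · have h1 := bdK (K ∩ C) K fun z hz => (E z (mem_inter.1 hz).2 (mem_inter.1 hz).1).subset
      have h2 : bd V τ (K ∩ C) ⊆ U := fun z hz =>
        (mem_inter.1 (KU z (mem_sdiff.1 (h1 hz)).1 (mem_sdiff.1 (h1 hz)).2)).2
      have := card_le_card h2
      omega
    · have sb : ∀ z ∈ K ∩ C, insert z (nb V τ z) ⊆ insert p K := fun z hz => by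
        rcases E z (mem_inter.1 hz).2 (mem_inter.1 hz).1 with c | c <;> rw [c]
        exact subset_insert _ _
      have h1 := bdK (K ∩ C) (insert p K) sb
      have h2 : bd V τ (K ∩ C) ⊆ insert p (K ∩ U) := fun z hz => by
        have := mem_sdiff.1 (h1 hz)
        exact mem_insert.2 ((mem_insert.1 this.1).imp_right fun k => KU z k this.2)
      have h3 := (card_le_card h2).trans (card_insert_le _ _)
      have UK : U ⊆ K := by
        rw [← eq_of_subset_of_card_le (inter_subset_right : K ∩ U ⊆ U) (by omega)]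
        exact inter_subset_left
      have py : p ∈ insert y (nb V τ y) := by rw [ey]; exact mem_insert_self _ _
      have pC : p ∈ C := (s8_cov h hy py).resolve_right fun k => hp (UK k)
      have py' : p ∈ nb V τ y := (mem_insert.1 py).resolve_left fun c => hp (c ▸ ky)
      have xp : x ∉ insert p (nb V τ p) := fun k => hp (sx p k (h.sub pC))
      have xN : x ∈ insert p K := mem_insert_of_mem xK
      have Np : insert p (nb V τ p) = (insert p K).erase x := by
        rcases (hn y p ⟨hy, pC, py', hf y p⟩).1 with n | n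
        · exact absurd (n.1 (ey ▸ xN)) xp
        · refine eq_of_subset_of_card_le (fun z hz => mem_erase.2 ⟨fun c => xp (c ▸ hz), ey ▸ n.1 hz⟩) ?_
          rw [card_erase_of_mem xN, card_insert_of_notMem hp, s8_card]
          have := hm p pC
          omega
      have eC : insert p (K ∩ C) = C := by
        by_contra c
        have h4 := h.k4 _ (insert_subset pC inter_subset_right) (insert_nonempty _ _) c
        have h5 := bdK (insert p (K ∩ C)) (insert p K) fun z hz => by
          rcases mem_insert.1 hz with k | k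
          · rw [k, Np]; exact erase_subset _ _
          · exact sb z k
        have h6 : bd V τ (insert p (K ∩ C)) ⊆ U := fun z hz => by
          have := mem_sdiff.1 (h5 hz)
          simp only [mem_insert, not_or] at this
          exact (mem_inter.1 (KU z (this.1.resolve_left this.2.1) this.2.2)).2
        have := card_le_card h6
        omega
      have CK : ∀ z ∈ C, z ≠ p → z ∈ K := fun z hz c => by
        rw [← eC] at hz
        exact (mem_inter.1 ((mem_insert.1 hz).resolve_left c)).1
      have e : K = C.erase p ∪ U :=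
        Subset.antisymm (fun z k => mem_union.2 ((cv z k).imp_left fun c =>
          mem_erase.2 ⟨fun c' => hp (c' ▸ k), c⟩))
          (union_subset (fun z hz => CK z (mem_erase.1 hz).2 (mem_erase.1 hz).1) UK)
      have e' : insert p K = C ∪ U := by rw [e, ← insert_union, insert_erase pC]
      have c := s8_cu h (erase_subset p C) (Subset.refl U)
      rw [← e, card_erase_of_mem pC] at c
      have n9 := N9 y p hy ky hp ey
      have c3 := h.c3
      refine ⟨x, hx, p, pC, fun c' => hp (c' ▸ xK), by omega, by omega, ?_, ?_, fun z hz zx zp => ?_⟩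
      · rw [nx, e, s8_er h hx (Subset.refl U), erase_right_comm]
      · rw [s8_nb Np, e', s8_er h hx (Subset.refl U), s8_er h pC (Subset.refl U)]
      · have h7 : p ∈ insert z (nb V τ z) := s8_sym (h.sub pC) (by
          rw [Np]; exact mem_erase.2 ⟨zx, mem_insert_of_mem (CK z hz zp)⟩)
        rcases E z hz (CK z hz zp) with c' | c'
        · exact absurd (c' ▸ h7) hp
        · rw [s8_nb c', e', s8_er h hz (Subset.refl U)]

end Pool.Agent.Lib.MP_efe3d7_co.H
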