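import Pool.Agent.Lib.MP_efe3d7_co.G.S7

/-! The structure at the smallest candidate. -/

set_option autoImplicit false

open Finset

namespace Pool.Agent.Lib.MP_efe3d7_co.H

variable {α : Type} [DecidableEq α] {V : Finset α} {τ : Sym2 α → Fin 3}
variable {Q T C U : Finset α} {u v : α}

theorem s9_sub {A : Finset α} (g : Cand V τ C u v A) {x : α} (hx : x ∈ A) : x ∈ C :=
  mem_of_mem_erase (mem_of_mem_erase (g.sub hx))

theorem s9_nb {A : Finset α} {x : α} (hx : x ∈ A) : insert x (nb V τ x) ⊆ A ∪ bd V τ A := by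
  intro w hw
  rcases mem_insert.1 hw with rfl | hw
  · exact mem_union_left _ hx
  · exact mem_union.2 (cov_bd A x hx w hw)

theorem s9_card (x : α) : (insert x (nb V τ x)).card = dg V τ x + 1 :=
  card_insert_of_notMem (not_mem_nb x)

theorem s9_free (h : Cr V τ C U) {A : Finset α} (g : Cand V τ C u v A)
    (hm : ∀ u' v' B', Cand V τ C u' v' B' → A.card ≤ B'.card) {x y : α} (hx : x ∈ A)
    (hy : y ∈ nb V τ x) (hyA : y ∉ A) (hyC : y ∈ C) : Free V τ C x y := by
  refine h.atom g hm hx hyC hy ?_ fun e => hyA (by simp [e])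
  rintro ⟨s, hs, hsC, he⟩
  have h2 := (h.cand_bd g).2.2.2.2
  have hc := card_erase_of_mem hx
  have hsS : s ∈ ((bd V τ A).erase u).erase v :=
    mem_erase.2 ⟨fun e => hsC (e ▸ g.vC), mem_erase.2 ⟨fun e => hsC (e ▸ g.uC),
      mem_bd.2 ⟨⟨x, hx, hs⟩, fun k => hsC (s9_sub g k)⟩⟩⟩
  have hsub : ((bd V τ (A.erase x)).erase u).erase v ⊆
      insert x ((((bd V τ A).erase u).erase v).erase s) := by
    intro w hw
    simp only [mem_erase, mem_bd, mem_insert] at hw ⊢
    obtain ⟨hv, hu, ⟨a, ⟨hax, ha⟩, hw⟩, hn⟩ := hw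
    by_cases k : w = x
    · exact Or.inl k
    refine Or.inr ⟨?_, hv, hu, ⟨a, ha, hw⟩, fun k' => hn ⟨k, k'⟩⟩
    rintro rfl
    have : a ∈ nb V τ w ∩ C := mem_inter.2 ⟨nb_symm (h.sub (s9_sub g ha)) hw, s9_sub g ha⟩
    rw [he, mem_insert, mem_singleton] at this
    rcases this with rfl | rfl
    · exact hax rfl
    · exact hyA ha
  have h3 := card_le_card hsub
  have h4 := card_insert_le x ((((bd V τ A).erase u).erase v).erase s)
  have h5 := card_erase_of_mem hsS
  have h6 := card_pos.2 ⟨s, hsS⟩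
  have h7 := g.two
  have := hm u v (A.erase x) ⟨g.uC, g.vC, g.adj, card_pos.1 (by omega),
    (erase_subset _ _).trans g.sub, by omega⟩
  omega

theorem s9_out (h : Cr V τ C U) {A : Finset α} (g : Cand V τ C u v A) {y : α}
    (hy : y ∈ bd V τ A) (hyC : y ∈ C) : ∃ p ∈ nb V τ y, p ∉ A ∪ bd V τ A := by
  by_contra k
  push Not at k
  have hcov : Cov V τ (insert y A) ((bd V τ A).erase y) := by
    intro a ha b hb
    by_cases e : b = y
    · exact Or.inl (e ▸ mem_insert_self _ _)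
    have : b ∈ A ∪ bd V τ A := by
      rcases mem_insert.1 ha with rfl | ha
      · exact k b hb
      · exact s9_nb ha (mem_insert_of_mem hb)
    exact (mem_union.1 this).imp mem_insert_of_mem fun t => mem_erase.2 ⟨e, t⟩
  have h1 := card_le_card hcov.bd_sub
  have h2 := card_erase_of_mem hy
  have h3 := (h.cand_bd g).1
  have h4 := h.k4 (insert y A) (insert_subset hyC fun a ha => s9_sub g ha) (insert_nonempty _ _)
    fun e => by
      have hu := mem_insert.1 (e ▸ g.uC : u ∈ insert y A)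
      have hv := mem_insert.1 (e ▸ g.vC : v ∈ insert y A)
      have hu' : u ∉ A := fun t => (mem_erase.1 (mem_of_mem_erase (g.sub t))).1 rfl
      have hv' : v ∉ A := fun t => (mem_erase.1 (g.sub t)).1 rfl
      exact (mem_nb.1 g.adj).2.1 ((hv.resolve_right hv').trans (hu.resolve_right hu').symm)
  omega

theorem s9_step (h : Cr V τ C U) (hn : AllN V τ C) {A : Finset α} (g : Cand V τ C u v A)
    (hm : ∀ u' v' B', Cand V τ C u' v' B' → A.card ≤ B'.card) {x y p : α} (hx : x ∈ A)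
    (hy : y ∈ nb V τ x) (hyA : y ∉ A) (hyC : y ∈ C) (hp : p ∈ nb V τ y)
    (hpA : p ∉ A ∪ bd V τ A) : insert y (nb V τ y) = insert p (insert x (nb V τ x)) ∧
      6 ≤ dg V τ x ∧ dg V τ x ≤ 8 := by
  have f := s9_free h g hm hx hy hyA hyC
  obtain ⟨n1, n2, -, -⟩ := hn x y f
  obtain ⟨-, -, -, n3⟩ := hn y x (f.sym h.sub)
  have hpx : p ∉ insert x (nb V τ x) := fun t => hpA (s9_nb hx t)
  obtain ⟨n4, n5⟩ := n1.resolve_right fun t => hpx (t.1 (mem_insert_of_mem hp))
  have c1 := card_insert_of_notMem hpx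
  have c2 := s9_card (V := V) (τ := τ) x
  have c3 := s9_card (V := V) (τ := τ) y
  have hs := insert_subset (mem_insert_of_mem hp) n4
  have c4 := card_le_card hs
  exact ⟨(eq_of_subset_of_card_le hs (by omega)).symm, n2, by omega⟩

theorem Cr.clique (h : Cr V τ C U) (hn : AllN V τ C) {A : Finset α} (g : Cand V τ C u v A)
    (hm : ∀ u' v' B', Cand V τ C u' v' B' → A.card ≤ B'.card) :
    3 ≤ A.card ∧ A.card ≤ 5 ∧ (∀ y ∈ A, insert y (nb V τ y) = A ∪ bd V τ A) ∧
      ∀ y ∈ bd V τ A, y ∈ C → ∃ p, p ∉ A ∪ bd V τ A ∧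
        insert y (nb V τ y) = insert p (A ∪ bd V τ A) := by
  obtain ⟨c4, huS, -⟩ := h.cand_bd g
  obtain ⟨p, hp, hpA⟩ := s9_out h g huS g.uC
  obtain ⟨⟨x, hx, hux⟩, huA⟩ := mem_bd.1 huS
  obtain ⟨e0, d6, d8⟩ := s9_step h hn g hm hx hux huA g.uC hp hpA
  have key : ∀ z ∈ A ∩ insert x (nb V τ x), insert z (nb V τ z) = insert x (nb V τ x) := by
    intro z hz
    obtain ⟨hzA, hz⟩ := mem_inter.1 hz
    have h1 : z ∈ insert u (nb V τ u) := e0 ▸ mem_insert_of_mem hz
    have h2 := (mem_insert.1 h1).resolve_left fun e => huA (e ▸ hzA)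
    have h3 := (s9_step h hn g hm hzA (nb_symm (h.sub g.uC) h2) huA g.uC hp hpA).1
    rw [← erase_insert (fun t => hpA (s9_nb hzA t) : p ∉ insert z (nb V τ z)), ← h3, e0,
      erase_insert fun t => hpA (s9_nb hx t)]
  have hb : bd V τ (A ∩ insert x (nb V τ x)) ⊆ bd V τ A := by
    intro w hw
    obtain ⟨⟨a, ha, hw⟩, hn'⟩ := mem_bd.1 hw
    exact mem_bd.2 ⟨⟨a, (mem_inter.1 ha).1, hw⟩,
      fun t => hn' (mem_inter.2 ⟨t, key a ha ▸ mem_insert_of_mem hw⟩)⟩
  have hA := eq_of_subset_of_card_le (inter_subset_left (s₂ := insert x (nb V τ x)))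
    (hm u v _ ⟨g.uC, g.vC, g.adj, ⟨x, mem_inter.2 ⟨hx, mem_insert_self _ _⟩⟩,
      inter_subset_left.trans g.sub,
      (card_le_card (erase_subset_erase _ (erase_subset_erase _ hb))).trans g.two⟩)
  have hAx : A ⊆ insert x (nb V τ x) := fun a ha => (mem_inter.1 (hA.symm ▸ ha :
    a ∈ A ∩ insert x (nb V τ x))).2
  rw [hA] at key
  have hK : insert x (nb V τ x) = A ∪ bd V τ A := by
    refine (s9_nb hx).antisymm (union_subset hAx fun w hw => ?_)
    obtain ⟨⟨a, ha, hw⟩, -⟩ := mem_bd.1 hw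
    exact key a ha ▸ mem_insert_of_mem hw
  have c1 := s9_card (V := V) (τ := τ) x
  rw [hK, card_union_of_disjoint (disjoint_right.2 fun w hw => (mem_bd.1 hw).2)] at c1
  refine ⟨by omega, by omega, fun y hy => (key y hy).trans hK, fun y hy hyC => ?_⟩
  obtain ⟨r, hr, hrA⟩ := s9_out h g hy hyC
  obtain ⟨⟨a, ha, hya⟩, hyA⟩ := mem_bd.1 hy
  exact ⟨r, hrA, by rw [(s9_step h hn g hm ha hya hyA hyC hr hrA).1, key a ha, hK]⟩

end Pool.Agent.Lib.MP_efe3d7_co.H
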