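import Pool.Agent.Lib.MP_efe3d7_co.G.S8
import Pool.Agent.Lib.MP_efe3d7_co.G.S9

/-! The structure of a fragment with nested free edges. -/

set_option autoImplicit false

open Finset

namespace Pool.Agent.Lib.MP_efe3d7_co.H

variable {α : Type} [DecidableEq α] {V : Finset α} {τ : Sym2 α → Fin 3}
variable {Q T C U : Finset α} {u v : α}

theorem sa_nb {z w : α} {X : Finset α} (h : insert z (nb V τ z) = X) :
    w ∈ nb V τ z ↔ w ≠ z ∧ w ∈ X := by
  rw [← h, mem_insert]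
  exact ⟨fun k => ⟨(mem_nb.1 k).2.1, Or.inr k⟩, fun k => k.2.resolve_left k.1⟩

theorem sa_easy (h : Cr V τ C U) {A : Finset α} (g : Cand V τ C u v A) (a3 : 3 ≤ A.card)
    (hA : ∀ y ∈ A, insert y (nb V τ y) = A ∪ bd V τ A) {y p : α} (hy : y ∈ bd V τ A) (yC : y ∈ C)
    (hp : p ∉ A ∪ bd V τ A) (e : insert y (nb V τ y) = insert p (A ∪ bd V τ A)) (pC : p ∈ C) :
    Easy V τ C y p := by
  obtain ⟨-, uS, vS, -, -⟩ := h.cand_bd g
  have AC : ∀ a ∈ A, a ∈ C := fun a ha => mem_of_mem_erase (mem_of_mem_erase (g.sub ha))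
  have SA : ∀ w ∈ bd V τ A, A ⊆ nb V τ w := fun w hw a ha => nb_symm (h.sub (AC a ha))
    ((sa_nb (hA a ha)).2 ⟨fun k => (mem_bd.1 hw).2 (k ▸ ha), mem_union_right _ hw⟩)
  have pA : ∀ a ∈ A, a ≠ p := fun a ha k => hp (k ▸ mem_union_left _ ha)
  have np : ∀ a ∈ A, a ∉ nb V τ p := fun a ha k =>
    hp ((sa_nb (hA a ha)).1 (nb_symm (h.sub pC) k)).2
  refine ⟨yC, pC, (sa_nb e).2 ⟨fun k => hp (k ▸ mem_union_right _ hy), mem_insert_self _ _⟩,
    ?_, ?_, A, a3, SA y hy, fun a ha => ⟨pA a ha, np a ha⟩, fun w hw hw' => SA w ?_⟩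
  · rintro ⟨s, hs, sC, es⟩
    obtain ⟨a, ha⟩ := g.ne
    have sS : s ∈ bd V τ A := (mem_union.1 ((mem_insert.1 ((sa_nb e).1 hs).2).resolve_left
      fun k => sC (k ▸ pC))).resolve_left fun k => sC (AC s k)
    have : a ∈ ({y, p} : Finset α) := es ▸ mem_inter.2 ⟨SA s sS ha, AC a ha⟩
    rcases mem_insert.1 this with k | k
    · exact (mem_bd.1 hy).2 (k ▸ ha)
    · exact pA a ha (mem_singleton.1 k)
  · have h1 : insert p A ⊆ (C.erase u).erase v := insert_subset (mem_erase.2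
      ⟨fun k => hp (k ▸ mem_union_right _ vS), mem_erase.2
        ⟨fun k => hp (k ▸ mem_union_right _ uS), pC⟩⟩) g.sub
    have h2 := card_le_card h1
    rw [card_insert_of_notMem fun k => pA p k rfl,
      card_erase_of_mem (mem_erase.2 ⟨(mem_nb.1 g.adj).2.1, g.vC⟩), card_erase_of_mem g.uC] at h2
    omega
  · exact (mem_union.1 ((mem_insert.1 ((sa_nb e).1 hw).2).resolve_left
      (mem_nb.1 hw').2.1)).resolve_left fun k => np w k hw'

theorem Cr.clu_cand (h : Cr V τ C U) (hn : AllN V τ C) {A : Finset α} (g : Cand V τ C u v A)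
    (hm : ∀ u' v' B', Cand V τ C u' v' B' → A.card ≤ B'.card) :
    CluA V τ C U ∨ ∃ y p, Easy V τ C y p := by
  obtain ⟨a3, a5, hA, hS⟩ := h.clique hn g hm
  refine or_iff_not_imp_right.2 fun ne => ?_
  obtain ⟨s4, uS, vS, sub, -⟩ := h.cand_bd g
  have AC : ∀ a ∈ A, a ∈ C := fun a ha => mem_of_mem_erase (mem_of_mem_erase (g.sub ha))
  have SA : ∀ a ∈ bd V τ A, a ∉ A := fun a ha => (mem_bd.1 ha).2
  have hS' : ∀ y ∈ bd V τ A, y ∈ C → ∃ p ∈ U, p ∉ bd V τ A ∧
      insert y (nb V τ y) = insert p (A ∪ bd V τ A) := fun y hy yC => by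
    obtain ⟨p, hp, e⟩ := hS y hy yC
    refine ⟨p, (h.cov y yC p ((sa_nb e).2 ⟨fun k => hp (k ▸ mem_union_right _ hy),
      mem_insert_self _ _⟩)).resolve_left fun pC => ne ⟨y, p, sa_easy h g a3 hA hy yC hp e pC⟩,
      fun k => hp (mem_union_right _ k), e⟩
  clear hS
  generalize bd V τ A = S at *
  have hB : (A ∪ S) ∩ C = C := by
    by_contra k
    have h1 := h.k4 _ inter_subset_right ⟨u, mem_inter.2 ⟨mem_union_right _ uS, g.uC⟩⟩ k
    have h2 : Cov V τ ((A ∪ S) ∩ C) U := fun a ha b hb => by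
      obtain ⟨ha, aC⟩ := mem_inter.1 ha
      refine (h.cov a aC b hb).imp_left fun bC => mem_inter.2 ⟨?_, bC⟩
      rcases mem_union.1 ha with k | k
      · exact ((sa_nb (hA a k)).1 hb).2
      · obtain ⟨p, pU, -, e⟩ := hS' a k aC
        exact (mem_insert.1 ((sa_nb e).1 hb).2).resolve_left fun k => h.dis p pU (k ▸ bC)
    have := card_le_card h2.bd_sub
    have := h.u3
    omega
  have CK : ∀ z ∈ C, z ∈ A ∨ z ∈ S := fun z hz => mem_union.1 (mem_inter.1 (hB.symm ▸ hz)).1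
  have key : ∀ s ∈ U \ S, ∀ z ∈ nb V τ s ∩ C, z ∈ S ∧
      insert z (nb V τ z) = insert s (A ∪ S) := fun s hs z hz => by
    obtain ⟨sU, sS⟩ := mem_sdiff.1 hs
    obtain ⟨hz, zC⟩ := mem_inter.1 hz
    have k := nb_symm (h.subU sU) hz
    have sK : s ∉ A ∪ S := fun k => (mem_union.1 k).elim (fun k => h.dis s sU (AC s k)) sS
    have zS := (CK z zC).resolve_left fun zA => sK ((sa_nb (hA z zA)).1 k).2
    obtain ⟨p, -, -, e⟩ := hS' z zS zC
    exact ⟨zS, (mem_insert.1 ((sa_nb e).1 k).2).resolve_right sK ▸ e⟩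
  have c1 : 2 * (U \ S).card ≤ (S ∩ C).card := by
    have h1 : ((U \ S).biUnion fun s => nb V τ s ∩ C) ⊆ S ∩ C := biUnion_subset.2 fun s hs z hz =>
      mem_inter.2 ⟨(key s hs z hz).1, (mem_inter.1 hz).2⟩
    have h2 := card_le_card h1
    rw [card_biUnion fun s hs s' hs' k => disjoint_left.2 fun z hz hz' => by
      have e := (key s hs z hz).2.symm.trans (key s' hs' z hz').2
      obtain ⟨sU, sS⟩ := mem_sdiff.1 hs
      rcases mem_insert.1 (e ▸ mem_insert_self s (A ∪ S)) with e | e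
      · exact k e
      · exact (mem_union.1 e).elim (fun k => h.dis s sU (AC s k)) sS] at h2
    exact le_trans (by
      simpa [mul_comm] using card_nsmul_le_sum (U \ S) (fun s => (nb V τ s ∩ C).card) 2
        fun s hs => h.two s (mem_sdiff.1 hs).1) h2
  have c2 : S \ C = U ∩ S := by
    ext z
    simp only [mem_sdiff, mem_inter]
    exact ⟨fun k => ⟨(mem_union.1 (sub k.1)).resolve_left k.2, k.1⟩, fun k => ⟨k.2, h.dis z k.1⟩⟩
  have c3 := card_sdiff_add_card_inter S C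
  have c4 := card_sdiff_add_card_inter U S
  have c5 : 2 ≤ (S ∩ C).card := one_lt_card.2 ⟨v, mem_inter.2 ⟨vS, g.vC⟩, u,
    mem_inter.2 ⟨uS, g.uC⟩, (mem_nb.1 g.adj).2.1⟩
  have c6 : C.card = A.card + (S ∩ C).card := by
    rw [← card_union_of_disjoint (disjoint_right.2 fun z hz => SA z (mem_inter.1 hz).1)]
    refine congrArg card (Finset.ext fun z => ?_)
    simp only [mem_union, mem_inter]
    exact ⟨fun k => (CK z k).imp_right fun j => ⟨j, k⟩, fun k => k.elim (AC z) And.right⟩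
  have := h.u3
  rw [c2] at c3
  obtain ⟨p, hp⟩ := card_eq_one.1 (show (U \ S).card = 1 by omega)
  have hp' : ∀ z, z ∈ U ∧ z ∉ S ↔ z = p := fun z => by rw [← mem_sdiff, hp, mem_singleton]
  refine ⟨p, ((hp' p).2 rfl).1, S ∩ C, inter_subset_right, c5, by omega, by omega,
    fun _ => by omega, fun z hz => ?_, fun z zC hz => ?_⟩
  · obtain ⟨zS, zC⟩ := mem_inter.1 hz
    obtain ⟨q, qU, qS, e⟩ := hS' z zS zC
    obtain rfl := (hp' q).1 ⟨qU, qS⟩
    ext w
    simp only [sa_nb e, mem_insert, mem_union, mem_erase]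
    refine ⟨fun ⟨k, k'⟩ => ?_, fun k => ?_⟩
    · rcases k' with rfl | k' | k'
      exacts [Or.inr qU, Or.inl ⟨k, AC w k'⟩, (mem_union.1 (sub k')).imp_left fun j => ⟨k, j⟩]
    · rcases k with k | k
      · exact ⟨k.1, Or.inr (CK w k.2)⟩
      · exact ⟨fun j => h.dis w k (j ▸ zC), (em (w ∈ S)).elim (fun j => Or.inr (Or.inr j))
          fun j => Or.inl ((hp' w).1 ⟨k, j⟩)⟩
  · have zA := (CK z zC).resolve_right fun k => hz (mem_inter.2 ⟨k, zC⟩)
    ext w
    simp only [sa_nb (hA z zA), mem_union, mem_erase]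
    refine ⟨fun ⟨k, k'⟩ => ?_, fun k => ?_⟩
    · rcases k' with k' | k'
      exacts [Or.inl ⟨k, AC w k'⟩, (mem_union.1 (sub k')).imp (fun j => ⟨k, j⟩)
        fun j => ⟨fun i => ((hp' w).2 i).2 k', j⟩]
    · rcases k with k | k
      · exact ⟨k.1, CK w k.2⟩
      · exact ⟨fun j => h.dis w k.2 (j ▸ zC), Or.inr (by_contra fun j => k.1 ((hp' w).1 ⟨k.2, j⟩))⟩

theorem Cr.clu (h : Cr V τ C U) (hn : AllN V τ C) :
    CluA V τ C U ∨ CluB V τ C U ∨ ∃ y p, Easy V τ C y p := by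
  classical
  by_cases k : ∃ n u v, ∃ B : Finset α, Cand V τ C u v B ∧ B.card = n
  · obtain ⟨u, v, A, g, e⟩ := Nat.find_spec k
    exact (h.clu_cand hn g fun u' v' B' g' => e ▸ Nat.find_min' k ⟨u', v', B', g', rfl⟩).imp_right
      Or.inr
  · exact (h.clu_free hn fun u v B g => k ⟨_, u, v, B, g, rfl⟩).imp_right Or.inl

end Pool.Agent.Lib.MP_efe3d7_co.H
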