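import Pool.Agent.Lib.MP_efe3d7_co.G.S3

/-! Degrees at a free edge that is not reduced. -/

set_option autoImplicit false

open Finset

namespace Pool.Agent.Lib.MP_efe3d7_co.H

variable {α : Type} [DecidableEq α] {V : Finset α} {τ : Sym2 α → Fin 3}
variable {Q T C U : Finset α} {u v : α}

theorem sb_cubic (h : Big V τ Q T) {p : α} (hu : u ∈ core V τ Q T)
    (hv : v ∈ core V τ Q T) (huv : u ≠ v) (hpu : p ∈ nb V τ u) (hpv : p ∈ nb V τ v) (hp : p ∈ Q)
    (h3 : dg V τ p = 3) : p ∉ core V τ Q T ∧ nb V τ p ∩ core V τ Q T = {u, v} := by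
  have hc : p ∉ core V τ Q T := ((h.deg p hp).resolve_left (by omega)).2
  refine ⟨hc, ?_⟩
  have k := h.min.1
  obtain ⟨t, ht, e⟩ := s3a_door hp hc
  have huQ := (mem_core.1 hu).1
  have hvQ := (mem_core.1 hv).1
  have htQ : t ∉ Q := fun e => disjoint_left.1 k.dis e ht
  have a1 : u ∈ nb V τ p := nb_symm (k.subQ huQ) hpu
  have a2 : v ∈ nb V τ p := nb_symm (k.subQ hvQ) hpv
  have a3 : t ∈ nb V τ p :=
    nb_symm (k.subT ht) (mem_inter.1 (e ▸ mem_singleton_self p : p ∈ nb V τ t ∩ Q)).1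
  have a4 : t ≠ u := fun e => htQ (e ▸ huQ)
  have a5 : t ≠ v := fun e => htQ (e ▸ hvQ)
  have a6 : ({t, u, v} : Finset α) = nb V τ p := by
    refine eq_of_subset_of_card_le (by simp [insert_subset_iff, a1, a2, a3]) ?_
    rw [card_insert_of_notMem (by simp [a4, a5]), card_pair huv]
    exact h3.le
  rw [← a6]
  ext z
  simp only [mem_inter, mem_insert, mem_singleton]
  constructor
  · rintro ⟨rfl | e, k2⟩
    · exact absurd (mem_core.1 k2).1 htQ
    · exact e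
  · rintro (rfl | rfl)
    · exact ⟨Or.inr (Or.inl rfl), hu⟩
    · exact ⟨Or.inr (Or.inr rfl), hv⟩

theorem sb_sft (h : Big V τ Q T) (hv : Hv V τ Q (core V τ Q T))
    (f : Free V τ (core V τ Q T) u v) : sft V τ u v = nb V τ u ∩ nb V τ v := by
  obtain ⟨U, cr, -⟩ := h.cr
  have hs := cr.not_spoil f
  have hne : u ≠ v := (mem_nb.1 f.2.2.1).2.1.symm
  ext w
  simp only [sft, mem_filter, mem_inter]
  constructor
  · rintro ⟨a, b, c, d, e⟩
    exact ⟨mem_nb.2 ⟨a, b, by rw [d]; decide⟩, mem_nb.2 ⟨a, c, by rw [e]; decide⟩⟩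
  · rintro ⟨pu, pv⟩
    have h3 : w ∈ Q → dg V τ w ≠ 3 := fun a b =>
      have c := sb_cubic h f.1 f.2.1 hne pu pv a b
      hs ⟨w, pu, c.1, c.2⟩
    exact ⟨nb_sub _ pu, (mem_nb.1 pu).2.1, (mem_nb.1 pv).2.1, hv u f.1 w pu h3,
      hv v f.2.1 w pv h3⟩

theorem sb_dg (huv : v ∈ nb V τ u) :
    dg V τ u = 1 + (nb V τ u ∩ nb V τ v).card + ((nb V τ u).erase v \ nb V τ v).card := by
  have e1 := card_sdiff_add_card_inter ((nb V τ u).erase v) (nb V τ v)
  have e2 : (nb V τ u).erase v ∩ nb V τ v = nb V τ u ∩ nb V τ v := by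
    ext z
    simp only [mem_inter, mem_erase]
    exact ⟨fun k => ⟨k.1.2, k.2⟩, fun k => ⟨⟨(mem_nb.1 k.2).2.1, k.1⟩, k.2⟩⟩
  have e3 := card_erase_add_one huv
  rw [e2] at e1
  unfold dg
  omega

theorem sb_priv : (nb (V.erase v) (mg τ u v) u \ (nb V τ u ∩ nb V τ v)).card =
    ((nb V τ u).erase v \ nb V τ v).card + ((nb V τ v).erase u \ nb V τ u).card := by
  rw [← card_union_of_disjoint]
  · refine congrArg card ?_
    ext z
    simp only [mem_sdiff, mem_nb_mg_self, mem_inter, mem_union, mem_erase]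
    have a1 : z ∈ nb V τ u → z ≠ u := fun k => (mem_nb.1 k).2.1
    have a2 : z ∈ nb V τ v → z ≠ v := fun k => (mem_nb.1 k).2.1
    tauto
  · rw [disjoint_left]
    intro z k1 k2
    exact (mem_sdiff.1 k1).2 (mem_of_mem_erase (mem_sdiff.1 k2).1)

theorem sb_nest (hvu : u ∈ nb V τ v) (h0 : ((nb V τ u).erase v \ nb V τ v).card = 0) :
    insert u (nb V τ u) ⊆ insert v (nb V τ v) := by
  intro z hz
  rcases mem_insert.1 hz with rfl | hz
  · exact mem_insert_of_mem hvu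
  · by_cases e : z = v
    · exact e ▸ mem_insert_self _ _
    · by_contra k
      have : z ∈ (nb V τ u).erase v \ nb V τ v :=
        mem_sdiff.2 ⟨mem_erase.2 ⟨e, hz⟩, fun k' => k (mem_insert_of_mem k')⟩
      rw [card_eq_zero.1 h0] at this
      exact notMem_empty _ this

theorem Big.alln (h : Big V τ Q T) (hv : Hv V τ Q (core V τ Q T))
    (h2 : ∀ u v, Free V τ (core V τ Q T) u v →
      (nb (V.erase v) (mg τ u v) u \ sft V τ u v).card + (sft V τ u v).card / 4 ≤ 2)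
    (hw : ∀ u v, Free V τ (core V τ Q T) u v → dg V τ u = 5 →
      ¬ ((dg V τ v = 5 ∧ 3 ≤ (nb V τ u ∩ nb V τ v).card) ∨
        (dg V τ v = 6 ∧ (nb V τ u ∩ nb V τ v).card = 4))) : AllN V τ (core V τ Q T) := by
  intro u v f
  obtain ⟨U, cr, -⟩ := h.cr
  have f' := f.sym cr.sub
  have k2 := h2 u v f
  rw [sb_sft h hv f, sb_priv] at k2
  have du := sb_dg f.2.2.1
  have dv := sb_dg f'.2.2.1
  have w1 := hw u v f
  have w2 := hw v u f'
  rw [inter_comm] at dv w2
  have g1 := cr.deg u f.1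
  have g2 := cr.deg v f.2.1
  have n1 := sb_nest f'.2.2.1
  have n2 := sb_nest f.2.2.1
  refine ⟨?_, by omega, by omega, by omega⟩
  by_cases e : ((nb V τ u).erase v \ nb V τ v).card = 0
  · exact Or.inl ⟨n1 e, by omega⟩
  · exact Or.inr ⟨n2 (by omega), by omega⟩

end Pool.Agent.Lib.MP_efe3d7_co.H
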