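import Pool.Agent.Lib.MP_efe3d7_co.G.S2
import Pool.Agent.Lib.MP_efe3d7_co.G.S4
import Pool.Agent.Lib.MP_efe3d7_co.G.S5
import Pool.Agent.Lib.MP_efe3d7_co.G.SA
import Pool.Agent.Lib.MP_efe3d7_co.G.SB

/-! Fragments with large degrees. -/

set_option autoImplicit false

open Finset

namespace Pool.Agent.Lib.MP_efe3d7_co.H

variable {α : Type} [DecidableEq α] {V : Finset α} {τ : Sym2 α → Fin 3}
variable {Q T C U : Finset α} {u v : α}

variable [Fintype α] {x e : ℝ}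

omit [Fintype α] in
theorem sz_dg {τ' : Sym2 α → Fin 3} (s : SfT V τ u v τ') :
    (nb (V.erase v) (mg τ u v) u \ sft V τ u v).card +
      ((sft V τ u v).filter fun w => τ' s(u, w) ≠ 0).card ≤ dg (V.erase v) τ' u := by
  rw [← card_union_of_disjoint (sdiff_disjoint.mono_right (filter_subset _ _))]
  refine card_le_card (union_subset (fun w hw => ?_) fun w hw => ?_)
  · obtain ⟨a, b⟩ := mem_sdiff.1 hw
    rwa [mem_nb, s.on w b, ← mem_nb]
  · obtain ⟨a, b⟩ := mem_filter.1 hw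
    obtain ⟨c, d, f, -⟩ := mem_filter.1 a
    exact mem_nb.2 ⟨mem_erase.2 ⟨f, c⟩, d, b⟩

theorem Big.red (hx : 0 < x) (h0 : 0 < e) (h1 : e ≤ 3 / 4) (h : Big V τ Q T) {R : Prop}
    (hdel : ∀ u ∈ V, ∀ v ∈ V, u ≠ v → τ s(u, v) = 1 → Con3 V (Function.update τ s(u, v) 0) → R)
    (hpos : (SmX x e V τ → 0 < F2 x e V τ) → R)
    (hwin : Hv V τ Q (core V τ Q T) → ∀ u v, Free V τ (core V τ Q T) u v → dg V τ u = 5 →
      (dg V τ v = 5 ∧ 3 ≤ (nb V τ u ∩ nb V τ v).card) ∨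
        (dg V τ v = 6 ∧ (nb V τ u ∩ nb V τ v).card = 4) → R)
    (hclu : Hv V τ Q (core V τ Q T) → ∀ U, Cr V τ (core V τ Q T) U →
      (∀ s ∈ U, s ∈ T ∨ (s ∈ Q ∧ ∃ t ∈ T, nb V τ t ∩ Q = {s})) →
      CluA V τ (core V τ Q T) U ∨ CluB V τ (core V τ Q T) U → R) : R := by
  have sub : ∀ u ∈ core V τ Q T, u ∈ V := fun u hu => h.min.1.subQ (mem_core.1 hu).1
  by_cases hv : Hv V τ Q (core V τ Q T)
  swap
  · simp only [Hv, not_forall] at hv
    obtain ⟨u, hu, p, hp, h2, h3⟩ := hv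
    obtain ⟨a, b, c⟩ := mem_nb.1 hp
    refine hdel u (sub u hu) p a b.symm ?_ (h.del hu hp h2)
    revert h3 c
    generalize τ s(u, p) = t
    revert t
    decide
  have key : ∀ u ∈ core V τ Q T, ∀ v ∈ core V τ Q T, v ∈ nb V τ u → 8 ≤ V.card →
      (∀ τ', SfT V τ u v τ' →
        (sft V τ u v).card / 4 ≤ ((sft V τ u v).filter fun w => τ' s(u, w) ≠ 0).card →
        Con3 (V.erase v) τ' ∧ NX (V.erase v) τ') → R := fun u hu v hv' huv h8 hc => by
    have d : v ∈ Q → dg V τ v ≠ 3 := fun k e => by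
      rcases h.deg v k with a | a
      exacts [by omega, a.2 hv']
    exact hpos (soft_pos hx h0 h1 (sub u hu) (sub v hv') (mem_nb.1 huv).2.1.symm (hv u hu v huv d)
      (h.del hu huv d) h8 hc)
  by_contra hR
  obtain ⟨U, hU, hs⟩ := h.cr
  have hn := h.alln hv (fun u v f => Nat.le_of_lt_succ (lt_of_not_ge fun k => ?_))
    fun u v f k k' => hR (hwin hv u v f k k')
  · rcases hU.clu hn with a | a | ⟨y, p, f⟩
    · exact hR (hclu hv U hU hs (Or.inl a))
    · exact hR (hclu hv U hU hs (Or.inr a))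
    · have k := (h.easy_safe (τ' := mg τ y p) f
        ⟨fun _ _ a b => mg_of_ne τ p a b, fun _ _ => rfl⟩).2
      refine hR (key y f.1 p f.2.1 f.2.2.1 (by omega) fun τ' s _ => ⟨(h.easy_safe f s).1, Or.inl ?_⟩)
      rw [card_erase_of_mem (sub p f.2.1)]
      omega
  · obtain ⟨a, b⟩ := h.free_nx hv f k
    exact hR (key u f.1 v f.2.1 f.2.2.1 a fun τ' s c =>
      ⟨h.free_safe f s (by have := sz_dg s; omega), b τ' s⟩)

end Pool.Agent.Lib.MP_efe3d7_co.H
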